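import Pool.Agent.MX.S.Far

/-!
# Edges with equal signs: the estimates on the whole contour
-/

set_option autoImplicit false

namespace Pool.Agent.MX

open Complex Pool.Agent.S3
open Pool.Agent.H25.RK (gdv gdv_re_lt gdv_hasDerivAt)

section

variable {Φ : ℂ → ℂ → ℂ} {θ θ' xc xc' b b' a a' : ℝ} {v w : ℂ}

/-! ### Pairs in the first quadrant -/

theorem edge_same (hΦ : IsPhi Φ) (h0 : Φ 0 0 = c00) (hs : SamHyp θ θ')
    (hv : v ∈ G0 θ (13 / 40)) (hv0 : 0 ≤ v.re) (hw : w ∈ G0 θ' (13 / 40)) (hw0 : 0 ≤ w.re)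
    {L : ℝ} (hB : Real.pi * (v.im + w.im) < L)
    (hE : ∀ y ∈ Set.Icc (-(1 / 10) : ℝ) 0, EE (.op v) (.op w) y < L)
    (hL : (Φ (cmp (13 / 40) v) (cmp (13 / 40) w)).re < L) : EdgeOK (.op v) (.op w) L := by
  have hp : PrS θ θ' (cmp (13 / 40) v) (cmp (13 / 40) w) :=
    ⟨cmp_und V1_t hv hv0 hs.ht, cmp_und V1_t hw hw0 hs.symm.ht, hs⟩
  refine ⟨?_, hE, 1, _, _, hp.pgn, ?_⟩
  · have : B0 (.op v) + B0 (.op w) = Real.pi * (v.im + w.im) := by
      rw [B0, B0]; ring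
    rw [this]
    exact hB
  · have hB' : Real.pi * ((cmp (13 / 40) v).im + (cmp (13 / 40) w).im) < L := by
      rw [cmp_im hv hv0, cmp_im hw hw0]
      exact hB
    have k := hp.poly hΦ h0 (hp.flatOK (cmp_re _) (cmp_re _)) hB' hL
    have mono : ∀ y, (EE (.op (cmp (13 / 40) v)) (.op (cmp (13 / 40) w)) y < L ∧
        0 ≤ y.re ∧ y.re ≤ 1 / 2) → EE (.op v) (.op w) y < L := by
      rintro y ⟨h1, h2, h3⟩
      refine lt_of_le_of_lt ?_ h1
      have k1 := se_cmp V1_t hv hv0 h2 h3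
      have k2 := se_cmp V1_t hw hw0 h2 h3
      unfold EE
      linarith
    obtain ⟨g1, g2, g3, g4⟩ := k
    exact ⟨fun i hi x hx => mono _ (g1 i hi x hx), fun Y hY => mono _ (g2 Y hY),
      fun i hi Y hY => mono _ (g3 i hi Y hY), fun Y hY => mono _ (g4 Y hY)⟩

theorem edge_mix (hΦ : IsPhi Φ) (h0 : Φ 0 0 = c00) (hs : SamHyp θ θ')
    (hv : v ∈ G0 θ (13 / 40)) (hv0 : 0 ≤ v.re) (hw : w ∈ G0 θ' (13 / 40)) (hw0 : 0 ≤ w.re)
    {L : ℝ} (hB : Real.pi * (v.im + w.im) < L)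
    (hE : ∀ y ∈ Set.Icc (-(1 / 10) : ℝ) 0, EE (.op v) (.op w) y < L)
    (hL : (Φ (cmp (13 / 40) v) ((starRingEnd ℂ) (cmp (13 / 40) w))).re < L) :
    EdgeOK (.op v) (.op (mir w)) L := by
  have hp : Pr θ θ' (cmp (13 / 40) v) (cmp (13 / 40) w) :=
    (PrS.mk (cmp_und V1_t hv hv0 hs.ht) (cmp_und V1_t hw hw0 hs.symm.ht) hs).pr
  refine ⟨?_, ?_, 1, _, _, pgn_one' hp.yv_im, ?_⟩
  · have : B0 (.op v) + B0 (.op (mir w)) = Real.pi * (v.im + w.im) := by
      rw [B0_mir, B0, B0]; ring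
    rw [this]
    exact hB
  · intro y hy
    have : EE (.op v) (.op (mir w)) y = EE (.op v) (.op w) y := by
      rw [EE, EE, se_mir_real]
    rw [this]
    exact hE y hy
  · have hB' : Real.pi * ((cmp (13 / 40) v).im + (cmp (13 / 40) w).im) < L := by
      rw [cmp_im hv hv0, cmp_im hw hw0]
      exact hB
    have k := hp.poly hΦ h0 (hp.flatOK (cmp_re _) (cmp_re _)) hB' hL
    have mono : ∀ y, (EE (.op (cmp (13 / 40) v)) (.op ((starRingEnd ℂ) (cmp (13 / 40) w))) y <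
        L ∧ 0 ≤ y.re ∧ y.re ≤ 1 / 2) →
        EE (.op v) (.op (mir w)) y < L := by
      rintro y ⟨h1, h2, h3⟩
      refine lt_of_le_of_lt ?_ h1
      rw [← EE_conj_mir]
      have k1 := se_cmp V1_t hv hv0 h2 h3
      have k2 := se_cmp V1_t hw hw0 (y := (starRingEnd ℂ) y) (by rwa [conj_re])
        (by rwa [conj_re])
      have k3 := se_conj ((starRingEnd ℂ) y) w
      have k4 := se_conj ((starRingEnd ℂ) y) (cmp (13 / 40) w)
      rw [conj_conj] at k3 k4
      unfold EE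
      rw [k3, k4]
      linarith
    obtain ⟨g1, g2, g3, g4⟩ := k
    exact ⟨fun i hi x hx => mono _ (g1 i hi x hx), fun Y hY => mono _ (g2 Y hY),
      fun i hi Y hY => mono _ (g3 i hi Y hY), fun Y hY => mono _ (g4 Y hY)⟩

/-- The values at the real axis near `0`. -/
theorem G0_mid (hθ : Ht θ) (hv : v ∈ G0 θ (13 / 40)) {y : ℝ} (hy : y ∈ Set.Icc (-(1 / 10) : ℝ) 0) :
    se y (.op v) ≤ Real.pi * v.im := by
  have him := G0_im hv (by norm_num) hθ.pos.le hθ.lt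
  have k := se_mid (v := v) ?_ hy
  · rwa [abs_of_nonneg him] at k
  · have h5 : Real.tan θ ^ 2 ≤ 3613 / 10000 := by linarith [hθ.tan']
    have key : ∀ v : ℂ, 0 ≤ v.im → |v.re| ≤ 1 / 2 → v.im ≤ bl θ v.re →
        Real.sinh (Real.pi * v.im) ^ 2 ≤ 3613 / 10000 * Real.cos (Real.pi * v.re) ^ 2 := by
      intro v h0 h1 h2
      have k1 : Real.sinh (Real.pi * v.im) ≤ Real.tan θ * Real.cos (Real.pi * v.re) := by
        rw [← sinh_pi_bl]
        exact Real.sinh_le_sinh.2 (mul_le_mul_of_nonneg_left h2 Real.pi_pos.le)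
      have k0 : 0 ≤ Real.sinh (Real.pi * v.im) :=
        Real.sinh_nonneg_iff.2 (mul_nonneg Real.pi_pos.le h0)
      have h2 := pow_le_pow_left₀ k0 k1 2
      rw [mul_pow] at h2
      exact h2.trans (mul_le_mul_of_nonneg_right h5 (sq_nonneg _))
    rcases hv with ⟨a, b⟩ | ⟨a, b, c⟩ | ⟨a, b, c⟩
    · exact key v him (by linarith) b.le
    · refine key v him (by linarith) ?_
      rw [← bl_abs, a]; exact c
    · rw [c, mul_zero, Real.sinh_zero, zero_pow two_ne_zero]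
      positivity

theorem EE_mid (hs : SamHyp θ θ') (hv : v ∈ G0 θ (13 / 40)) (hw : w ∈ G0 θ' (13 / 40)) {y : ℝ}
    (hy : y ∈ Set.Icc (-(1 / 10) : ℝ) 0) : EE (.op v) (.op w) y ≤ Real.pi * (v.im + w.im) := by
  have k1 := G0_mid hs.ht hv hy
  have k2 := G0_mid hs.symm.ht hw hy
  unfold EE
  linarith

/-! ### The bound with the weights -/

/-- The bound of an edge with equal signs. -/
noncomputable def LLS (θ θ' b b' xc xc' a a' : ℝ) (v w : ℂ) : ℝ :=
  EE (.op (gdv (UU xc θ))) (.op (gdv (UU xc' θ'))) (yy (UU xc θ) (UU xc' θ')) +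
    lwf θ (13 / 40) (gdv (UU xc θ)) (qq (UU xc θ) (UU xc' θ')) b a v +
    lwf θ' (13 / 40) (gdv (UU xc' θ')) (qq (UU xc' θ') (UU xc θ)) b' a' w

theorem OOS.prc (H : OOS Φ θ θ' xc xc' b b' a a') :
    PrS θ θ' (gdv (UU xc θ)) (gdv (UU xc' θ')) :=
  ⟨line_und V1_t H.ho.ht H.hc.le H.hr.le, line_und V1_t H.ho.symm.ht H.hc'.le H.hr'.le, H.ho⟩

theorem OOS.ys_c (H : OOS Φ θ θ' xc xc' b b' a a') :
    ys (gdv (UU xc θ)) (gdv (UU xc' θ')) = yy (UU xc θ) (UU xc' θ') := by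
  rw [ys, uof_gdv (by rw [UU_im]; exact H.ho.abs), uof_gdv (by rw [UU_im]; exact H.ho.symm.abs)]

theorem OOS.Fc (H : OOS Φ θ θ' xc xc' b b' a a') :
    EE (.op (gdv (UU xc θ))) (.op (gdv (UU xc' θ'))) (yy (UU xc θ) (UU xc' θ')) =
      (Φ (gdv (UU xc θ)) (gdv (UU xc' θ'))).re := by
  rw [← H.ys_c, H.prc.bridge H.hΦ H.h0]

theorem OOS.hQ (H : OOS Φ θ θ' xc xc' b b' a a') :
    (qq (UU xc θ) (UU xc' θ')).re = b * (Real.pi * (gdv (UU xc θ)).im) := by
  rw [H.hs.hQ, gd_eq (by rw [UU_im]; exact H.ho.abs), im_ofReal_mul]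

theorem OOS.hQ' (H : OOS Φ θ θ' xc xc' b b' a a') :
    (qq (UU xc' θ') (UU xc θ)).re = b' * (Real.pi * (gdv (UU xc' θ')).im) := by
  rw [H.hs.hQ', gd_eq (by rw [UU_im]; exact H.ho.symm.abs), im_ofReal_mul]

theorem OOS.LL_pp (H : OOS Φ θ θ' xc xc' b b' a a') (hv : v ∈ G0 θ (13 / 40)) (hv0 : 0 ≤ v.re)
    (hw : w ∈ G0 θ' (13 / 40)) (hw0 : 0 ≤ w.re) : LLS θ θ' b b' xc xc' a a' v w =
      LMS Φ θ θ' b b' xc xc' (mu b a (13 / 40)) (mu b' a' (13 / 40)) v w := by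
  rw [LLS, LMS, L0S, H.Fc, lwf_pos V1_t hv hv0, lwf_pos V1_t hw hw0]
  ring

theorem OOS.LL_np (H : OOS Φ θ θ' xc xc' b b' a a') (hv : v ∈ G0 θ (13 / 40)) (hv0 : v.re ≤ 0) :
    LLS θ θ' b b' xc xc' a a' v w = LLS θ θ' b b' xc xc' a a' (mir v) w +
      4 * Real.pi * b * (pl θ (13 / 40) (mir v)).re * v.im := by
  rw [LLS, LLS, lwf_neg V1_t H.ha.ne' H.hQ hv hv0]
  ring

theorem OOS.LL_pn (H : OOS Φ θ θ' xc xc' b b' a a') (hw : w ∈ G0 θ' (13 / 40)) (hw0 : w.re ≤ 0) :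
    LLS θ θ' b b' xc xc' a a' v w = LLS θ θ' b b' xc xc' a a' v (mir w) +
      4 * Real.pi * b' * (pl θ' (13 / 40) (mir w)).re * w.im := by
  rw [LLS, LLS, lwf_neg V1_t H.ha'.ne' H.hQ' hw hw0]
  ring

/-- The reflection term is at most the gain of the share. -/
theorem refl_pay (hθ : Ht θ) (hb : 2 / 5 < b) (h : v ∈ G0 θ (13 / 40)) (h0 : 0 ≤ v.re) :
    8 * Real.pi / 5 * ((cmp (13 / 40) v).re * (cmp (13 / 40) v).im) ≤
      4 * Real.pi * b * (pl θ (13 / 40) v).re * v.im ∧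
    (0 < v.re → v.re ≤ 13 / 40 → 0 < v.im →
      8 * Real.pi / 5 * ((cmp (13 / 40) v).re * (cmp (13 / 40) v).im) <
      4 * Real.pi * b * (pl θ (13 / 40) v).re * v.im) := by
  have hpi := Real.pi_pos
  have him := G0_im h (by norm_num) hθ.pos.le hθ.lt
  rcases le_or_gt v.re (13 / 40) with h1 | h1
  · have e : (pl θ (13 / 40) v).re = v.re := by
      rw [pl_re, min_eq_right h1, max_eq_right (by linarith)]
    have e2 : cmp (13 / 40) v = v := by unfold S3.cmp; rw [if_pos h1]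
    rw [e, e2]
    have e3 : 4 * Real.pi * b * v.re * v.im - 8 * Real.pi / 5 * (v.re * v.im) =
        4 * Real.pi * ((b - 2 / 5) * (v.re * v.im)) := by ring
    refine ⟨?_, fun p1 _ p2 => ?_⟩
    · have : 0 ≤ 4 * Real.pi * ((b - 2 / 5) * (v.re * v.im)) := by
        have : 0 ≤ b - 2 / 5 := by linarith
        positivity
      linarith
    · have : 0 < 4 * Real.pi * ((b - 2 / 5) * (v.re * v.im)) := by
        have : 0 < b - 2 / 5 := by linarith
        positivity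
      linarith
  · have e2 : (cmp (13 / 40) v).im = 0 := by
      unfold S3.cmp; rw [if_neg (not_le.2 h1), ofReal_im]
    have e : (pl θ (13 / 40) v).re = 13 / 40 := by
      rw [pl_re, min_eq_left h1.le, max_eq_right (by norm_num)]
    rw [e2, mul_zero, mul_zero, e]
    have hb0 : 0 < b := by linarith
    exact ⟨by positivity, fun _ h2 _ => absurd h1 (not_lt.2 h2)⟩

/-- The ends. -/
theorem OOS.ends (H : OOS Φ θ θ' xc xc' b b' a a') (hE : EndS Φ θ θ') (hv : v ∈ G0 θ (13 / 40))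
    (hv0 : 0 ≤ v.re) (hw : w ∈ G0 θ' (13 / 40)) (hw0 : 0 ≤ w.re) {L : ℝ}
    (hL : LLS θ θ' b b' xc xc' a a' v w ≤ L) : Real.pi * (v.im + w.im) < L ∧
      ∀ y ∈ Set.Icc (-(1 / 10) : ℝ) 0, EE (.op v) (.op w) y < L := by
  have hp := H.pr hv hv0 hw hw0
  have h1 := hE _ _ hp (cmp_re _) (cmp_re _)
  have h2 := H.Phi_le hv hv0 hw hw0
  rw [cmp_im hv hv0, cmp_im hw hw0] at h1
  rw [← H.LL_pp hv hv0 hw hw0] at h2
  have h3 : Real.pi * (v.im + w.im) < L := by linarith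
  exact ⟨h3, fun y hy => (EE_mid H.ho hv hw hy).trans_lt h3⟩

/-- The estimate at the critical pair. -/
theorem OOS.near (H : OOS Φ θ θ' xc xc' b b' a a') (hE : EndS Φ θ θ') :
    EdgeC (.op (gdv (UU xc θ))) (.op (gdv (UU xc' θ'))) (yy (UU xc θ) (UU xc' θ'))
      (EE (.op (gdv (UU xc θ))) (.op (gdv (UU xc' θ'))) (yy (UU xc θ) (UU xc' θ'))) := by
  have hp := H.prc
  have h1 := hE _ _ hp H.hr.le H.hr'.le
  have l1 := line_im_bl (x := xc) H.ho.abs
  have l2 := line_im_bl (x := xc') H.ho.symm.abs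
  have g1 := und_G0 (v1 := 13 / 40) hp.hv H.hr.le l1
  have g2 := und_G0 (v1 := 13 / 40) hp.hw H.hr'.le l2
  have k := hp.edgeC H.hΦ H.h0 (fun t ht hne => hp.flat_lt H.hr.le H.hr'.le ht.1 ht.2 hne) h1
    (fun y hy => (EE_mid H.ho g1 g2 hy).trans_lt h1)
  rw [H.ys_c, ← H.Fc] at k
  exact k

theorem ab_eq_mir (h : v.re ≤ 0) (hv : v ∈ G0 θ (13 / 40)) :
    mir v ∈ G0 θ (13 / 40) ∧ 0 ≤ (mir v).re ∧ mir (mir v) = v := by
  refine ⟨mir_mem hv, by rw [mir_re]; linarith, mir_mir v⟩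

/-- **The estimate of an edge with equal signs away from the critical point.** -/
theorem OOS.far (H : OOS Φ θ θ' xc xc' b b' a a') (hE : EndS Φ θ θ') (hR : ReflS Φ θ θ')
    (hv : v ∈ G0 θ (13 / 40)) (hw : w ∈ G0 θ' (13 / 40))
    (hne : v ≠ gdv (UU xc θ) ∨ w ≠ gdv (UU xc' θ')) :
    EdgeOK (.op v) (.op w) (LLS θ θ' b b' xc xc' a a' v w) := by
  have hpi := Real.pi_pos
  have hc := H.prc
  have vre : 0 < (gdv (UU xc θ)).re := by
    have := gd_re_pos H.hc H.ho.abs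
    rw [gd_eq (by rw [UU_im]; exact H.ho.abs), re_ofReal_mul] at this
    exact pos_of_mul_pos_of_nonneg hpi.le this
  have wre : 0 < (gdv (UU xc' θ')).re := by
    have := gd_re_pos H.hc' H.ho.symm.abs
    rw [gd_eq (by rw [UU_im]; exact H.ho.symm.abs), re_ofReal_mul] at this
    exact pos_of_mul_pos_of_nonneg hpi.le this
  have vim : 0 < (gdv (UU xc θ)).im := by
    rw [line_im_bl H.ho.abs]
    exact blW_pos H.ho.θ0 H.ho.lt hc.hv.abs
  have wim : 0 < (gdv (UU xc' θ')).im := by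
    rw [line_im_bl H.ho.symm.abs]
    exact blW_pos H.ho.θ0' H.ho.symm.lt hc.hw.abs
  have hv_i := G0_im hv (by norm_num) H.ho.θ0.le H.ho.lt
  have hw_i := G0_im hw (by norm_num) H.ho.θ0'.le H.ho.symm.lt
  rcases le_or_gt 0 v.re with hv0 | hv0 <;> rcases le_or_gt 0 w.re with hw0 | hw0
  · -- both positive
    obtain ⟨e1, e2⟩ := H.ends hE hv hv0 hw hw0 le_rfl
    refine edge_same H.hΦ H.h0 H.ho hv hv0 hw hw0 e1 e2 ?_
    rw [H.LL_pp hv hv0 hw hw0]
    exact (H.Phi_aux hv hv0 hw hw0).2 hne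
  · -- `w.re < 0`
    obtain ⟨m1, m2, m3⟩ := ab_eq_mir hw0.le hw
    have hL := H.LL_pn (v := v) hw hw0.le
    have hr := refl_pay H.ho.symm.ht H.hs.b1' m1 m2
    rw [mir_im] at hr
    have hge : LLS θ θ' b b' xc xc' a a' v (mir w) ≤ LLS θ θ' b b' xc xc' a a' v w := by
      rw [hL]
      have : 0 ≤ 4 * Real.pi * b' * (pl θ' (13 / 40) (mir w)).re * w.im := by
        have h1 : 0 ≤ (pl θ' (13 / 40) (mir w)).re := by
          rw [pl_re]
          exact le_max_of_le_right (le_min (by norm_num) m2)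
        have := H.hs.symm.b0
        positivity
      linarith
    obtain ⟨e1, e2⟩ := H.ends hE hv hv0 m1 m2 hge
    have k := edge_mix H.hΦ H.h0 H.ho hv hv0 m1 m2 e1 e2 ?_
    · rwa [m3] at k
    · have hq := (hR _ _ (H.pr hv hv0 m1 m2) (cmp_re _) (cmp_re _)).1
      rw [hL, H.LL_pp hv hv0 m1 m2]
      by_cases hcr : v = gdv (UU xc θ) ∧ mir w = gdv (UU xc' θ')
      · have h1 := (H.Phi_aux hv hv0 m1 m2).1
        have h2 := hr.2 (by rw [hcr.2]; exact wre) (by rw [hcr.2]; exact H.hr'.le)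
          (by
            have := congrArg Complex.im hcr.2
            rw [mir_im] at this
            rw [this]; exact wim)
        linarith
      · have h1 := (H.Phi_aux hv hv0 m1 m2).2 (by rwa [← not_and_or])
        linarith [hr.1]
  · -- `v.re < 0`
    obtain ⟨m1, m2, m3⟩ := ab_eq_mir hv0.le hv
    have hL := H.LL_np (w := w) hv hv0.le
    have hr := refl_pay H.ho.ht H.hs.b1 m1 m2
    rw [mir_im] at hr
    have hge : LLS θ θ' b b' xc xc' a a' (mir v) w ≤ LLS θ θ' b b' xc xc' a a' v w := by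
      rw [hL]
      have : 0 ≤ 4 * Real.pi * b * (pl θ (13 / 40) (mir v)).re * v.im := by
        have h1 : 0 ≤ (pl θ (13 / 40) (mir v)).re := by
          rw [pl_re]
          exact le_max_of_le_right (le_min (by norm_num) m2)
        have := H.hs.b0
        positivity
      linarith
    obtain ⟨e1, e2⟩ := H.ends hE m1 m2 hw hw0 hge
    have k := (edge_mix H.hΦ H.h0 H.ho m1 m2 hw hw0 e1 e2 ?_).mir_both
    · rwa [m3, mir_mir] at k
    · have hq := (hR _ _ (H.pr m1 m2 hw hw0) (cmp_re _) (cmp_re _)).2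
      rw [hL, H.LL_pp m1 m2 hw hw0]
      by_cases hcr : mir v = gdv (UU xc θ) ∧ w = gdv (UU xc' θ')
      · have h1 := (H.Phi_aux m1 m2 hw hw0).1
        have h2 := hr.2 (by rw [hcr.1]; exact vre) (by rw [hcr.1]; exact H.hr.le)
          (by
            have := congrArg Complex.im hcr.1
            rw [mir_im] at this
            rw [this]; exact vim)
        linarith
      · have h1 := (H.Phi_aux m1 m2 hw hw0).2 (by rwa [← not_and_or])
        linarith [hr.1]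
  · -- both negative
    obtain ⟨m1, m2, m3⟩ := ab_eq_mir hv0.le hv
    obtain ⟨n1, n2, n3⟩ := ab_eq_mir hw0.le hw
    have hL1 := H.LL_np (w := w) hv hv0.le
    have hL2 := H.LL_pn (v := mir v) hw hw0.le
    have hr := refl_pay H.ho.ht H.hs.b1 m1 m2
    have hr' := refl_pay H.ho.symm.ht H.hs.b1' n1 n2
    rw [mir_im] at hr hr'
    have c1 : 0 ≤ 8 * Real.pi / 5 * ((cmp (13 / 40) (mir v)).re * (cmp (13 / 40) (mir v)).im) := by
      have := cmp_und V1_t m1 m2 H.ho.ht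
      have h1 := this.re0
      have h2 := this.im0
      positivity
    have c2 : 0 ≤ 8 * Real.pi / 5 * ((cmp (13 / 40) (mir w)).re * (cmp (13 / 40) (mir w)).im) := by
      have := cmp_und V1_t n1 n2 H.ho.symm.ht
      have h1 := this.re0
      have h2 := this.im0
      positivity
    have hge : LLS θ θ' b b' xc xc' a a' (mir v) (mir w) ≤ LLS θ θ' b b' xc xc' a a' v w := by
      rw [hL1, hL2]
      linarith [hr.1, hr'.1]
    obtain ⟨e1, e2⟩ := H.ends hE m1 m2 n1 n2 hge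
    have k := (edge_same H.hΦ H.h0 H.ho m1 m2 n1 n2 e1 e2 ?_).mir_both
    · rwa [m3, n3] at k
    · rw [hL1, hL2, H.LL_pp m1 m2 n1 n2]
      by_cases hcr : mir v = gdv (UU xc θ) ∧ mir w = gdv (UU xc' θ')
      · have h1 := (H.Phi_aux m1 m2 n1 n2).1
        have h2 := hr.2 (by rw [hcr.1]; exact vre) (by rw [hcr.1]; exact H.hr.le)
          (by
            have := congrArg Complex.im hcr.1
            rw [mir_im] at this
            rw [this]; exact vim)
        linarith [hr'.1]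
      · have h1 := (H.Phi_aux m1 m2 n1 n2).2 (by rwa [← not_and_or])
        linarith [hr.1, hr'.1]

end

end Pool.Agent.MX
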