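import Pool.Agent.S3.Mono

/-!
# Edges with equal signs: the double integral

`AAS θ θ' b xc xc' x x' = q(u,w) - Q + i b (gd u - gd u_c)`, `u = x + i θ`, `w = x' + i θ'`,
`0 < θ, θ' ≤ 1/2`. If `|x' - xc'| ≤ |x - xc|` then `Re (AAS e^{-i φ})` has the sign of `x - xc`,
`φ = arg cosh u`.
-/

set_option autoImplicit false

namespace Pool.Agent.MX

open Complex Pool.Agent.S3

/-- The heights of the lines at an edge with equal signs. -/
structure SamHyp (θ θ' : ℝ) : Prop where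
  θ0 : 0 < θ
  θ0' : 0 < θ'
  θ1 : θ ≤ 1 / 2
  θ1' : θ' ≤ 1 / 2

theorem SamHyp.symm {θ θ' : ℝ} (h : SamHyp θ θ') : SamHyp θ' θ := ⟨h.θ0', h.θ0, h.θ1', h.θ1⟩

section

variable {θ θ' xc xc' b : ℝ}

theorem SamHyp.lt (h : SamHyp θ θ') : θ < Real.pi / 2 := by
  have := Real.pi_gt_three
  linarith [h.θ1]

theorem SamHyp.abs (h : SamHyp θ θ') : |θ| < Real.pi / 2 := by
  rw [abs_of_pos h.θ0]; exact h.lt

theorem SamHyp.reg (h : SamHyp θ θ') (x x' : ℝ) : Reg (UU x θ) (UU x' θ') := by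
  apply Reg_UU
  rw [abs_of_pos h.θ0, abs_of_pos h.θ0']
  have := Real.pi_gt_three
  linarith [h.θ1, h.θ1']

/-- the phase bound -/
theorem DDS_re_nonneg (h : SamHyp θ θ') {ρ x x' ψ : ℝ} (hx : 0 ≤ x) (hx' : 0 ≤ x')
    (hd : ρ = 1 ∨ ρ = -1 ∨ ρ = 0) (h0 : 0 ≤ ψ) (h1 : ψ ≤ θ) :
    0 ≤ (DD ρ (UU x θ) (UU x' θ') * exp (-((ψ : ℂ) * I))).re := by
  have hpi := Real.pi_gt_three
  have hr := h.reg x x'
  have t1 := h.θ1
  have t1' := h.θ1'
  have t0 := h.θ0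
  have t0' := h.θ0'
  have aδ : |θ - θ'| < Real.pi / 2 := by rw [abs_lt]; constructor <;> linarith
  have aS : |θ + θ'| < Real.pi / 2 := by rw [abs_lt]; constructor <;> linarith
  have aθ' : |θ'| < Real.pi / 2 := h.symm.abs
  have aθ : |θ| < Real.pi / 2 := h.abs
  have i1 : (Lc (UU x θ + UU x' θ')).im = aa (x + x') (θ + θ') := by
    rw [UU_add]; exact Lc_UU aS
  have i2 : (Lc (UU x θ - UU x' θ')).im = aa (x - x') (θ - θ') := by
    rw [UU_sub]; exact Lc_UU aδ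
  have i3 : (Lc (UU x' θ')).im = aa x' θ' := Lc_UU aθ'
  have i4 : (Lc (UU x θ)).im = aa x θ := Lc_UU aθ
  have b1 : 0 ≤ aa (x + x') (θ + θ') := aa_nonneg (by linarith) (by linarith) (by linarith)
  have b2 : aa (x + x') (θ + θ') ≤ θ + θ' := aa_le_self _ (by linarith) (by linarith)
  have b3 : |aa (x - x') (θ - θ')| ≤ 1 / 2 :=
    (abs_aa_le _ aδ).trans (by rw [abs_le]; constructor <;> linarith)
  have b3' := abs_le.1 b3
  have b4 : 0 ≤ aa x' θ' := aa_nonneg hx' t0'.le h.symm.lt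
  have b5 : aa x' θ' ≤ θ' := aa_le_self _ t0'.le h.symm.lt
  have b6 : 0 ≤ aa x θ := aa_nonneg hx t0.le h.lt
  have b7 : aa x θ ≤ θ := aa_le_self _ t0.le h.lt
  have b8 : |aa (x - x') (θ - θ')| ≤ |θ - θ'| := abs_aa_le _ aδ
  have b9 : θ + θ' + |θ - θ'| ≤ 1 := by
    rcases le_total θ θ' with h2 | h2
    · rw [abs_of_nonpos (by linarith)]; linarith
    · rw [abs_of_nonneg (by linarith)]; linarith
  have b8' := abs_le.1 b8
  rcases hd with rfl | rfl | rfl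
  · rw [DD_one hr, re_exp_mul]
    apply mul_nonneg (Real.exp_pos _).le
    have e : ((Lc (UU x θ - UU x' θ') - Lc (UU x θ + UU x' θ')) / 2
        - Lc (UU x' θ')).im - ψ
        = (aa (x - x') (θ - θ') - aa (x + x') (θ + θ')) / 2 - aa x' θ' - ψ := by
      rw [sub_im, i3, show (2 : ℂ) = ((2 : ℝ) : ℂ) by norm_num, div_ofReal_im, sub_im, i1, i2]
    rw [e]
    exact Real.cos_nonneg_of_mem_Icc ⟨by linarith, by linarith⟩
  · rw [DD_neg_one hr, re_exp_mul]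
    apply mul_nonneg (Real.exp_pos _).le
    have e : ((Lc (UU x θ + UU x' θ') - Lc (UU x θ - UU x' θ')) / 2
        - Lc (UU x' θ')).im - ψ
        = (aa (x + x') (θ + θ') - aa (x - x') (θ - θ')) / 2 - aa x' θ' - ψ := by
      rw [sub_im, i3, show (2 : ℂ) = ((2 : ℝ) : ℂ) by norm_num, div_ofReal_im, sub_im, i1, i2]
    rw [e]
    exact Real.cos_nonneg_of_mem_Icc ⟨by linarith, by linarith⟩
  · rw [DD_zero hr, re_exp_mul]
    apply mul_nonneg (Real.exp_pos _).le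
    have e : (Lc (UU x θ) - (Lc (UU x θ + UU x' θ') + Lc (UU x θ - UU x' θ')) / 2).im - ψ
        = aa x θ - ψ - (aa (x + x') (θ + θ') + aa (x - x') (θ - θ')) / 2 := by
      rw [sub_im, i4, show (2 : ℂ) = ((2 : ℝ) : ℂ) by norm_num, div_ofReal_im, add_im, i1, i2]
      ring
    rw [e]
    exact Real.cos_nonneg_of_mem_Icc ⟨by linarith, by linarith⟩

/-- the contribution of the Gaussian -/
theorem ibS_re (h : SamHyp θ θ') {x ψ : ℝ} :
    (I * b / cosh (UU x θ) * exp (-((ψ : ℂ) * I))).re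
      = b * (Real.exp (-(Lc (UU x θ)).re) * Real.sin (aa x θ + ψ)) := by
  have aθ : |θ| < Real.pi / 2 := h.abs
  have aθ' : |(UU x θ).im| < Real.pi / 2 := by simpa using aθ
  have i4 : (Lc (UU x θ)).im = aa x θ := Lc_UU aθ
  have e1 : I * b / cosh (UU x θ) * exp (-((ψ : ℂ) * I))
      = (b : ℂ) * (I * (exp (-Lc (UU x θ)) * exp (-((ψ : ℂ) * I)))) := by
    rw [← exp_Lc aθ', exp_neg (Lc (UU x θ))]
    ring
  rw [e1, re_ofReal_mul, mul_re, I_re, I_im, ← exp_add, exp_im]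
  have e2 : (-Lc (UU x θ) + -((ψ : ℂ) * I)).re = -(Lc (UU x θ)).re := by simp
  have e3 : (-Lc (UU x θ) + -((ψ : ℂ) * I)).im = -(aa x θ + ψ) := by
    simp [i4]; ring
  rw [e2, e3, Real.sin_neg]
  ring

theorem ibS_re_pos (h : SamHyp θ θ') {x ψ : ℝ} (hb : 0 < b) (hx : 0 < x) (h0 : 0 ≤ ψ)
    (h1 : ψ ≤ θ) : 0 < (I * b / cosh (UU x θ) * exp (-((ψ : ℂ) * I))).re := by
  rw [ibS_re h]
  apply mul_pos hb
  apply mul_pos (Real.exp_pos _)
  have hθ := h.lt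
  have a1 : 0 < aa x θ := by
    unfold aa
    rw [Real.arctan_pos]
    apply mul_pos
    · rw [Real.tanh_eq_sinh_div_cosh]
      exact div_pos (Real.sinh_pos_iff.2 hx) (Real.cosh_pos x)
    · exact Real.tan_pos_of_pos_of_lt_pi_div_two h.θ0 hθ
  have a2 : aa x θ ≤ θ := aa_le_self x h.θ0.le hθ
  apply Real.sin_pos_of_pos_of_lt_pi <;> linarith

/-- the function `Re ((q + i b gd) e^{-iψ})` on the line of direction `(1, ρ)` -/
noncomputable def flS (θ θ' b ψ ρ c x : ℝ) : ℝ :=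
  ((qq (UU x θ) (UU (c + ρ * x) θ') + I * b * gd (UU x θ)) * exp (-((ψ : ℂ) * I))).re

theorem hasDerivAt_flS (h : SamHyp θ θ') (ψ ρ c x : ℝ) :
    HasDerivAt (flS θ θ' b ψ ρ c)
      ((DD ρ (UU x θ) (UU (c + ρ * x) θ') * exp (-((ψ : ℂ) * I))).re
        + (I * b / cosh (UU x θ) * exp (-((ψ : ℂ) * I))).re) x := by
  have aθ : |θ| < Real.pi / 2 := h.abs
  have h1 : HasDerivAt (fun x : ℝ => UU (c + ρ * x) θ') (ρ : ℂ) x := by
    have h2 : HasDerivAt (fun x : ℝ => c + ρ * x) ρ x := by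
      have := ((hasDerivAt_id x).const_mul ρ).const_add c
      simpa using this
    have := HasDerivAt.scomp (g₁ := fun y : ℝ => UU y θ') (h := fun x : ℝ => c + ρ * x) x
      (hasDerivAt_UU (c + ρ * x) θ') h2
    have e : ρ • (1 : ℂ) = (ρ : ℂ) := by simp
    rwa [e] at this
  have h3 := hasDerivAt_qq (h.reg x (c + ρ * x)) (hasDerivAt_UU x θ) h1
  have h4 : HasDerivAt (fun x : ℝ => I * (b : ℂ) * gd (UU x θ)) (I * b * (1 / cosh (UU x θ))) x :=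
    (hasDerivAt_gd_line aθ).const_mul (I * (b : ℂ))
  have h5 := ((h3.add h4).mul_const (exp (-((ψ : ℂ) * I))))
  have h6 := hasDerivAt_re h5
  have e : (((1 * cosh (UU x θ) * cosh (UU (c + ρ * x) θ')
        - ρ * sinh (UU x θ) * sinh (UU (c + ρ * x) θ')) /
          (cosh (UU (c + ρ * x) θ') * TT (UU x θ) (UU (c + ρ * x) θ')) +
        I * b * (1 / cosh (UU x θ))) * exp (-((ψ : ℂ) * I))).re
      = ((DD ρ (UU x θ) (UU (c + ρ * x) θ') * exp (-((ψ : ℂ) * I))).re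
        + (I * b / cosh (UU x θ) * exp (-((ψ : ℂ) * I))).re) := by
    rw [← add_re, ← add_mul, one_mul, mul_one_div]
    rfl
  rw [← e]
  exact h6

theorem flS_strictMono (h : SamHyp θ θ') (hb : 0 < b) {ψ ρ c x₁ x₂ : ℝ} (h0 : 0 ≤ ψ)
    (h1 : ψ ≤ θ) (hx : 0 ≤ x₁) (hd : ∀ x ∈ Set.Ioo x₁ x₂, 0 ≤ c + ρ * x)
    (hD : ρ = 1 ∨ ρ = -1 ∨ ρ = 0) :
    StrictMonoOn (flS θ θ' b ψ ρ c) (Set.Icc x₁ x₂) := by
  apply strictMonoOn_of_deriv_pos (convex_Icc _ _)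
  · intro x _
    exact (hasDerivAt_flS h ψ ρ c x).continuousAt.continuousWithinAt
  · intro x hx'
    rw [interior_Icc] at hx'
    rw [(hasDerivAt_flS h ψ ρ c x).deriv]
    have hx0 : 0 < x := lt_of_le_of_lt hx hx'.1
    have := DDS_re_nonneg h hx0.le (hd x hx') hD h0 h1
    have := ibS_re_pos h hb hx0 h0 h1
    linarith

/-- the function `a(t)` of the note -/
noncomputable def AAS (θ θ' b xc xc' x x' : ℝ) : ℂ :=
  qq (UU x θ) (UU x' θ') - qq (UU xc θ) (UU xc' θ')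
    + I * b * (gd (UU x θ) - gd (UU xc θ))

theorem AAS_re (θ θ' b xc xc' x x' ψ : ℝ) :
    (AAS θ θ' b xc xc' x x' * exp (-((ψ : ℂ) * I))).re
      = flS θ θ' b ψ 0 x' x - flS θ θ' b ψ 0 xc' xc := by
  rw [flS, flS, ← sub_re, ← sub_mul]
  simp only [zero_mul, add_zero]
  congr 2
  rw [AAS]; ring

theorem flS_congr {θ θ' b ψ ρ c ρ' c' x : ℝ} (h : c + ρ * x = c' + ρ' * x) :
    flS θ θ' b ψ ρ c x = flS θ θ' b ψ ρ' c' x := by
  rw [flS, flS, h]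

/-- (K), `x` increases -/
theorem AAS_pos (h : SamHyp θ θ') (hb : 0 < b) (hc : 0 ≤ xc) (hc' : 0 ≤ xc') {x x' ψ : ℝ}
    (hx' : 0 ≤ x') (h0 : 0 ≤ ψ) (h1 : ψ ≤ θ) (hx : xc < x) (hxx : |x' - xc'| ≤ x - xc) :
    0 < (AAS θ θ' b xc xc' x x' * exp (-((ψ : ℂ) * I))).re := by
  rw [AAS_re]
  set x₁ := xc + |x' - xc'| with hx₁
  have ha : 0 ≤ |x' - xc'| := abs_nonneg _
  have hx1 : xc ≤ x₁ := by linarith
  have hx2 : x₁ ≤ x := by linarith
  -- phase 2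
  have p2 : StrictMonoOn (flS θ θ' b ψ 0 x') (Set.Icc x₁ x) :=
    flS_strictMono h hb h0 h1 (by linarith) (fun y _ => by simpa using hx')
      (Or.inr (Or.inr rfl))
  have q2 : flS θ θ' b ψ 0 x' x₁ ≤ flS θ θ' b ψ 0 x' x :=
    p2.monotoneOn ⟨le_rfl, hx2⟩ ⟨hx2, le_rfl⟩ hx2
  -- phase 1
  have key : flS θ θ' b ψ 0 xc' xc ≤ flS θ θ' b ψ 0 x' x₁ ∧
      (xc < x₁ → flS θ θ' b ψ 0 xc' xc < flS θ θ' b ψ 0 x' x₁) := by
    rcases le_total xc' x' with hs | hs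
    · rw [abs_of_nonneg (by linarith)] at hx₁
      have p1 : StrictMonoOn (flS θ θ' b ψ 1 (xc' - xc)) (Set.Icc xc x₁) :=
        flS_strictMono h hb h0 h1 hc (fun y hy => by linarith [hy.1])
          (Or.inl rfl)
      have e1 : flS θ θ' b ψ 1 (xc' - xc) xc = flS θ θ' b ψ 0 xc' xc := flS_congr (by ring)
      have e2 : flS θ θ' b ψ 1 (xc' - xc) x₁ = flS θ θ' b ψ 0 x' x₁ := flS_congr (by
        rw [hx₁]; ring)
      rw [← e1, ← e2]
      exact ⟨p1.monotoneOn ⟨le_rfl, hx1⟩ ⟨hx1, le_rfl⟩ hx1,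
        fun hlt => p1 ⟨le_rfl, hx1⟩ ⟨hx1, le_rfl⟩ hlt⟩
    · rw [abs_of_nonpos (by linarith)] at hx₁
      have p1 : StrictMonoOn (flS θ θ' b ψ (-1) (xc' + xc)) (Set.Icc xc x₁) :=
        flS_strictMono h hb h0 h1 hc (fun y hy => by linarith [hy.2])
          (Or.inr (Or.inl rfl))
      have e1 : flS θ θ' b ψ (-1) (xc' + xc) xc = flS θ θ' b ψ 0 xc' xc := flS_congr (by ring)
      have e2 : flS θ θ' b ψ (-1) (xc' + xc) x₁ = flS θ θ' b ψ 0 x' x₁ := flS_congr (by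
        rw [hx₁]; ring)
      rw [← e1, ← e2]
      exact ⟨p1.monotoneOn ⟨le_rfl, hx1⟩ ⟨hx1, le_rfl⟩ hx1,
        fun hlt => p1 ⟨le_rfl, hx1⟩ ⟨hx1, le_rfl⟩ hlt⟩
  rcases lt_or_ge xc x₁ with hlt | hge
  · have := key.2 hlt; linarith
  · have e : x₁ = xc := le_antisymm hge hx1
    have q3 : flS θ θ' b ψ 0 x' x₁ < flS θ θ' b ψ 0 x' x :=
      p2 ⟨le_rfl, hx2⟩ ⟨hx2, le_rfl⟩ (by rw [e]; exact hx)
    have := key.1
    linarith

/-- (K), `x` decreases -/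
theorem AAS_neg (h : SamHyp θ θ') (hb : 0 < b) (hc' : 0 ≤ xc') {x x' ψ : ℝ}
    (hx0 : 0 ≤ x) (hx' : 0 ≤ x') (h0 : 0 ≤ ψ) (h1 : ψ ≤ θ) (hx : x < xc)
    (hxx : |x' - xc'| ≤ xc - x) :
    (AAS θ θ' b xc xc' x x' * exp (-((ψ : ℂ) * I))).re < 0 := by
  rw [AAS_re]
  set x₁ := xc - |x' - xc'| with hx₁
  have ha : 0 ≤ |x' - xc'| := abs_nonneg _
  have hx1 : x₁ ≤ xc := by linarith
  have hx2 : x ≤ x₁ := by linarith
  have p2 : StrictMonoOn (flS θ θ' b ψ 0 x') (Set.Icc x x₁) :=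
    flS_strictMono h hb h0 h1 hx0 (fun y _ => by simpa using hx')
      (Or.inr (Or.inr rfl))
  have q2 : flS θ θ' b ψ 0 x' x ≤ flS θ θ' b ψ 0 x' x₁ :=
    p2.monotoneOn ⟨le_rfl, hx2⟩ ⟨hx2, le_rfl⟩ hx2
  have key : flS θ θ' b ψ 0 x' x₁ ≤ flS θ θ' b ψ 0 xc' xc ∧
      (x₁ < xc → flS θ θ' b ψ 0 x' x₁ < flS θ θ' b ψ 0 xc' xc) := by
    rcases le_total xc' x' with hs | hs
    · rw [abs_of_nonneg (by linarith)] at hx₁
      have p1 : StrictMonoOn (flS θ θ' b ψ (-1) (xc' + xc)) (Set.Icc x₁ xc) :=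
        flS_strictMono h hb h0 h1 (by linarith) (fun y hy => by linarith [hy.2])
          (Or.inr (Or.inl rfl))
      have e1 : flS θ θ' b ψ (-1) (xc' + xc) xc = flS θ θ' b ψ 0 xc' xc := flS_congr (by ring)
      have e2 : flS θ θ' b ψ (-1) (xc' + xc) x₁ = flS θ θ' b ψ 0 x' x₁ := flS_congr (by
        rw [hx₁]; ring)
      rw [← e1, ← e2]
      exact ⟨p1.monotoneOn ⟨le_rfl, hx1⟩ ⟨hx1, le_rfl⟩ hx1,
        fun hlt => p1 ⟨le_rfl, hx1⟩ ⟨hx1, le_rfl⟩ hlt⟩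
    · rw [abs_of_nonpos (by linarith)] at hx₁
      have p1 : StrictMonoOn (flS θ θ' b ψ 1 (xc' - xc)) (Set.Icc x₁ xc) :=
        flS_strictMono h hb h0 h1 (by linarith) (fun y hy => by linarith [hy.1])
          (Or.inl rfl)
      have e1 : flS θ θ' b ψ 1 (xc' - xc) xc = flS θ θ' b ψ 0 xc' xc := flS_congr (by ring)
      have e2 : flS θ θ' b ψ 1 (xc' - xc) x₁ = flS θ θ' b ψ 0 x' x₁ := flS_congr (by
        rw [hx₁]; ring)
      rw [← e1, ← e2]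
      exact ⟨p1.monotoneOn ⟨le_rfl, hx1⟩ ⟨hx1, le_rfl⟩ hx1,
        fun hlt => p1 ⟨le_rfl, hx1⟩ ⟨hx1, le_rfl⟩ hlt⟩
  rcases lt_or_ge x₁ xc with hlt | hge
  · have := key.2 hlt; linarith
  · have e : x₁ = xc := le_antisymm hx1 hge
    have q3 : flS θ θ' b ψ 0 x' x < flS θ θ' b ψ 0 x' x₁ :=
      p2 ⟨le_rfl, hx2⟩ ⟨hx2, le_rfl⟩ (by rw [e]; exact hx)
    have := key.1
    linarith

/-- `Re (AAS / cosh u)` -/
theorem AAS_div_re (h : SamHyp θ θ') (b x x' : ℝ) :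
    (AAS θ θ' b xc xc' x x' / cosh (UU x θ)).re = Real.exp (-(Lc (UU x θ)).re) *
      (AAS θ θ' b xc xc' x x' * exp (-((aa x θ : ℂ) * I))).re := by
  have aθ : |θ| < Real.pi / 2 := h.abs
  have aθ' : |(UU x θ).im| < Real.pi / 2 := by simpa using aθ
  have i4 : (Lc (UU x θ)).im = aa x θ := Lc_UU aθ
  rw [← re_ofReal_mul, ofReal_exp, div_eq_mul_inv, ← exp_Lc aθ', ← exp_neg]
  congr 1
  have e : -Lc (UU x θ) = (-(Lc (UU x θ)).re : ℝ) + -((aa x θ : ℂ) * I) := by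
    rw [← i4]
    apply Complex.ext <;> simp
  conv_lhs => rw [e, exp_add]
  push_cast
  ring

/-- the sign of `Re (AAS / cosh u)` -/
theorem AAS_div_pos (h : SamHyp θ θ') (hb : 0 < b) (hc : 0 ≤ xc) (hc' : 0 ≤ xc') {x x' : ℝ}
    (hx' : 0 ≤ x') (hx : xc < x) (hxx : |x' - xc'| ≤ x - xc) :
    0 < (AAS θ θ' b xc xc' x x' / cosh (UU x θ)).re := by
  rw [AAS_div_re h]
  apply mul_pos (Real.exp_pos _)
  exact AAS_pos h hb hc hc' hx' (aa_nonneg (by linarith) h.θ0.le (h.lt))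
    (aa_le_self x h.θ0.le (h.lt)) hx hxx

theorem AAS_div_neg (h : SamHyp θ θ') (hb : 0 < b) (hc' : 0 ≤ xc') {x x' : ℝ}
    (hx0 : 0 ≤ x) (hx' : 0 ≤ x') (hx : x < xc) (hxx : |x' - xc'| ≤ xc - x) :
    (AAS θ θ' b xc xc' x x' / cosh (UU x θ)).re < 0 := by
  rw [AAS_div_re h]
  apply mul_neg_of_pos_of_neg (Real.exp_pos _)
  exact AAS_neg h hb hc' hx0 hx' (aa_nonneg hx0 h.θ0.le (h.lt))
    (aa_le_self x h.θ0.le (h.lt)) hx hxx

end

end Pool.Agent.MX
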