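import Pool.Agent.MX.S.LeftS
import Pool.Agent.MX.S.Mono
import Pool.Agent.S3.E.Geo
import Pool.Agent.S3.E.Sl
import Pool.Agent.S3.E.Two
import Pool.Agent.S3.W.Edg1

/-!
# Edges with equal signs: the polygon of a pair

`v` and `w` are points of the first quadrant below the `u`-lines of height `θ` and `θ'`; the slots
are `op v` and `op w`.
-/

set_option autoImplicit false

namespace Pool.Agent.MX

open Complex Pool.Agent.S3
open Pool.Agent.H25.RK (gdv gdv_re_lt gdv_hasDerivAt)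

/-- Both points. -/
structure PrS (θ θ' : ℝ) (v w : ℂ) : Prop where
  hv : Und θ v
  hw : Und θ' w
  hs : SamHyp θ θ'

/-- The critical point of the edge. -/
noncomputable def ys (v w : ℂ) : ℂ := yy (uof v) (uof w)

/-- The flat inequality for a pair. -/
def FlatOKS (v w : ℂ) : Prop := ∀ t ∈ Set.Icc (0 : ℝ) (1 / 2),
  EE (.op v) (.op w) ((t : ℂ) + (ys v w).im * I) ≤ EE (.op v) (.op w) (ys v w)

section

variable {θ θ' : ℝ} {v w : ℂ} {Φ : ℂ → ℂ → ℂ}

theorem SamHyp.ht (h : SamHyp θ θ') : Ht θ := Ht_of h.θ0 (by linarith [h.θ1])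

theorem SamHyp.S (h : SamHyp θ θ') : θ + θ' < Real.pi / 2 := by
  have := Real.pi_gt_three
  linarith [h.θ1, h.θ1']

theorem PrS.hθ (h : PrS θ θ' v w) : Ht θ := h.hs.ht

theorem PrS.hθ' (h : PrS θ θ' v w) : Ht θ' := h.hs.symm.ht

theorem PrS.symm (h : PrS θ θ' v w) : PrS θ' θ w v := ⟨h.hw, h.hv, h.hs.symm⟩

/-- The pair with opposite signs. -/
theorem PrS.pr (h : PrS θ θ' v w) : Pr θ θ' v w := ⟨h.hv, h.hw, h.hθ, h.hθ', h.hs.S⟩

theorem PrS.qs (h : PrS θ θ' v w) : QS (uof v) (uof w) := by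
  obtain ⟨u1, u2, u3, u4, u5⟩ := h.hv.u h.hθ
  obtain ⟨w1, w2, w3, w4, w5⟩ := h.hw.u h.hθ'
  have hpi := Real.pi_gt_three
  have s1 := h.hs.θ1
  have s2 := h.hs.θ1'
  refine ⟨?_, u1, w1, u2, w2, by linarith, by linarith⟩
  rw [Reg, abs_of_nonneg u2, abs_of_nonneg w2]
  linarith

theorem PrS.gdv_u (h : PrS θ θ' v w) : gdv (uof v) = v := gdv_uof h.hv.abs

theorem PrS.gdv_w (h : PrS θ θ' v w) : gdv (uof w) = w := gdv_uof h.hw.abs

theorem ys_comm (v w : ℂ) : ys w v = ys v w := yy_comm _ _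

theorem PrS.ys_re (h : PrS θ θ' v w) : 0 < (ys v w).re ∧ (ys v w).re < 1 / 2 :=
  ⟨yy_re_pos h.qs.reg, yy_re_lt h.qs.reg⟩

theorem PrS.sdom_v (h : PrS θ θ' v w) : sdom (ys v w) (.op v) := by
  have h1 := h.qs.dm.1
  have h2 := h.qs.dp.1
  rw [h.gdv_u] at h1 h2
  exact ⟨h.ys_re.1, h.ys_re.2, h1, h2⟩

theorem PrS.sdom_w (h : PrS θ θ' v w) : sdom (ys v w) (.op w) := by
  have := h.symm.sdom_v
  rwa [ys_comm] at this

/-- The growth rate at the critical point is the real part of `Φ`. -/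
theorem PrS.bridge (hΦ : IsPhi Φ) (h0 : Φ 0 0 = c00) (h : PrS θ θ' v w) :
    EE (.op v) (.op w) (ys v w) = (Φ v w).re := by
  have k := bridge_QS hΦ h0 h.qs
  rw [← gdv_eq_gd h.qs.reg.left, ← gdv_eq_gd h.qs.reg.right, h.gdv_u, h.gdv_w] at k
  have k2 := congrArg Complex.re k
  change _ = (sP (ys v w) (.op v) + sP (ys v w) (.op w)).re at k2
  rw [add_re, sP_re h.sdom_v, sP_re h.sdom_w] at k2
  rw [k2, EE]

/-- The equation of the critical point. -/
theorem PrS.ys_eq (h : PrS θ θ' v w) : 1 / cos (Real.pi * ys v w) ^ 2 =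
    1 / cos (Real.pi * v) ^ 2 + 1 / cos (Real.pi * w) ^ 2 := by
  have h1 := cos_yy_sq h.qs.reg
  rw [← cosh_sq_of h.hv.abs, ← cosh_sq_of h.hw.abs]
  have h2 : cos (Real.pi * ys v w) ^ 2 ≠ 0 := pow_ne_zero 2 (cos_yy_ne h.qs.reg)
  rw [div_eq_iff h2, mul_comm]
  exact h1.symm

theorem cosh_sq_im_nonneg {u : ℂ} (h0 : 0 ≤ u.re) (h1 : 0 ≤ u.im) (h2 : u.im < Real.pi / 2) :
    0 ≤ (cosh u ^ 2).im := by
  have hc : 0 < Real.cos u.im := Real.cos_pos_of_mem_Ioo ⟨by linarith [Real.pi_pos], h2⟩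
  have hs : 0 ≤ Real.sin u.im := Real.sin_nonneg_of_nonneg_of_le_pi h1 (by linarith [Real.pi_pos])
  have hsh : 0 ≤ Real.sinh u.re := Real.sinh_nonneg_iff.2 h0
  have hch := Real.cosh_pos u.re
  rw [sq, mul_im, cosh_re', cosh_im']
  positivity

theorem PrS.ys_im (h : PrS θ θ' v w) : 0 ≤ (ys v w).im ∧ (ys v w).im ≤ 1 := by
  obtain ⟨u1, u2, u3, u4, u5⟩ := h.hv.u h.hθ
  obtain ⟨w1, w2, w3, w4, w5⟩ := h.hw.u h.hθ'
  have k1 := cosh_sq_re_ge u2 u4 u5
  have k2 := cosh_sq_re_ge w2 w4 w5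
  have i1 := cosh_sq_im_nonneg u1 u2 u4
  have i2 := cosh_sq_im_nonneg w1 w2 w4
  have h1 := cos_yy_sq h.qs.reg
  have hpi := Real.pi_pos
  obtain ⟨S, hS⟩ : ∃ S, S = cosh (uof v) ^ 2 + cosh (uof w) ^ 2 := ⟨_, rfl⟩
  rw [← hS] at h1
  have hS1 : 1 ≤ S.re := by rw [hS, add_re]; linarith
  have hS2 : 0 ≤ S.im := by rw [hS, add_im]; linarith
  obtain ⟨y, hy⟩ : ∃ y, y = ys v w := ⟨_, rfl⟩
  have hyr := h.ys_re
  have h1' : cos (Real.pi * y) ^ 2 * S = 1 := by rw [hy]; exact h1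
  rw [← hy] at hyr ⊢
  have hya : |y.re| < 1 / 2 := by rw [abs_of_pos hyr.1]; exact hyr.2
  constructor
  · by_contra hc
    push Not at hc
    -- the imaginary part of `cos² π y` is positive
    have p1 := cos_pi_pos hya
    have p2 := sin_pi_pos hyr.1 (by linarith [hyr.2])
    have p3 : Real.sinh (Real.pi * y.im) < 0 := Real.sinh_neg_iff.2 (mul_neg_of_pos_of_neg hpi hc)
    have p4 := Real.cosh_pos (Real.pi * y.im)
    have e : (cos (Real.pi * y) ^ 2).im = -(2 * (Real.sin (Real.pi * y.re) *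
        Real.cos (Real.pi * y.re) * (Real.sinh (Real.pi * y.im) * Real.cosh (Real.pi * y.im)))) := by
      rw [sq, mul_im, wcos_re, wcos_im, pi_mul_re, pi_mul_im]
      ring
    have q1 : 0 < (cos (Real.pi * y) ^ 2).im := by
      rw [e]
      have a1 : 0 < Real.sin (Real.pi * y.re) * Real.cos (Real.pi * y.re) := mul_pos p2 p1
      have a2 : Real.sinh (Real.pi * y.im) * Real.cosh (Real.pi * y.im) < 0 :=
        mul_neg_of_neg_of_pos p3 p4
      have := mul_neg_of_pos_of_neg a1 a2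
      linarith
    -- but `cos² π y = 1 / S`
    have hSn : S ≠ 0 := by
      intro h0
      rw [h0, mul_zero] at h1'
      exact zero_ne_one h1'
    have e2 : cos (Real.pi * y) ^ 2 = 1 / S := by
      rw [eq_div_iff hSn]; exact h1'
    rw [e2, one_div, inv_im] at q1
    have hn := normSq_pos.2 hSn
    have : -S.im / normSq S ≤ 0 := div_nonpos_of_nonpos_of_nonneg (by linarith) hn.le
    linarith
  · have h2 : 1 ≤ normSq S := by
      rw [normSq_apply]
      nlinarith [mul_self_nonneg S.im]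
    have h3 := congrArg normSq h1'
    rw [map_mul, map_pow, map_one] at h3
    by_contra hc
    push Not at hc
    have h4 : 1 < normSq (cos (Real.pi * y)) := by
      have e := nn_eq y.re y.im
      rw [re_add_im] at e
      rw [e, nn]
      have h5 : 1 < Real.sinh (Real.pi * y.im) ^ 2 := by
        have h6 : Real.pi * y.im ≤ Real.sinh (Real.pi * y.im) :=
          Real.self_le_sinh_iff.2 (by positivity)
        have h7 : Real.pi * 1 ≤ Real.pi * y.im := mul_le_mul_of_nonneg_left hc.le hpi.le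
        have h8 := Real.pi_gt_three
        have h9 : 1 < Real.sinh (Real.pi * y.im) := by linarith
        nlinarith
      have := sq_nonneg (Real.cos (Real.pi * y.re))
      linarith
    have h5 : 1 < normSq (cos (Real.pi * y)) ^ 2 := by nlinarith
    nlinarith

/-- The left vertical. -/
theorem PrS.left (h : PrS θ θ' v w) {Y : ℝ} (hY : Y ∈ Set.uIcc 0 (ys v w).im) :
    EE (.op v) (.op w) (((0 : ℝ) : ℂ) + Y * I) ≤
      max (Real.pi * (v.im + w.im))
        (EE (.op v) (.op w) (((0 : ℝ) : ℂ) + (ys v w).im * I)) := by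
  rw [Set.uIcc_of_le h.ys_im.1] at hY
  have a1 := h.hv.re1
  have a2 := h.hw.re1
  have := EE_left_le h.hv.re0 (by linarith) h.hw.re0 (by linarith) h.hv.im0 h.hw.im0 hY.1 hY.2
  rwa [EE_left_zero h.hv.im0 h.hw.im0] at this

theorem PrS.left_ok (h : PrS θ θ' v w) {L : ℝ} (hB : Real.pi * (v.im + w.im) < L)
    (hf : EE (.op v) (.op w) (((0 : ℝ) : ℂ) + (ys v w).im * I) < L) {Y : ℝ}
    (hY : Y ∈ Set.uIcc 0 (ys v w).im) : EE (.op v) (.op w) (((0 : ℝ) : ℂ) + Y * I) < L :=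
  (h.left hY).trans_lt (max_lt hB hf)

/-- The right vertical. -/
theorem PrS.right (h : PrS θ θ' v w) {Y : ℝ} (hY : Y ∈ Set.uIcc 0 (ys v w).im) :
    EE (.op v) (.op w) (((1 / 2 : ℝ) : ℂ) + Y * I) ≤
      EE (.op v) (.op w) (((1 / 2 : ℝ) : ℂ) + (ys v w).im * I) :=
  EE_right h.hv.re0 (by linarith [h.hv.re1]) h.hw.re0 (by linarith [h.hw.re1]) hY

/-- The polygon of a core pair: all values are less than `L` if this is true at `0` and at the
critical point. -/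
theorem PrS.poly (hΦ : IsPhi Φ) (h0 : Φ 0 0 = c00) (h : PrS θ θ' v w) (hF : FlatOKS v w) {L : ℝ}
    (hB : Real.pi * (v.im + w.im) < L) (hL : (Φ v w).re < L) :
    PolOn 1 (fun i => if i = 0 then 0 else 1 / 2) (fun _ => (ys v w).im)
      (fun y => EE (.op v) (.op w) y < L ∧ 0 ≤ y.re ∧ y.re ≤ 1 / 2) := by
  have hb := h.bridge hΦ h0
  have hf : ∀ t ∈ Set.Icc (0 : ℝ) (1 / 2),
      EE (.op v) (.op w) ((t : ℂ) + (ys v w).im * I) < L := fun t ht => by
    have := hF t ht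
    rw [hb] at this
    exact this.trans_lt hL
  apply pol_one
  · intro t ht
    exact ⟨hf t ht, by rw [line_re]; exact ht.1, by rw [line_re]; exact ht.2⟩
  · intro Y hY
    refine ⟨h.left_ok hB (hf 0 ⟨le_rfl, by norm_num⟩) hY, ?_, ?_⟩
    · rw [line_re]
    · rw [line_re]; norm_num
  · intro Y hY
    refine ⟨(h.right hY).trans_lt (hf (1 / 2) ⟨by norm_num, le_rfl⟩), ?_, ?_⟩
    · rw [line_re]; norm_num
    · rw [line_re]

/-- The polygon has height at most one. -/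
theorem PrS.pgn (h : PrS θ θ' v w) :
    Pgn 1 (fun i => if i = 0 then 0 else 1 / 2) (fun _ => (ys v w).im) :=
  pgn_one' (by rw [abs_of_nonneg h.ys_im.1]; exact h.ys_im.2)

/-- The estimate of the edge for a core pair. -/
theorem PrS.edgeOK (hΦ : IsPhi Φ) (h0 : Φ 0 0 = c00) (h : PrS θ θ' v w) (hF : FlatOKS v w)
    {L : ℝ} (hB : Real.pi * (v.im + w.im) < L)
    (hE : ∀ y ∈ Set.Icc (-(1 / 10) : ℝ) 0, EE (.op v) (.op w) y < L)
    (hL : (Φ v w).re < L) : EdgeOK (.op v) (.op w) L := by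
  refine ⟨?_, hE, 1, _, _, h.pgn, ?_⟩
  · have : B0 (.op v) + B0 (.op w) = Real.pi * (v.im + w.im) := by
      rw [B0, B0]; ring
    rw [this]
    exact hB
  · obtain ⟨g1, g2, g3, g4⟩ := h.poly hΦ h0 hF hB hL
    exact ⟨fun i hi x hx => (g1 i hi x hx).1, fun Y hY => (g2 Y hY).1,
      fun i hi Y hY => (g3 i hi Y hY).1, fun Y hY => (g4 Y hY).1⟩

/-- The estimate of the edge for the mirror images. -/
theorem PrS.edgeOK_mir (hΦ : IsPhi Φ) (h0 : Φ 0 0 = c00) (h : PrS θ θ' v w) (hF : FlatOKS v w)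
    {L : ℝ} (hB : Real.pi * (v.im + w.im) < L)
    (hE : ∀ y ∈ Set.Icc (-(1 / 10) : ℝ) 0, EE (.op v) (.op w) y < L)
    (hL : (Φ v w).re < L) : EdgeOK (.op (mir v)) (.op (mir w)) L :=
  (h.edgeOK hΦ h0 hF hB hE hL).mir_both

/-! ### The flat inequality -/

/-- The strict flat inequality for a pair. -/
theorem PrS.flat_lt (h : PrS θ θ' v w) (h1 : v.re ≤ 13 / 40) (h2 : w.re ≤ 13 / 40) {t : ℝ}
    (ht : 0 ≤ t) (ht' : t ≤ 1 / 2) (hne : t ≠ (ys v w).re) :
    EE (.op v) (.op w) ((t : ℂ) + (ys v w).im * I) < EE (.op v) (.op w) (ys v w) := by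
  obtain ⟨s1, s2⟩ := h.ys_re
  have k1 := (h.hv.kore h1).KA' h.hθ.tan'
  have k2 := (h.hw.kore h2).KA' h.hθ'.tan'
  have e := h.ys_eq
  rw [← re_add_im (ys v w)] at e
  have := EE_flat_lt s1 s2 ht ht' hne (h.hv.kore h1).cos_ne (h.hw.kore h2).cos_ne e
    (flatUV_of_KA k1 k2)
  rw [re_add_im] at this
  exact this

theorem PrS.flatOK (h : PrS θ θ' v w) (h1 : v.re ≤ 13 / 40) (h2 : w.re ≤ 13 / 40) :
    FlatOKS v w := by
  intro t ht
  by_cases hne : t = (ys v w).re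
  · rw [hne, re_add_im]
  · exact (h.flat_lt h1 h2 ht.1 ht.2 hne).le

/-! ### The critical pair -/

/-- The estimate of the edge at the critical pair. -/
theorem PrS.edgeC (hΦ : IsPhi Φ) (h0 : Φ 0 0 = c00) (h : PrS θ θ' v w)
    (hF : ∀ t ∈ Set.Icc (0 : ℝ) (1 / 2), t ≠ (ys v w).re →
      EE (.op v) (.op w) ((t : ℂ) + (ys v w).im * I) < EE (.op v) (.op w) (ys v w))
    (hB : Real.pi * (v.im + w.im) < (Φ v w).re)
    (hE : ∀ y ∈ Set.Icc (-(1 / 10) : ℝ) 0, EE (.op v) (.op w) y < (Φ v w).re) :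
    EdgeC (.op v) (.op w) (ys v w) (Φ v w).re := by
  have hb := h.bridge hΦ h0
  have hy := h.ys_re
  refine ⟨?_, hE, hb, 1, _, _, h.pgn, ?_, 0, one_pos, ?_, ?_, rfl⟩
  · have : B0 (.op v) + B0 (.op w) = Real.pi * (v.im + w.im) := by
      rw [B0, B0]; ring
    rw [this]
    exact hB
  · rw [hb] at hF
    apply pol_one
    · intro t ht
      by_cases hne : t = (ys v w).re
      · right
        rw [hne, re_add_im]
      · exact Or.inl (hF t ht hne)
    · intro Y hY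
      left
      exact h.left_ok hB (hF 0 ⟨le_rfl, by norm_num⟩ hy.1.ne) hY
    · intro Y hY
      left
      exact (h.right hY).trans_lt (hF (1 / 2) ⟨by norm_num, le_rfl⟩ hy.2.ne')
  · simpa using hy.1
  · simpa using hy.2

end

end Pool.Agent.MX
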