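import Pool.Agent.MX.S.EndC
import Pool.Agent.MX.S.Pair

/-!
# Edges with equal signs: the value at the ends

`π (im v + im w) < re Φ (v, w)` for two points of the first quadrant below the `u`-lines of height
at most `1 / 2` with real parts at most `13 / 40`.
-/

set_option autoImplicit false

namespace Pool.Agent.MX

open Complex Pool.Agent.S3
open Pool.Agent.H25.RK (gdv gdv_re_lt gdv_hasDerivAt)

section

variable {Φ : ℂ → ℂ → ℂ} {θ θ' : ℝ} {v w : ℂ}

/-- The height of the line over `R`. -/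
noncomputable def hS (R : ℝ) : ℝ := Real.arsinh (547 / 1000 * Real.cos R)

theorem sinh_hS (R : ℝ) : Real.sinh (hS R) = 547 / 1000 * Real.cos R := Real.sinh_arsinh _

theorem hS_nonneg {R : ℝ} (h : |R| < Real.pi / 2) : 0 ≤ hS R := by
  rw [← Real.sinh_nonneg_iff, sinh_hS]
  have := cos_pos' h
  positivity

theorem igd_hS {R : ℝ} (h : |R| < Real.pi / 2) :
    igd (UU R (hS R)) = UU (igd (UU R (hS R))).re tS := by
  have h1 := tan_igd_UU (η := hS R) h
  have hc := cos_pos' h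
  rw [sinh_hS, mul_div_cancel_right₀ _ hc.ne', ← tan_tS] at h1
  have h2 := abs_lt.1 (igd_im_lt (UU_re_lt (η := hS R) h))
  have h3 := abs_lt.1 tS_abs
  have h4 := Real.injOn_tan ⟨h2.1, h2.2⟩ ⟨h3.1, h3.2⟩ h1
  conv_lhs => rw [← UU_eta (igd (UU R (hS R))), h4]

theorem gd_hS {R : ℝ} (h : |R| < Real.pi / 2) :
    gd (UU (igd (UU R (hS R))).re tS) = UU R (hS R) := by
  rw [← igd_hS h, gd_igd (UU_re_lt h)]

/-- Pairs on the line, `R' ≤ R`. -/
theorem lines_pos (hΦ : IsPhi Φ) (h0 : Φ 0 0 = c00) {R R' : ℝ} (hR' : 0 ≤ R') (hRR : R' ≤ R)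
    (hR : R ≤ 13 / 40 * Real.pi) : hS R + hS R' < FP Φ (UU R (hS R)) (UU R' (hS R')) := by
  have hpi := Real.pi_pos
  have R0 := hR'.trans hRR
  have a : |R| < Real.pi / 2 := by rw [abs_of_nonneg R0]; linarith
  have a' : |R'| < Real.pi / 2 := by rw [abs_of_nonneg hR']; linarith
  have R10 : (0 : ℝ) ≤ 13 / 40 * Real.pi := by positivity
  have a1 : |13 / 40 * Real.pi| < Real.pi / 2 := by rw [abs_of_nonneg R10]; linarith
  have g := gd_hS a
  have g' := gd_hS a'
  have g1 := gd_hS a1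
  obtain ⟨x, hx⟩ : ∃ x, x = (igd (UU R (hS R))).re := ⟨_, rfl⟩
  obtain ⟨x', hx'⟩ : ∃ x, x = (igd (UU R' (hS R'))).re := ⟨_, rfl⟩
  obtain ⟨x1, hx1⟩ : ∃ x, x = (igd (UU (13 / 40 * Real.pi) (hS (13 / 40 * Real.pi)))).re :=
    ⟨_, rfl⟩
  rw [← hx] at g
  rw [← hx'] at g'
  rw [← hx1] at g1
  have x0' : 0 ≤ x' := by rw [hx']; exact igd_re_nonneg hR' (by linarith) _
  have mono : ∀ {p q : ℝ}, (gd (UU p tS)).re ≤ (gd (UU q tS)).re → p ≤ q := by
    intro p q h
    by_contra hc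
    push Not at hc
    have : (gd (UU q tS)).re < (gd (UU p tS)).re := gd_line_mono tS_abs hc
    linarith
  have k := lines_corner hΦ (x := x) (x' := x') (x1 := x1) x0'
    (mono (by rw [g, g', UU_re, UU_re]; exact hRR)) (by rw [g1, UU_re])
    (mono (by rw [g, g1, UU_re, UU_re]; exact hR))
  rw [g, g', g1, UU_im, UU_im, UU_im] at k
  have c := corner_lt hΦ h0 (R := 13 / 40 * Real.pi) (η := hS (13 / 40 * Real.pi)) rfl
    (hS_nonneg a1) (sinh_hS _)
  linarith

/-- Regularity of pairs below the line. -/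
theorem reg_below {R R' η η' : ℝ} (aR : |R| < Real.pi / 2) (aR' : |R'| < Real.pi / 2)
    (h0 : 0 ≤ η) (h0' : 0 ≤ η') (h1 : Real.sinh η ≤ 547 / 1000 * Real.cos R)
    (h1' : Real.sinh η' ≤ 547 / 1000 * Real.cos R') : Reg (igd (UU R η)) (igd (UU R' η')) := by
  have c := cos_pos' aR
  have c' := cos_pos' aR'
  have t1 := igd_im_lt_quarter (η := η) aR (by linarith)
  have t2 := igd_im_lt_quarter (η := η') aR' (by linarith)
  have t3 := igd_im_nonneg aR h0
  have t4 := igd_im_nonneg aR' h0'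
  unfold Reg
  rw [abs_of_nonneg t3, abs_of_nonneg t4]
  linarith

/-- Raising the first point to the line. -/
theorem raise_left (hΦ : IsPhi Φ) {R R' η η' : ℝ} (aR : |R| < Real.pi / 2)
    (aR' : |R'| < Real.pi / 2) (h0 : 0 ≤ η) (h0' : 0 ≤ η')
    (h1 : Real.sinh η ≤ 547 / 1000 * Real.cos R) (h1' : Real.sinh η' ≤ 547 / 1000 * Real.cos R') :
    FP Φ (UU R (hS R)) (UU R' η') - hS R ≤ FP Φ (UU R η) (UU R' η') - η := by
  have hle : η ≤ hS R := by rw [← Real.sinh_le_sinh, sinh_hS]; exact h1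
  rcases hle.eq_or_lt with h | h
  · rw [← h]
  · have r := reg_below aR aR' (hS_nonneg aR) h0' (sinh_hS R).le h1'
    have k := FP_up hΦ aR h0 h r
    rw [gd_igd (UU_re_lt aR')] at k
    exact k.le

/-- All pairs below the line. -/
theorem below_pos (hΦ : IsPhi Φ) (h0 : Φ 0 0 = c00) {R R' η η' : ℝ} (hR0 : 0 ≤ R)
    (hR : R ≤ 13 / 40 * Real.pi) (hR0' : 0 ≤ R') (hR' : R' ≤ 13 / 40 * Real.pi) (hη : 0 ≤ η)
    (hη' : 0 ≤ η') (h1 : Real.sinh η ≤ 547 / 1000 * Real.cos R)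
    (h1' : Real.sinh η' ≤ 547 / 1000 * Real.cos R') :
    η + η' < FP Φ (UU R η) (UU R' η') := by
  have hpi := Real.pi_pos
  have a : |R| < Real.pi / 2 := by rw [abs_of_nonneg hR0]; linarith
  have a' : |R'| < Real.pi / 2 := by rw [abs_of_nonneg hR0']; linarith
  have k1 := raise_left hΦ a a' hη hη' h1 h1'
  have k2 := raise_left hΦ.swap a' a hη' (hS_nonneg a) h1' (sinh_hS R).le
  have e1 : FP (fun v w => Φ w v) (UU R' (hS R')) (UU R (hS R)) =
      FP Φ (UU R (hS R)) (UU R' (hS R')) := rfl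
  have e2 : FP (fun v w => Φ w v) (UU R' η') (UU R (hS R)) = FP Φ (UU R (hS R)) (UU R' η') := rfl
  rw [e1, e2] at k2
  have k3 : hS R + hS R' < FP Φ (UU R (hS R)) (UU R' (hS R')) := by
    rcases le_total R' R with h | h
    · exact lines_pos hΦ h0 hR0' h hR
    · have k := lines_pos hΦ.swap h0 hR0 h hR'
      have e3 : FP (fun v w => Φ w v) (UU R' (hS R')) (UU R (hS R)) =
        FP Φ (UU R (hS R)) (UU R' (hS R')) := rfl
      rw [e3] at k
      linarith
  linarith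

private theorem ec_s3 {x : ℝ} (hx : 0 ≤ x) : x - x ^ 3 / 6 ≤ Real.sin x := by
  have h := LowA_pos (b := x) (f := fun x => Real.sin x - (x - x ^ 3 / 6))
    (f' := fun x => Real.cos x - (1 - x ^ 2 / 2))
    (fun x _ _ => by
      have h1 := (Real.hasDerivAt_sin x).sub ((hasDerivAt_id' x).sub ((hasDerivAt_pow 3 x).div_const 6))
      refine h1.congr_deriv ?_
      norm_num
      try ring)
    (by simp) (fun x hx _ => by linarith [Real.one_sub_sq_div_two_le_cos (x := x)]) hx le_rfl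
  linarith

private theorem ec_c4 {x : ℝ} (hx : 0 ≤ x) : Real.cos x ≤ 1 - x ^ 2 / 2 + x ^ 4 / 24 := by
  have h := LowA_pos (b := x) (f := fun x => 1 - x ^ 2 / 2 + x ^ 4 / 24 - Real.cos x)
    (f' := fun x => Real.sin x - (x - x ^ 3 / 6))
    (fun x _ _ => by
      have h1 := (((hasDerivAt_const x (1 : ℝ)).sub ((hasDerivAt_pow 2 x).div_const 2)).add
        ((hasDerivAt_pow 4 x).div_const 24)).sub (Real.hasDerivAt_cos x)
      refine h1.congr_deriv ?_
      norm_num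
      try ring)
    (by simp) (fun x hx _ => by linarith [ec_s3 hx]) hx le_rfl
  linarith

private theorem ec_s5 {x : ℝ} (hx : 0 ≤ x) : Real.sin x ≤ x - x ^ 3 / 6 + x ^ 5 / 120 := by
  have h := LowA_pos (b := x) (f := fun x => x - x ^ 3 / 6 + x ^ 5 / 120 - Real.sin x)
    (f' := fun x => 1 - x ^ 2 / 2 + x ^ 4 / 24 - Real.cos x)
    (fun x _ _ => by
      have h1 := (((hasDerivAt_id' x).sub ((hasDerivAt_pow 3 x).div_const 6)).add
        ((hasDerivAt_pow 5 x).div_const 120)).sub (Real.hasDerivAt_sin x)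
      refine h1.congr_deriv ?_
      norm_num
      try ring)
    (by simp) (fun x hx _ => by linarith [ec_c4 hx]) hx le_rfl
  linarith

private theorem ec_c6 {x : ℝ} (hx : 0 ≤ x) :
    1 - x ^ 2 / 2 + x ^ 4 / 24 - x ^ 6 / 720 ≤ Real.cos x := by
  have h := LowA_pos (b := x) (f := fun x => Real.cos x - (1 - x ^ 2 / 2 + x ^ 4 / 24 - x ^ 6 / 720))
    (f' := fun x => x - x ^ 3 / 6 + x ^ 5 / 120 - Real.sin x)
    (fun x _ _ => by
      have h1 := (Real.hasDerivAt_cos x).sub ((((hasDerivAt_const x (1 : ℝ)).sub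
        ((hasDerivAt_pow 2 x).div_const 2)).add
        ((hasDerivAt_pow 4 x).div_const 24)).sub ((hasDerivAt_pow 6 x).div_const 720))
      refine h1.congr_deriv ?_
      norm_num
      try ring)
    (by simp) (fun x hx _ => by linarith [ec_s5 hx]) hx le_rfl
  linarith

theorem tan_half_le : Real.tan (1 / 2) ≤ 547 / 1000 := by
  have hpi := Real.pi_gt_three
  have hc : 0 < Real.cos (1 / 2) := Real.cos_pos_of_mem_Ioo ⟨by linarith, by linarith⟩
  have h1 := ec_c6 (x := 1 / 2) (by norm_num)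
  have h2 := ec_s5 (x := 1 / 2) (by norm_num)
  rw [Real.tan_eq_sin_div_cos, div_le_iff₀ hc]
  norm_num at h1 h2 ⊢
  linarith

/-- **The value at the critical point exceeds the value at the ends.** -/
theorem PrS.end_lt (hΦ : IsPhi Φ) (h0 : Φ 0 0 = c00) (h : PrS θ θ' v w) (h1 : v.re ≤ 13 / 40)
    (h2 : w.re ≤ 13 / 40) : Real.pi * (v.im + w.im) < (Φ v w).re := by
  have hpi := Real.pi_pos
  have pc : (Real.pi : ℂ) ≠ 0 := by exact_mod_cast hpi.ne'
  have key : ∀ {θ : ℝ} {v : ℂ}, 0 < θ → θ ≤ 1 / 2 → Und θ v →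
      Real.sinh (Real.pi * v.im) ≤ 547 / 1000 * Real.cos (Real.pi * v.re) := by
    intro θ v t0 t1 hv
    have h1 : Real.sinh (Real.pi * v.im) ≤ Real.sinh (Real.pi * bl θ v.re) :=
      Real.sinh_le_sinh.2 (mul_le_mul_of_nonneg_left hv.im1 hpi.le)
    rw [sinh_pi_bl] at h1
    have h2 := hv.cos_ge
    have h3 : Real.tan θ ≤ 547 / 1000 := by
      have p3 := Real.pi_gt_three
      rcases t1.eq_or_lt with e | e
      · rw [e]; exact tan_half_le
      · exact (Real.tan_lt_tan_of_lt_of_lt_pi_div_two (by linarith) (by linarith) e).le.trans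
          tan_half_le
    nlinarith
  have a1 : Real.pi * v.re ≤ 13 / 40 * Real.pi := by nlinarith
  have a2 : Real.pi * w.re ≤ 13 / 40 * Real.pi := by nlinarith
  have k := below_pos hΦ h0 (mul_nonneg hpi.le h.hv.re0) a1 (mul_nonneg hpi.le h.hw.re0) a2
    (mul_nonneg hpi.le h.hv.im0) (mul_nonneg hpi.le h.hw.im0) (key h.hs.θ0 h.hs.θ1 h.hv)
    (key h.hs.θ0' h.hs.θ1' h.hw)
  rw [UU_pi, UU_pi, FP, mul_div_cancel_left₀ _ pc, mul_div_cancel_left₀ _ pc] at k
  linarith

end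

end Pool.Agent.MX
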