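import Pool.Agent.MX.S.Main

/-!
# Edges with equal signs: the mirror image
-/

set_option autoImplicit false

namespace Pool.Agent.MX

open Complex Pool.Agent.S3
open Pool.Agent.H25.RK (gdv gdv_re_lt gdv_hasDerivAt)

theorem EdgeC_mir_both {v w yc : ℂ} {L : ℝ} (H : EdgeC (.op v) (.op w) yc L) :
    EdgeC (.op (mir v)) (.op (mir w)) ((starRingEnd ℂ) yc) L := by
  obtain ⟨h1, h2, h0, n, t, h, h3, h4, i, hi, h5, h6, h7⟩ := H
  refine ⟨by rwa [B0_mir, B0_mir], fun y hy => ?_, by rw [EE_mir_mir]; exact h0, n, t,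
    fun i => -h i, h3.map (f := fun x => -x) (fun x => by rw [abs_neg]), ?_, i, hi,
    by rwa [conj_re], by rwa [conj_re], by rw [conj_im, h7]⟩
  · have e : EE (.op (mir v)) (.op (mir w)) y = EE (.op v) (.op w) y := by
      simp only [EE, se_mir_real]
    rw [e]
    exact h2 y hy
  · refine h4.map (f := fun x => -x) continuous_neg (by simp) (fun x Y hP => ?_)
    have e : (x : ℂ) + ((-Y : ℝ) : ℂ) * I = (starRingEnd ℂ) ((x : ℂ) + Y * I) := by
      rw [conj_line]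
    show EE (.op (mir v)) (.op (mir w)) ((x : ℂ) + ((-Y : ℝ) : ℂ) * I) < L ∨
      (x : ℂ) + ((-Y : ℝ) : ℂ) * I = (starRingEnd ℂ) yc
    rw [e, EE_mir_mir]
    rcases hP with hP | hP
    · exact Or.inl hP
    · exact Or.inr (by rw [hP])

section

variable {Φ : ℂ → ℂ → ℂ} {θ θ' xc xc' b b' a a' : ℝ} {v w : ℂ}

theorem OOS.far_pos (H : OOS Φ θ θ' xc xc' b b' a a') (hE : EndS Φ θ θ') (hR : ReflS Φ θ θ')
    (hv : v ∈ G0 θ (13 / 40)) (hw : w ∈ G0 θ' (13 / 40))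
    (hne : v ≠ mir (gdv (UU xc θ)) ∨ w ≠ mir (gdv (UU xc' θ'))) :
    EdgeOK (.op v) (.op w) (LLS θ θ' b b' xc xc' a a' (mir v) (mir w)) := by
  have k := (H.far hE hR (mir_mem hv) (mir_mem hw) ?_).mir_both
  · rwa [mir_mir, mir_mir] at k
  · rcases hne with h | h
    · exact Or.inl fun e => h (by rw [← e, mir_mir])
    · exact Or.inr fun e => h (by rw [← e, mir_mir])

theorem yy_mir {u w : ℂ} (h : Reg u w) :
    yy (-((starRingEnd ℂ) u)) (-((starRingEnd ℂ) w)) = (starRingEnd ℂ) (yy u w) := by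
  rw [yy_neg_left, yy_neg_right, yy_conj h]

theorem EE_crit_mir {u w : ℂ} (h : Reg u w) (v v' : ℂ) :
    EE (.op (mir v)) (.op (mir v')) (yy (-((starRingEnd ℂ) u)) (-((starRingEnd ℂ) w))) =
      EE (.op v) (.op v') (yy u w) := by
  rw [yy_mir h, EE_mir_mir]

theorem OOS.near_pos (H : OOS Φ θ θ' xc xc' b b' a a') (hE : EndS Φ θ θ') :
    EdgeC (.op (mir (gdv (UU xc θ)))) (.op (mir (gdv (UU xc' θ'))))
      (yy (-((starRingEnd ℂ) (UU xc θ))) (-((starRingEnd ℂ) (UU xc' θ'))))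
      (EE (.op (mir (gdv (UU xc θ)))) (.op (mir (gdv (UU xc' θ'))))
        (yy (-((starRingEnd ℂ) (UU xc θ))) (-((starRingEnd ℂ) (UU xc' θ'))))) := by
  have k := EdgeC_mir_both (H.near hE)
  rw [EE_crit_mir (H.ho.reg xc xc'), yy_mir (H.ho.reg xc xc')]
  exact k

end

end Pool.Agent.MX
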