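import Pool.Agent.MX.S.Vert2
import Pool.Agent.S3.W.Main
import Pool.Agent.S3.Es3

/-!
# Edges with equal signs: the estimates
-/

set_option autoImplicit false

namespace Pool.Agent.MX

open Complex Pool.Agent.S3
open Pool.Agent.H25.RK (gdv gdv_re_lt gdv_hasDerivAt)

/-- The inequality between the share of a vertex and the loss on its vertical. -/
def NB (θ xc b a : ℝ) : Prop :=
  5 / 8 * bl θ (13 / 40) < b * (2 * Real.pi * (13 / 40 - 1 / a) * bl θ (13 / 40) +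
    2 * Real.pi * ((13 / 40 - (gdv (UU xc θ)).re) * ((gdv (UU xc θ)).im - bl θ (13 / 40))))

/-- The data of an edge with equal signs (`v1 = 13/40`). -/
structure OOS (Φ : ℂ → ℂ → ℂ) (θ θ' xc xc' b b' a a' : ℝ) : Prop where
  hΦ : IsPhi Φ
  h0 : Φ 0 0 = c00
  ho : SamHyp θ θ'
  hs : SplitS θ θ' xc xc' b b'
  hc : 0 < xc
  hc' : 0 < xc'
  hr : (gdv (UU xc θ)).re < 13 / 40
  hr' : (gdv (UU xc' θ')).re < 13 / 40
  ha : 0 < a
  ha' : 0 < a'
  nb : NB θ xc b a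
  nb' : NB θ' xc' b' a'

/-- The bound of an edge (first quadrant coordinates). -/
noncomputable def LMS (Φ : ℂ → ℂ → ℂ) (θ θ' b b' xc xc' μ μ' : ℝ) (v w : ℂ) : ℝ :=
  L0S Φ θ θ' b b' xc xc' (pl θ (13 / 40) v) (pl θ' (13 / 40) w) -
    μ * ((pl θ (13 / 40) v).im - v.im) - μ' * ((pl θ' (13 / 40) w).im - w.im)

/-- The estimate at the ends. -/
def EndS (Φ : ℂ → ℂ → ℂ) (θ θ' : ℝ) : Prop := ∀ v w : ℂ, PrS θ θ' v w → v.re ≤ 13 / 40 →
  w.re ≤ 13 / 40 → Real.pi * (v.im + w.im) < (Φ v w).re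

/-- The reflection inequality. -/
def ReflS (Φ : ℂ → ℂ → ℂ) (θ θ' : ℝ) : Prop := ∀ v w : ℂ, PrS θ θ' v w → v.re ≤ 13 / 40 →
  w.re ≤ 13 / 40 →
  (Φ v ((starRingEnd ℂ) w)).re ≤ (Φ v w).re + 8 * Real.pi / 5 * (w.re * w.im) ∧
  (Φ v ((starRingEnd ℂ) w)).re ≤ (Φ v w).re + 8 * Real.pi / 5 * (v.re * v.im)

section

variable {Φ : ℂ → ℂ → ℂ} {θ θ' xc xc' b b' a a' : ℝ} {v w : ℂ}

theorem OOS.pr (H : OOS Φ θ θ' xc xc' b b' a a') (hv : v ∈ G0 θ (13 / 40)) (hv0 : 0 ≤ v.re)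
    (hw : w ∈ G0 θ' (13 / 40)) (hw0 : 0 ≤ w.re) : PrS θ θ' (cmp (13 / 40) v) (cmp (13 / 40) w) :=
  ⟨cmp_und V1_t hv hv0 H.ho.ht, cmp_und V1_t hw hw0 H.ho.symm.ht, H.ho⟩

/-- The loss is paid by the gain and the share. -/
theorem nb_pay (hθ : Ht θ) (hb : 0 < b) (hx : 0 < xc) (ha : 0 < a)
    (hr : (gdv (UU xc θ)).re < 13 / 40) (hn : NB θ xc b a) (h : Und θ v)
    (hv : v.re = 13 / 40) :
    5 / 8 * ((up θ v).im - v.im) <
      GGv θ b xc (up θ v) - mu b a (13 / 40) * ((up θ v).im - v.im) := by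
  have hpi := Real.pi_pos
  have l1 := line_im_bl (x := xc) hθ.abs
  have hu := line_und V1_t hθ hx.le hr.le
  have i1 := h.im1
  have i0 := h.im0
  rw [hv] at i1
  rw [up_im, hv]
  unfold NB at hn
  unfold GGv mu
  rw [up_re, up_im, hv]
  obtain ⟨B, hB⟩ : ∃ B, B = bl θ (13 / 40) := ⟨_, rfl⟩
  rw [← hB] at hn i1 ⊢
  obtain ⟨D, hD⟩ : ∃ D, D = (13 / 40 - (gdv (UU xc θ)).re) * ((gdv (UU xc θ)).im - B) := ⟨_, rfl⟩
  rw [← hD] at hn ⊢
  have hB0 : 0 < B := by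
    rw [hB]; exact blW_pos hθ.pos hθ.lt (by rw [abs_of_pos (by norm_num)]; norm_num)
  -- `im vc > B`
  have hD0 : 0 < D := by
    rw [hD]
    apply mul_pos (by linarith)
    rw [l1, hB]
    have : bl θ (13 / 40) < bl θ (gdv (UU xc θ)).re := by
      unfold bl
      apply div_lt_div_of_pos_right _ hpi
      rw [Real.arsinh_lt_arsinh]
      apply mul_lt_mul_of_pos_left _ (Real.tan_pos_of_pos_of_lt_pi_div_two hθ.pos hθ.lt)
      apply Real.cos_lt_cos_of_nonneg_of_le_pi (mul_nonneg hpi.le hu.re0) (by linarith)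
      exact mul_lt_mul_of_pos_left hr hpi
    linarith
  obtain ⟨M, hM⟩ : ∃ M, M = b / a * (2 * Real.pi * (1 - a * (13 / 40))) := ⟨_, rfl⟩
  rw [← hM]
  obtain ⟨t, ht⟩ : ∃ t, t = B - v.im := ⟨_, rfl⟩
  rw [← ht]
  have t0 : 0 ≤ t := by rw [ht]; linarith
  have t1 : t ≤ B := by rw [ht]; linarith
  have hbD : 0 < 2 * Real.pi * b * D := by positivity
  have hMe : b * (2 * Real.pi * (13 / 40 - 1 / a) * B + 2 * Real.pi * D) =
      -M * B + 2 * Real.pi * b * D := by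
    rw [hM]; field_simp; ring
  rw [hMe] at hn
  rcases le_or_gt (5 / 8 + M) 0 with h1 | h1
  · nlinarith
  · nlinarith

/-- The value of `Φ` is at most the bound. -/
theorem OOS.Phi_aux (H : OOS Φ θ θ' xc xc' b b' a a') (hv : v ∈ G0 θ (13 / 40))
    (hv0 : 0 ≤ v.re) (hw : w ∈ G0 θ' (13 / 40)) (hw0 : 0 ≤ w.re) :
    (Φ (cmp (13 / 40) v) (cmp (13 / 40) w)).re ≤
      LMS Φ θ θ' b b' xc xc' (mu b a (13 / 40)) (mu b' a' (13 / 40)) v w ∧
    (v ≠ gdv (UU xc θ) ∨ w ≠ gdv (UU xc' θ') → (Φ (cmp (13 / 40) v) (cmp (13 / 40) w)).re <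
      LMS Φ θ θ' b b' xc xc' (mu b a (13 / 40)) (mu b' a' (13 / 40)) v w) := by
  have hp := H.pr hv hv0 hw hw0
  have hd := hp.D_le (b := b) (b' := b') H.hΦ H.hc H.hc'
  have hd2 := hp.D_lt H.hΦ H.hs H.hc H.hc'
  have hp2 : PrS θ θ' (up θ (cmp (13 / 40) v)) (cmp (13 / 40) w) :=
    ⟨hp.hv.up hp.hθ, hp.hw, hp.hs⟩
  -- the first vertex
  have A : (Φ (cmp (13 / 40) v) (cmp (13 / 40) w)).re < (Φ (up θ (cmp (13 / 40) v))
      (cmp (13 / 40) w)).re + (GGv θ b xc (up θ (cmp (13 / 40) v)) -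
        mu b a (13 / 40) * ((up θ (cmp (13 / 40) v)).im - v.im)) ∨
      (up θ (cmp (13 / 40) v) = cmp (13 / 40) v ∧
        (up θ (cmp (13 / 40) v)).im - v.im = 0) := by
    rcases cmp_cases hv hv0 with h | h
    · left
      have k1 := hp.loss H.hΦ h
      have k2 := nb_pay hp.hθ H.hs.b0 H.hc H.ha H.hr H.nb hp.hv h
      rw [cmp_im hv hv0] at k1 k2
      linarith
    · right
      refine ⟨up_self h, ?_⟩
      rw [up_self h, cmp_im hv hv0, sub_self]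
  have B : (Φ (up θ (cmp (13 / 40) v)) (cmp (13 / 40) w)).re < (Φ (up θ (cmp (13 / 40) v))
      (up θ' (cmp (13 / 40) w))).re + (GGv θ' b' xc' (up θ' (cmp (13 / 40) w)) -
        mu b' a' (13 / 40) * ((up θ' (cmp (13 / 40) w)).im - w.im)) ∨
      (up θ' (cmp (13 / 40) w) = cmp (13 / 40) w ∧
        (up θ' (cmp (13 / 40) w)).im - w.im = 0) := by
    rcases cmp_cases hw hw0 with h | h
    · left
      have k1 := hp2.loss' H.hΦ h
      have k2 := nb_pay hp.hθ' H.hs.symm.b0 H.hc' H.ha' H.hr' H.nb' hp.hw h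
      rw [cmp_im hw hw0] at k1 k2
      linarith
    · right
      refine ⟨up_self h, ?_⟩
      rw [up_self h, cmp_im hw hw0, sub_self]
  have G1 := GGv_nonneg (v := up θ (cmp (13 / 40) v)) hp.hθ H.hs.b0.le H.hc.le H.hr
    (by rw [up_re]; exact hp.hv.re0) (by rw [up_re]; linarith [hp.hv.re1]) (by rw [up_im, up_re])
  have G2 := GGv_nonneg (v := up θ' (cmp (13 / 40) w)) hp.hθ' H.hs.symm.b0.le H.hc'.le H.hr'
    (by rw [up_re]; exact hp.hw.re0) (by rw [up_re]; linarith [hp.hw.re1]) (by rw [up_im, up_re])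
  have hn : v ≠ gdv (UU xc θ) ∨ w ≠ gdv (UU xc' θ') →
      up θ (cmp (13 / 40) v) ≠ gdv (UU xc θ) ∨ up θ' (cmp (13 / 40) w) ≠ gdv (UU xc' θ') := by
    intro hne
    rw [up_cmp V1_t hv0, up_cmp V1_t hw0]
    rcases hne with h | h
    · exact Or.inl fun he => h (pl_eq_crit V1_t H.hr hv hv0 he)
    · exact Or.inr fun he => h (pl_eq_crit V1_t H.hr' hw hw0 he)
  rw [LMS, ← up_cmp V1_t hv0, ← up_cmp V1_t hw0]
  rcases A with A | ⟨A, A'⟩ <;> rcases B with B | ⟨B, B'⟩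
  · exact ⟨by linarith, fun _ => by linarith⟩
  · rw [B', mul_zero, sub_zero]
    rw [B] at hd G2 ⊢
    exact ⟨by linarith, fun _ => by linarith⟩
  · rw [A', mul_zero, sub_zero]
    rw [A] at hd G1 B ⊢
    exact ⟨by linarith, fun _ => by linarith⟩
  · rw [A', B', mul_zero, sub_zero, mul_zero, sub_zero]
    refine ⟨?_, fun hne => ?_⟩
    · rw [A, B] at hd ⊢
      rw [A] at G1
      rw [B] at G2
      linarith
    · have := hd2 (hn hne)
      rwa [A, B] at this ⊢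

theorem OOS.Phi_le (H : OOS Φ θ θ' xc xc' b b' a a') (hv : v ∈ G0 θ (13 / 40))
    (hv0 : 0 ≤ v.re) (hw : w ∈ G0 θ' (13 / 40)) (hw0 : 0 ≤ w.re) :
    (Φ (cmp (13 / 40) v) (cmp (13 / 40) w)).re ≤
      LMS Φ θ θ' b b' xc xc' (mu b a (13 / 40)) (mu b' a' (13 / 40)) v w :=
  (H.Phi_aux hv hv0 hw hw0).1

end

end Pool.Agent.MX
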