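import Pool.Agent.MX.S.ReflB
import Pool.Agent.MX.S.Far

/-!
# Edges with equal signs: the reflection lemma
-/

set_option autoImplicit false

namespace Pool.Agent.MX

open Complex Pool.Agent.S3
open Pool.Agent.H25.RK (gdv gdv_re_lt gdv_hasDerivAt)

theorem Reg_half {u w : ℂ} (h1 : |u.im| ≤ 1 / 2) (h2 : |w.im| ≤ 1 / 2) : Reg u w := by
  unfold Reg
  linarith [Real.pi_gt_three]

theorem qq_continuous_right {w : ℂ} {x τ : ℝ} (hr : Reg w (UU x τ)) :
    ContinuousAt (fun τ : ℝ => qq w (UU x τ)) τ := by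
  have hc := cosh_ne hr.right
  have h1 := (hasDerivAt_arsh (slit hr)).continuousAt
  have h2 : ContinuousAt (fun τ : ℝ => sinh w / cosh (UU x τ)) τ := by
    have h3 : ContinuousAt (fun τ : ℝ => cosh (UU x τ)) τ :=
      ContinuousAt.comp (f := fun τ : ℝ => UU x τ) Complex.continuous_cosh.continuousAt
        (hasDerivAt_UU' x τ).continuousAt
    exact continuousAt_const.div h3 hc
  exact ContinuousAt.comp (f := fun τ : ℝ => sinh w / cosh (UU x τ)) h1 h2

/-- The sum of the slopes at conjugate points. -/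
theorem refl_J {x θ y t : ℝ} (hθ0 : 0 ≤ θ) (hθ1 : θ ≤ 1 / 2) (ht : |t| ≤ 1 / 2)
    (hy : 0 ≤ y) (hR : (gd (UU y t)).re ≤ 13 * Real.pi / 40) :
    -(4 * (gd (UU y t)).re / 5) ≤ (qq (UU y t) (UU x θ)).im
      + (qq ((starRingEnd ℂ) (UU y t)) (UU x θ)).im := by
  have hpi := Real.pi_gt_three
  have ht' : |t| < Real.pi / 2 := by linarith
  have aθ : |θ| ≤ 1 / 2 := by rw [abs_of_nonneg hθ0]; exact hθ1
  rcases hy.eq_or_lt with h | h
  · rw [← h, gd_re_zero ht']
    have hr : Reg (UU 0 t) (UU x θ) := Reg_half (by simpa using ht) (by simpa using aθ)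
    have e : (starRingEnd ℂ) (UU 0 t) = -(UU 0 t) := by rw [UU_conj, UU_neg, neg_zero]
    rw [e, qq_neg_left hr, neg_im]
    simp
  by_contra hc
  push Not at hc
  have hR0 : 0 < (gd (UU y t)).re := gd_re_pos h ht'
  obtain ⟨f, hf⟩ : ∃ f : ℝ → ℝ, f = fun τ => -((qq (UU y t) (UU x τ)).im
      + (qq ((starRingEnd ℂ) (UU y t)) (UU x τ)).im) := ⟨_, rfl⟩
  have hreg : ∀ τ : ℝ, 0 ≤ τ → τ ≤ θ → Reg (UU y t) (UU x τ) := fun τ h1 h2 =>
    Reg_half (by simpa using ht) (by rw [UU_im, abs_of_nonneg h1]; linarith)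
  have hreg2 : ∀ τ : ℝ, 0 ≤ τ → τ ≤ θ → Reg ((starRingEnd ℂ) (UU y t)) (UU x τ) :=
    fun τ h1 h2 => (hreg τ h1 h2).conj_left
  have hcont : ContinuousOn f (Set.Icc 0 θ) := by
    intro τ hτ
    apply ContinuousAt.continuousWithinAt
    rw [hf]
    apply ContinuousAt.neg
    apply ContinuousAt.add
    · exact Complex.continuous_im.continuousAt.comp (qq_continuous_right (hreg τ hτ.1 hτ.2))
    · exact Complex.continuous_im.continuousAt.comp (qq_continuous_right (hreg2 τ hτ.1 hτ.2))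
  have f0 : f 0 = 0 := by
    have hr := hreg 0 le_rfl hθ0
    have h1 := qq_conj hr
    have h2 : (starRingEnd ℂ) (UU x 0) = UU x 0 := by rw [UU_conj, neg_zero]
    rw [h2] at h1
    rw [hf]
    simp only
    rw [h1, conj_im]; ring
  have f1 : 4 * (gd (UU y t)).re / 5 < f θ := by
    rw [hf]; simp only; linarith
  obtain ⟨τ, hτ, hfτ⟩ := intermediate_value_Icc hθ0 hcont (show 4 * (gd (UU y t)).re / 5
    ∈ Set.Icc (f 0) (f θ) from ⟨by rw [f0]; positivity, f1.le⟩)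
  have hr := hreg τ hτ.1 hτ.2
  have hr2 := hreg2 τ hτ.1 hτ.2
  refine level (u := UU x τ) (w := UU y t) (q1 := qq (UU y t) (UU x τ))
    (q2 := qq ((starRingEnd ℂ) (UU y t)) (UU x τ)) (R := (gd (UU y t)).re) ?_ rfl ht h rfl hR ?_ ?_ ?_
  · rw [UU_im, abs_of_nonneg hτ.1]; linarith [hτ.2]
  · exact sinh_arsh _
  · exact sinh_arsh _
  · rw [← hfτ, hf]; simp only; ring

/-- The reflection inequality for `Φ`, in the coordinates `u`. -/
theorem Phi_reflS {Φ : ℂ → ℂ → ℂ} (hΦ : IsPhi Φ) {x θ y t : ℝ} (hθ0 : 0 ≤ θ) (hθ1 : θ ≤ 1 / 2)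
    (ht0 : 0 ≤ t) (ht1 : t ≤ 1 / 2) (hy : 0 ≤ y) (hY0 : 0 ≤ (gd (UU y t)).im)
    (hR : (gd (UU y t)).re ≤ 13 * Real.pi / 40) :
    (Φ (gd (UU x θ) / (Real.pi : ℂ)) (gd (UU y (-t)) / (Real.pi : ℂ))).re
      ≤ (Φ (gd (UU x θ) / (Real.pi : ℂ)) (gd (UU y t) / (Real.pi : ℂ))).re
        + 8 / (5 * Real.pi) * ((gd (UU y t)).re * (gd (UU y t)).im) := by
  have hpi := Real.pi_gt_three
  have aθ : |θ| ≤ 1 / 2 := by rw [abs_of_nonneg hθ0]; exact hθ1
  have at' : |t| < Real.pi / 2 := by rw [abs_of_nonneg ht0]; linarith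
  have at2 : |(UU y t).im| < Real.pi / 2 := by simpa using at'
  set R := (gd (UU y t)).re with hRd
  set Y := (gd (UU y t)).im with hYd
  have e1 : igd (UU R Y) = UU y t := by
    rw [hRd, hYd, UU_eta, igd_gd at2]
  have hR1 : |R| < Real.pi / 2 := gd_re_lt at2
  have hR2 : R < Real.pi / 2 := lt_of_le_of_lt (le_abs_self R) hR1
  have hR0 : 0 ≤ R := by
    rcases hy.eq_or_lt with h | h
    · rw [hRd, ← h, gd_re_zero at']
    · exact (gd_re_pos h at').le
  have econj : ∀ s, igd (UU R (-s)) = (starRingEnd ℂ) (igd (UU R s)) := by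
    intro s
    rw [← igd_conj (by simpa using hR1), UU_conj]
  have e2 : igd (UU R (-Y)) = UU y (-t) := by rw [econj, e1, UU_conj]
  have mono := igd_im_mono hR1
  have him : ∀ s, -Y ≤ s → s ≤ Y → |(igd (UU R s)).im| ≤ 1 / 2 := by
    intro s h1 h2
    have m1 := mono.monotone h1
    have m2 := mono.monotone h2
    simp only [e1, e2, UU_im] at m1 m2
    rw [abs_le]; constructor <;> linarith
  have hreg : ∀ s, -Y ≤ s → s ≤ Y → Reg (UU x θ) (igd (UU R s)) := by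
    intro s h1 h2
    exact Reg_half (by simpa using aθ) (him s h1 h2)
  have hd : ∀ s, -Y ≤ s → s ≤ Y → HasDerivAt (fun s : ℝ =>
      (Φ (gd (UU x θ) / (Real.pi : ℂ)) (gd (igd (UU R s)) / (Real.pi : ℂ))).re)
      (2 / Real.pi * (qq (igd (UU R s)) (UU x θ)).im) s := by
    intro s h1 h2
    have hr := hreg s h1 h2
    have := hasDerivAt_re (hΦ.deriv (fun _ => UU x θ) (fun s => igd (UU R s)) 0 _ s hr
      (hasDerivAt_const s _) (hasDerivAt_igd_line hR1 s))
    refine HasDerivAt.congr_deriv this ?_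
    have hc := cosh_ne hr.right
    have hpi : (Real.pi : ℂ) ≠ 0 := by exact_mod_cast Real.pi_ne_zero
    have e : (-2 * qq (UU x θ) (igd (UU R s)) * 0 / ((Real.pi : ℂ) * cosh (UU x θ))
        - 2 * qq (igd (UU R s)) (UU x θ) * (I * cosh (igd (UU R s))) /
        ((Real.pi : ℂ) * cosh (igd (UU R s)))) =
        ((2 / Real.pi : ℝ) : ℂ) * (-I * qq (igd (UU R s)) (UU x θ)) := by
      push_cast
      field_simp
      ring
    rw [e, re_ofReal_mul]
    congr 1
    rw [mul_re, neg_re, neg_im, I_re, I_im]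
    ring
  set G : ℝ → ℝ := fun s =>
    (Φ (gd (UU x θ) / (Real.pi : ℂ)) (gd (igd (UU R s)) / (Real.pi : ℂ))).re
    - (Φ (gd (UU x θ) / (Real.pi : ℂ)) (gd (igd (UU R (-s))) / (Real.pi : ℂ))).re
    + 8 / (5 * Real.pi) * R * s with hG
  have hGd : ∀ s, -Y ≤ s → s ≤ Y → HasDerivAt G
      (2 / Real.pi * ((qq (igd (UU R s)) (UU x θ)).im
        + (qq (igd (UU R (-s))) (UU x θ)).im) + 8 / (5 * Real.pi) * R) s := by
    intro s h1 h2
    have d1 := hd s h1 h2
    have d2 := hd (-s) (by linarith) (by linarith)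
    have d3 := HasDerivAt.scomp (g₁ := fun s : ℝ =>
      (Φ (gd (UU x θ) / (Real.pi : ℂ)) (gd (igd (UU R s)) / (Real.pi : ℂ))).re)
      (h := fun s : ℝ => -s) s d2 (hasDerivAt_neg s)
    have d4 := (hasDerivAt_id s).const_mul (8 / (5 * Real.pi) * R)
    refine ((d1.sub d3).add d4).congr_deriv ?_
    rw [smul_eq_mul]; ring
  have hm : MonotoneOn G (Set.Icc 0 Y) := by
    apply monotoneOn_of_deriv_nonneg (convex_Icc _ _)
    · intro s hs
      exact (hGd s (by linarith [hs.1]) hs.2).continuousAt.continuousWithinAt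
    · intro s hs
      rw [interior_Icc] at hs
      exact (hGd s (by linarith [hs.1]) hs.2.le).differentiableAt.differentiableWithinAt
    · intro s hs
      rw [interior_Icc] at hs
      rw [(hGd s (by linarith [hs.1]) hs.2.le).deriv]
      have t1 := him s (by linarith [hs.1]) hs.2.le
      have t3 := igd_re_nonneg hR0 hR2 s
      have hRs : |(UU R s).re| < Real.pi / 2 := by simpa using hR1
      have t5 : gd (UU (igd (UU R s)).re (igd (UU R s)).im) = UU R s := by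
        rw [UU_eta, gd_igd hRs]
      have t4 := refl_J (x := x) hθ0 hθ1 t1 t3 (by rw [t5, UU_re]; exact hR)
      rw [t5, UU_eta, UU_re] at t4
      rw [econj]
      have k := mul_le_mul_of_nonneg_left t4 (show 0 ≤ 2 / Real.pi by positivity)
      have k2 : 2 / Real.pi * -(4 * R / 5) = -(8 / (5 * Real.pi) * R) := by
        field_simp; ring
      rw [k2] at k
      linarith
  have h1 := hm (a := 0) (b := Y) ⟨le_rfl, hY0⟩ ⟨hY0, le_rfl⟩ hY0
  have h2 : G 0 = 0 := by simp [hG]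
  rw [h2] at h1
  simp only [hG] at h1
  rw [e1, e2] at h1
  have h3 : 8 / (5 * Real.pi) * R * Y = 8 / (5 * Real.pi) * (R * Y) := by ring
  rw [h3] at h1
  linarith

section

variable {θ θ' : ℝ} {v w : ℂ} {Φ : ℂ → ℂ → ℂ}

/-- The reflection inequality. -/
theorem PrS.refl_right (hΦ : IsPhi Φ) (h : PrS θ θ' v w) (h2 : w.re ≤ 13 / 40) :
    (Φ v ((starRingEnd ℂ) w)).re ≤ (Φ v w).re + 8 * Real.pi / 5 * (w.re * w.im) := by
  have hpi := Real.pi_gt_three
  have hpi0 : (Real.pi : ℂ) ≠ 0 := by exact_mod_cast Real.pi_ne_zero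
  obtain ⟨u1, u2, u3, u4, u5⟩ := h.hv.u h.hθ
  obtain ⟨w1, w2, w3, w4, w5⟩ := h.hw.u h.hθ'
  have hu := uof_im_lt h.hv.abs
  have hw := uof_im_lt h.hw.abs
  have ev : gd (UU (uof v).re (uof v).im) = Real.pi * v := by
    rw [UU_eta, gd_eq hu, gdv_uof h.hv.abs]
  have ew : gd (UU (uof w).re (uof w).im) = Real.pi * w := by
    rw [UU_eta, gd_eq hw, gdv_uof h.hw.abs]
  have ew' : gd (UU (uof w).re (-(uof w).im)) = Real.pi * (starRingEnd ℂ) w := by
    rw [← UU_conj, UU_eta, gd_conj hw, gd_eq hw, gdv_uof h.hw.abs, map_mul, conj_ofReal]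
  have k := Phi_reflS hΦ (x := (uof v).re) (θ := (uof v).im) (y := (uof w).re) (t := (uof w).im)
    u2 (by linarith [h.hs.θ1]) w2 (by linarith [h.hs.θ1']) w1
    (by rw [ew, im_ofReal_mul]; exact mul_nonneg (by linarith) h.hw.im0)
    (by rw [ew, re_ofReal_mul]; nlinarith)
  rw [ev, ew, ew', mul_div_cancel_left₀ _ hpi0, mul_div_cancel_left₀ _ hpi0,
    mul_div_cancel_left₀ _ hpi0, im_ofReal_mul, re_ofReal_mul] at k
  have e : 8 / (5 * Real.pi) * (Real.pi * w.re * (Real.pi * w.im))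
      = 8 * Real.pi / 5 * (w.re * w.im) := by
    field_simp
  rwa [e] at k

/-- The real part of `Φ` is symmetric under conjugation. -/
theorem PrS.conj_eq (hΦ : IsPhi Φ) (h : PrS θ θ' v w) :
    (Φ ((starRingEnd ℂ) v) w).re = (Φ v ((starRingEnd ℂ) w)).re := by
  have hpi0 : (Real.pi : ℂ) ≠ 0 := by exact_mod_cast Real.pi_ne_zero
  obtain ⟨u1, u2, u3, u4, u5⟩ := h.hv.u h.hθ
  obtain ⟨w1, w2, w3, w4, w5⟩ := h.hw.u h.hθ'
  have hu := uof_im_lt h.hv.abs
  have hw := uof_im_lt h.hw.abs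
  have ev : gd (uof v) = Real.pi * v := by rw [gd_eq hu, gdv_uof h.hv.abs]
  have ew : gd (uof w) = Real.pi * w := by rw [gd_eq hw, gdv_uof h.hw.abs]
  have ev' : gd ((starRingEnd ℂ) (uof v)) = Real.pi * (starRingEnd ℂ) v := by
    rw [gd_conj hu, ev, map_mul, conj_ofReal]
  have ew' : gd ((starRingEnd ℂ) (uof w)) = Real.pi * (starRingEnd ℂ) w := by
    rw [gd_conj hw, ew, map_mul, conj_ofReal]
  have hr : Reg (uof v) ((starRingEnd ℂ) (uof w)) := by
    apply Reg_half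
    · rw [abs_of_nonneg u2]; linarith [h.hs.θ1]
    · rw [conj_im, abs_neg, abs_of_nonneg w2]; linarith [h.hs.θ1']
  have k := hΦ.conj _ _ hr
  rw [conj_conj, ev, ev', ew, ew', mul_div_cancel_left₀ _ hpi0, mul_div_cancel_left₀ _ hpi0,
    mul_div_cancel_left₀ _ hpi0, mul_div_cancel_left₀ _ hpi0] at k
  exact k

theorem PrS.refl_left (hΦ : IsPhi Φ) (h : PrS θ θ' v w) (h1 : v.re ≤ 13 / 40) :
    (Φ v ((starRingEnd ℂ) w)).re ≤ (Φ v w).re + 8 * Real.pi / 5 * (v.re * v.im) := by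
  rw [← h.conj_eq hΦ]
  exact h.symm.refl_right hΦ.swap h1

theorem reflS (hΦ : IsPhi Φ) : ReflS Φ θ θ' := fun _ _ h h1 h2 =>
  ⟨h.refl_right hΦ h2, h.refl_left hΦ h1⟩

end

end Pool.Agent.MX
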