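import Pool.Agent.H25.RK.DGI
import Pool.Agent.H63.GO.MTaylor
import Pool.Agent.H63.VC.Asym
import Pool.Agent.H63.VC.EndB
import Pool.Agent.H63.VC.Riem
import Pool.Agent.H63.VC.SlowL
import Pool.Agent.H63.VC.SlowU
import Pool.Agent.H63.VC3.CritB
import Pool.Agent.H63.VC3.Upper
import Pool.Agent.H63.VC4.GaussN
import Pool.Agent.H63.VC4.KBN
import Pool.Agent.H63.VC4.LaplaceN
import Pool.Agent.H63.VC4.UpperN
import Pool.Agent.H63.VC5.Defs
import Pool.Agent.H63.VC6.LocU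
import Pool.Agent.H63.VC6.SlotU
import Pool.Agent.H63.VC7.Link
import Pool.Agent.MX.S.Mono
import Pool.Agent.S3.Asm.Def
import Pool.Agent.S3.Chain
import Pool.Agent.S3.CritE
import Pool.Agent.S3.E.Crit
import Pool.Agent.S3.E.Geo
import Pool.Agent.S3.E.Sl
import Pool.Agent.S3.E.Two

/-!
# Edges with equal signs: the critical point

`u = UU xc θ`, `w = UU xc' θ'` in the first quadrant, `0 < θ, θ' ≤ 1/2`. `good_same`: the branches;
`qfS_neg`: the quadratic form; `k4_same`: the second derivative in `y`; `ecrit_same`: the critical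
point at the edge; `ECrit.mirror`: the mirror image.
-/

set_option autoImplicit false

namespace Pool.Agent.MX

open Complex Pool.Agent.S3
open Pool.Agent.H25.RK (gdv gdv_re_lt gdv_hasDerivAt)

section

variable {θ θ' xc xc' b b' : ℝ}

theorem SamHyp.Lc1 (h : SamHyp θ θ') (hc : 0 ≤ xc) :
    0 ≤ (Lc (UU xc θ)).im ∧ (Lc (UU xc θ)).im ≤ θ := by
  rw [Lc_UU h.abs]
  exact ⟨aa_nonneg hc h.θ0.le h.lt, aa_le_self xc h.θ0.le h.lt⟩

/-- The branches at an edge with equal signs are principal. -/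
theorem good_same (h : SamHyp θ θ') (hc : 0 ≤ xc) (hc' : 0 ≤ xc') :
    Good (UU xc θ) (UU xc' θ') := by
  have hpi := Real.pi_gt_three
  have hr := h.reg xc xc'
  have c1 := h.Lc1 hc
  have c2 := h.symm.Lc1 hc'
  have t1 := h.θ1
  have t2 := h.θ1'
  have q1 := abs_lt.1 (arsh_im_lt (slit hr))
  change -(Real.pi / 2) < (qq (UU xc θ) (UU xc' θ')).im ∧
    (qq (UU xc θ) (UU xc' θ')).im < Real.pi / 2 at q1
  have hg : -(1 / 2) ≤ (lcy (UU xc θ) (UU xc' θ')).im ∧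
      (lcy (UU xc θ) (UU xc' θ')).im ≤ 0 := by
    rcases le_total (Lc (UU xc' θ')).im (Lc (UU xc θ)).im with hle | hle
    · have g := neg_lcy_le hr hle
      constructor <;> linarith [g.1, g.2]
    · have g := neg_lcy_le hr.symm hle
      rw [lcy_comm] at g
      constructor <;> linarith [g.1, g.2]
  have em : (Lm (UU xc θ) (UU xc' θ')).im = (lcy (UU xc θ) (UU xc' θ')).im +
      (Lc (UU xc' θ')).im - (Lc (UU xc θ)).im - (qq (UU xc θ) (UU xc' θ')).im := by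
    rw [Lm]; simp only [add_im, sub_im, ofReal_im, zero_add]
  have ep : (Lp (UU xc θ) (UU xc' θ')).im = (lcy (UU xc θ) (UU xc' θ')).im +
      (Lc (UU xc' θ')).im - (Lc (UU xc θ)).im + (qq (UU xc θ) (UU xc' θ')).im := by
    rw [Lp]; simp only [add_im, sub_im, ofReal_im, zero_add]
  constructor
  · rw [em, abs_lt]; constructor <;> linarith [q1.1, q1.2, hg.1, hg.2]
  · rw [ep, abs_lt]; constructor <;> linarith [q1.1, q1.2, hg.1, hg.2]

theorem one_sub_div_TTS (h : SamHyp θ θ') (ρ x x' : ℝ) :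
    ((1 - ρ * (tanh (UU x θ) * tanh (UU x' θ'))) / TT (UU x θ) (UU x' θ')).re
      = Real.exp (-(Lc (UU x θ)).re) *
        (DD ρ (UU x θ) (UU x' θ') * exp (-((aa x θ : ℂ) * I))).re := by
  have aθ : |θ| < Real.pi / 2 := h.abs
  have aθ' : |(UU x θ).im| < Real.pi / 2 := by simpa using aθ
  have hr := h.reg x x'
  have i4 : (Lc (UU x θ)).im = aa x θ := Lc_UU aθ
  have hu := cosh_ne hr.left
  have hw := cosh_ne hr.right
  have e0 : (1 - ρ * (tanh (UU x θ) * tanh (UU x' θ'))) / TT (UU x θ) (UU x' θ')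
      = DD ρ (UU x θ) (UU x' θ') / cosh (UU x θ) := by
    have hT := TT_ne (UU x θ) (UU x' θ')
    rw [DD, tanh_eq_sinh_div_cosh, tanh_eq_sinh_div_cosh]
    field_simp
  rw [e0, ← re_ofReal_mul, ofReal_exp, div_eq_mul_inv, ← exp_Lc aθ', ← exp_neg]
  congr 1
  have e : -Lc (UU x θ) = (-(Lc (UU x θ)).re : ℝ) + -((aa x θ : ℂ) * I) := by
    rw [← i4]
    apply Complex.ext <;> simp
  conv_lhs => rw [e, exp_add]
  push_cast
  ring

/-- `|Re (tanh u tanh w / T)| ≤ Re (1 / T)` at the critical point -/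
theorem dom_TTS (h : SamHyp θ θ') (hc : 0 ≤ xc) (hc' : 0 ≤ xc') :
    |(tanh (UU xc θ) * tanh (UU xc' θ') / TT (UU xc θ) (UU xc' θ')).re|
      ≤ (1 / TT (UU xc θ) (UU xc' θ')).re := by
  have a0 := aa_nonneg hc h.θ0.le h.lt
  have a1 := aa_le_self xc h.θ0.le h.lt
  have k1 := DDS_re_nonneg (ρ := 1) h hc hc' (Or.inl rfl) a0 a1
  have k2 := DDS_re_nonneg (ρ := -1) h hc hc' (Or.inr (Or.inl rfl)) a0 a1
  have e1 := one_sub_div_TTS h 1 xc xc'
  have e2 := one_sub_div_TTS h (-1) xc xc'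
  have p1 := mul_nonneg (Real.exp_pos (-(Lc (UU xc θ)).re)).le k1
  have p2 := mul_nonneg (Real.exp_pos (-(Lc (UU xc θ)).re)).le k2
  rw [← e1] at p1
  rw [← e2] at p2
  rw [sub_div, sub_re] at p1 p2
  rw [ofReal_one, one_mul] at p1
  rw [ofReal_neg, ofReal_one, neg_one_mul, neg_div, neg_re] at p2
  rw [abs_le]
  constructor <;> linarith

theorem I_div_cosh_pos (h : SamHyp θ θ') (hc : 0 < xc) : 0 < (I / cosh (UU xc θ) ^ 2).re := by
  have aθ : |(UU xc θ).im| < Real.pi / 2 := by rw [UU_im]; exact h.abs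
  have f1 : (Lc (UU xc θ)).im = aa xc θ := Lc_UU h.abs
  rw [I_div_cosh_sq_re aθ, f1]
  have g1 := aa_pos hc h.θ0 h.lt
  have g3 := aa_le_self xc h.θ0.le h.lt
  have := h.lt
  apply mul_pos (Real.exp_pos _)
  apply Real.sin_pos_of_pos_of_lt_pi <;> linarith

/-- The form of an edge with equal signs is negative definite. -/
theorem qfS_neg (h : SamHyp θ θ') (hb : 0 < b) (hb' : 0 < b') (hc : 0 < xc) (hc' : 0 < xc')
    {p q : ℝ} (hpq : p ≠ 0 ∨ q ≠ 0) :
    (-(2 / Real.pi) * (((p : ℂ) ^ 2 + (q : ℂ) ^ 2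
        - 2 * tanh (UU xc θ) * tanh (UU xc' θ') * ((p : ℂ) * q))
          / TT (UU xc θ) (UU xc' θ'))
      + I / (Real.pi : ℂ) ^ 2 * (((-(2 * Real.pi * b) : ℝ) : ℂ) * (p : ℂ) ^ 2 / cosh (UU xc θ) ^ 2
        + ((-(2 * Real.pi * b') : ℝ) : ℂ) * (q : ℂ) ^ 2 / cosh (UU xc' θ') ^ 2)).re < 0 := by
  have hpi := Real.pi_pos
  have hpi' : (Real.pi : ℂ) ≠ 0 := by exact_mod_cast Real.pi_ne_zero
  have d := dom_TTS h hc.le hc'.le
  set P := (1 / TT (UU xc θ) (UU xc' θ')).re with hP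
  set M := (tanh (UU xc θ) * tanh (UU xc' θ') / TT (UU xc θ) (UU xc' θ')).re with hM
  have t1 := I_div_cosh_pos h hc
  have t2 := I_div_cosh_pos h.symm hc'
  have e : (-(2 / Real.pi) * (((p : ℂ) ^ 2 + (q : ℂ) ^ 2
        - 2 * tanh (UU xc θ) * tanh (UU xc' θ') * ((p : ℂ) * q))
          / TT (UU xc θ) (UU xc' θ'))
      + I / (Real.pi : ℂ) ^ 2 * (((-(2 * Real.pi * b) : ℝ) : ℂ) * (p : ℂ) ^ 2 / cosh (UU xc θ) ^ 2
        + ((-(2 * Real.pi * b') : ℝ) : ℂ) * (q : ℂ) ^ 2 / cosh (UU xc' θ') ^ 2))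
      = ((-(2 / Real.pi) * (p ^ 2 + q ^ 2) : ℝ) : ℂ) * (1 / TT (UU xc θ) (UU xc' θ'))
        + ((4 / Real.pi * (p * q) : ℝ) : ℂ) *
          (tanh (UU xc θ) * tanh (UU xc' θ') / TT (UU xc θ) (UU xc' θ'))
        + ((-(2 * b / Real.pi) * p ^ 2 : ℝ) : ℂ) * (I / cosh (UU xc θ) ^ 2)
        + ((-(2 * b' / Real.pi) * q ^ 2 : ℝ) : ℂ) * (I / cosh (UU xc' θ') ^ 2) := by
    push_cast
    field_simp
    ring
  rw [e]
  simp only [add_re, re_ofReal_mul]
  rw [← hP, ← hM]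
  have hd := abs_le.1 d
  have hP0 : 0 ≤ P := by linarith [abs_nonneg M]
  have hform : 2 * (p * q) * M ≤ (p ^ 2 + q ^ 2) * P := by
    rcases le_total 0 (p * q) with h0 | h0
    · have := mul_le_mul_of_nonneg_left hd.2 h0
      nlinarith [mul_nonneg (sq_nonneg (p - q)) hP0]
    · have := mul_le_mul_of_nonneg_left (show -M ≤ P by linarith [hd.1]) (neg_nonneg.2 h0)
      nlinarith [mul_nonneg (sq_nonneg (p + q)) hP0]
  have hform2 : -(2 / Real.pi) * (p ^ 2 + q ^ 2) * P + 4 / Real.pi * (p * q) * M ≤ 0 := by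
    have : -(2 / Real.pi) * (p ^ 2 + q ^ 2) * P + 4 / Real.pi * (p * q) * M
        = -(2 / Real.pi) * ((p ^ 2 + q ^ 2) * P - 2 * (p * q) * M) := by ring
    rw [this]
    have h2 : 0 < 2 / Real.pi := by positivity
    nlinarith
  have n1 : -(2 * b / Real.pi) * p ^ 2 * (I / cosh (UU xc θ) ^ 2).re ≤ 0 := by
    have : 0 ≤ 2 * b / Real.pi * p ^ 2 * (I / cosh (UU xc θ) ^ 2).re := by positivity
    linarith
  have n2 : -(2 * b' / Real.pi) * q ^ 2 * (I / cosh (UU xc' θ') ^ 2).re ≤ 0 := by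
    have : 0 ≤ 2 * b' / Real.pi * q ^ 2 * (I / cosh (UU xc' θ') ^ 2).re := by positivity
    linarith
  rcases hpq with h0 | h0
  · have h1 : 0 < p ^ 2 := by positivity
    have : 0 < 2 * b / Real.pi * p ^ 2 * (I / cosh (UU xc θ) ^ 2).re := by positivity
    linarith
  · have h1 : 0 < q ^ 2 := by positivity
    have : 0 < 2 * b' / Real.pi * q ^ 2 * (I / cosh (UU xc' θ') ^ 2).re := by positivity
    linarith

/-- The critical point at an edge with equal signs. -/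
theorem ecrit_same (h : SamHyp θ θ') (hb : 0 < b) (hb' : 0 < b') (hc : 0 < xc) (hc' : 0 < xc')
    (hK : 0 < (TT (UU xc θ) (UU xc' θ') * (cosh (UU xc θ) ^ 2 + cosh (UU xc' θ') ^ 2) ^ 2 /
      (cosh (UU xc θ) ^ 2 * cosh (UU xc' θ') ^ 2)).re) :
    ECrit (UU xc θ) (UU xc' θ') (yy (UU xc θ) (UU xc' θ')) (qq (UU xc θ) (UU xc' θ'))
      (qq (UU xc' θ') (UU xc θ)) (-(2 * Real.pi * b)) (-(2 * Real.pi * b')) := by
  have hr := h.reg xc xc'
  have g1 := good_same h hc.le hc'.le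
  have g2 := good_same h.symm hc'.le hc.le
  have hpi := Real.pi_pos
  refine ⟨⟨sdom_op hr g1, ?_⟩, ey_add_eq hr g1 g2, ev_op hr g1, ?_, ?_, ?_⟩
  · have := sdom_op hr.symm g2
    rwa [yy_comm] at this
  · have := ev_op hr.symm g2
    rwa [yy_comm] at this
  · rw [A_op hr]
    have e2 : -(2 * (Real.pi : ℂ) * TT (UU xc θ) (UU xc' θ') *
        (1 + TT (UU xc θ) (UU xc' θ') ^ 2) ^ 2 / (cosh (UU xc θ) ^ 2 * cosh (UU xc' θ') ^ 2))
        = ((-(2 * Real.pi) : ℝ) : ℂ) * (TT (UU xc θ) (UU xc' θ') *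
          (cosh (UU xc θ) ^ 2 + cosh (UU xc' θ') ^ 2) ^ 2 /
            (cosh (UU xc θ) ^ 2 * cosh (UU xc' θ') ^ 2)) := by
      rw [one_add_TT_sq hr]
      push_cast
      ring
    rw [e2, re_ofReal_mul]
    have := mul_pos (mul_pos two_pos hpi) hK
    linarith
  · intro α β hαβ
    have e := qf_op hr ((-(2 * Real.pi * b) : ℝ) : ℂ) ((-(2 * Real.pi * b') : ℝ) : ℂ) α β
    rw [e]
    have k := qfS_neg h hb hb' hc hc' hαβ
    convert k using 2

/-- The second derivative in `y` at an edge with equal signs. -/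
theorem k4_same (h : SamHyp θ θ') (hc : 0 ≤ xc) (hc' : 0 ≤ xc') :
    0 < (TT (UU xc θ) (UU xc' θ') * (cosh (UU xc θ) ^ 2 + cosh (UU xc' θ') ^ 2) ^ 2 /
      (cosh (UU xc θ) ^ 2 * cosh (UU xc' θ') ^ 2)).re := by
  have hpi := Real.pi_gt_three
  have hr := h.reg xc xc'
  have c1 := h.Lc1 hc
  have c2 := h.symm.Lc1 hc'
  have t1 := h.θ1
  have t2 := h.θ1'
  have t0 := h.θ0
  have t0' := h.θ0'
  have aδ : |θ - θ'| < Real.pi / 2 := by rw [abs_lt]; constructor <;> linarith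
  have aS : |θ + θ'| < Real.pi / 2 := by rw [abs_lt]; constructor <;> linarith
  have i1 : (Lc (UU xc θ + UU xc' θ')).im = aa (xc + xc') (θ + θ') := by
    rw [UU_add]; exact Lc_UU aS
  have i2 : (Lc (UU xc θ - UU xc' θ')).im = aa (xc - xc') (θ - θ') := by
    rw [UU_sub]; exact Lc_UU aδ
  have b1 := abs_le.1 (abs_aa_le (xc + xc') aS)
  have b2 := abs_le.1 (abs_aa_le (xc - xc') aδ)
  rw [abs_of_nonneg (by linarith : 0 ≤ θ + θ')] at b1
  have b9 : θ + θ' + |θ - θ'| ≤ 1 := by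
    rcases le_total θ θ' with h2 | h2
    · rw [abs_of_nonpos (by linarith)]; linarith
    · rw [abs_of_nonneg (by linarith)]; linarith
  set d := Lc (UU xc θ) - Lc (UU xc' θ') with hd
  have dim : |d.im| ≤ 1 / 2 := by
    rw [hd, sub_im, abs_le]
    constructor <;> linarith [c1.1, c1.2, c2.1, c2.2]
  have dim' : |d.im| < Real.pi / 2 := by linarith
  have dl := abs_le.1 ((Lc_im_abs dim').trans dim)
  have e : TT (UU xc θ) (UU xc' θ') * (cosh (UU xc θ) ^ 2 + cosh (UU xc' θ') ^ 2) ^ 2 /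
      (cosh (UU xc θ) ^ 2 * cosh (UU xc' θ') ^ 2) = ((4 : ℝ) : ℂ) *
        exp ((Lc (UU xc θ + UU xc' θ') + Lc (UU xc θ - UU xc' θ')) / 2 + 2 * Lc d) := by
    have h1 := cosh_ne hr.left
    have h2 := cosh_ne hr.right
    have e3 : cosh d = (cosh (UU xc θ) / cosh (UU xc' θ') +
        cosh (UU xc' θ') / cosh (UU xc θ)) / 2 := by
      have e4 : cosh d = (exp d + exp (-d)) / 2 := rfl
      rw [e4, hd, neg_sub, exp_sub, exp_sub, exp_Lc hr.left, exp_Lc hr.right]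
    rw [exp_add, show 2 * Lc d = ((2 : ℕ) : ℂ) * Lc d by push_cast; ring, exp_nat_mul,
      exp_Lc dim', e3]
    change TT (UU xc θ) (UU xc' θ') * _ / _ = _ * (TT (UU xc θ) (UU xc' θ') * _)
    push_cast
    field_simp
    ring
  rw [e, re_ofReal_mul, exp_re]
  refine mul_pos (by norm_num) (mul_pos (Real.exp_pos _) ?_)
  apply cos_pos'
  rw [add_im, show (2 : ℂ) * Lc d = ((2 : ℝ) : ℂ) * Lc d by norm_num, im_ofReal_mul,
    show (2 : ℂ) = ((2 : ℝ) : ℂ) by norm_num, div_ofReal_im, add_im, i1, i2, abs_lt]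
  constructor <;> linarith [b1.1, b1.2, b2.1, b2.2, dl.1, dl.2]

/-- The critical point at an edge with equal signs, `c < 0`. -/
theorem ecrit_neg (h : SamHyp θ θ') (hb : 0 < b) (hb' : 0 < b') (hc : 0 < xc) (hc' : 0 < xc') :
    ECrit (UU xc θ) (UU xc' θ') (yy (UU xc θ) (UU xc' θ')) (qq (UU xc θ) (UU xc' θ'))
      (qq (UU xc' θ') (UU xc θ)) (-(2 * Real.pi * b)) (-(2 * Real.pi * b')) :=
  ecrit_same h hb hb' hc hc' (k4_same h hc.le hc'.le)

/-- The mirror image of a critical point with the standard value of `y`. -/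
theorem ecrit_mirror {u w : ℂ} {β β' : ℝ} (hr : Reg u w) (g1 : Good u w) (g2 : Good w u)
    (H : ECrit u w (yy u w) (qq u w) (qq w u) β β') :
    ECrit (-((starRingEnd ℂ) u)) (-((starRingEnd ℂ) w))
      (yy (-((starRingEnd ℂ) u)) (-((starRingEnd ℂ) w))) (-((starRingEnd ℂ) (qq u w)))
      (-((starRingEnd ℂ) (qq w u))) (-β) (-β') := by
  have hrc : Reg ((starRingEnd ℂ) u) ((starRingEnd ℂ) w) := hr.conj_left.conj_right
  have hr' : Reg (-((starRingEnd ℂ) u)) (-((starRingEnd ℂ) w)) := hrc.neg_left.neg_right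
  have g1' : Good (-((starRingEnd ℂ) u)) (-((starRingEnd ℂ) w)) :=
    ((g1.conj hr).neg_left hrc).neg_right
  have g2' : Good (-((starRingEnd ℂ) w)) (-((starRingEnd ℂ) u)) :=
    ((g2.conj hr.symm).neg_left hrc.symm).neg_right
  have q1 : qq (-((starRingEnd ℂ) u)) (-((starRingEnd ℂ) w)) = -((starRingEnd ℂ) (qq u w)) := by
    rw [qq_neg_left hrc.neg_right, qq_neg_right, qq_conj hr]
  have q2 : qq (-((starRingEnd ℂ) w)) (-((starRingEnd ℂ) u)) = -((starRingEnd ℂ) (qq w u)) := by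
    rw [qq_neg_left hrc.symm.neg_right, qq_neg_right, qq_conj hr.symm]
  refine ⟨⟨sdom_op hr' g1', ?_⟩, ey_add_eq hr' g1' g2', ?_, ?_, ?_, ?_⟩
  · have := sdom_op hr'.symm g2'
    rwa [yy_comm] at this
  · rw [ev_op hr' g1', q1]
  · have := ev_op hr'.symm g2'
    rw [yy_comm, q2] at this
    exact this
  · have k := H.hA
    rw [A_op hr] at k
    rw [A_op hr', TT_neg_right, TT_neg_left, TT_conj hr, cosh_neg, cosh_neg, ← conj_cosh',
      ← conj_cosh']
    have e : -(2 * (Real.pi : ℂ) * (starRingEnd ℂ) (TT u w) *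
        (1 + (starRingEnd ℂ) (TT u w) ^ 2) ^ 2 /
        ((starRingEnd ℂ) (cosh u) ^ 2 * (starRingEnd ℂ) (cosh w) ^ 2)) =
        (starRingEnd ℂ) (-(2 * Real.pi * TT u w * (1 + TT u w ^ 2) ^ 2 /
          (cosh u ^ 2 * cosh w ^ 2))) := by
      simp only [map_neg, map_div₀, map_mul, map_pow, map_add, map_one, conj_ofReal,
        Complex.conj_ofNat]
    rw [e, conj_re]
    exact k
  · intro α γ hαγ
    have k := H.hD α γ hαγ
    have e1 := qf_op hr (β : ℂ) (β' : ℂ) α γ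
    have e2 := qf_op hr' ((-β : ℝ) : ℂ) ((-β' : ℝ) : ℂ) α γ
    rw [e1] at k
    rw [e2, TT_neg_right, TT_neg_left, TT_conj hr, cosh_neg, cosh_neg, tanh_neg, tanh_neg,
      ← conj_cosh', ← conj_cosh', tanh_conj, tanh_conj]
    have e : -(2 / (Real.pi : ℂ)) * (((α : ℂ) ^ 2 + (γ : ℂ) ^ 2 -
        2 * -((starRingEnd ℂ) (tanh u)) * -((starRingEnd ℂ) (tanh w)) * ((α : ℂ) * γ)) /
          (starRingEnd ℂ) (TT u w)) +
        I / (Real.pi : ℂ) ^ 2 * (((-β : ℝ) : ℂ) * (α : ℂ) ^ 2 / (starRingEnd ℂ) (cosh u) ^ 2 +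
          ((-β' : ℝ) : ℂ) * (γ : ℂ) ^ 2 / (starRingEnd ℂ) (cosh w) ^ 2) =
        (starRingEnd ℂ) (-(2 / (Real.pi : ℂ)) * (((α : ℂ) ^ 2 + (γ : ℂ) ^ 2 -
          2 * tanh u * tanh w * ((α : ℂ) * γ)) / TT u w) +
        I / (Real.pi : ℂ) ^ 2 * ((β : ℂ) * (α : ℂ) ^ 2 / cosh u ^ 2 +
          (β' : ℂ) * (γ : ℂ) ^ 2 / cosh w ^ 2)) := by
      simp only [map_neg, map_div₀, map_mul, map_pow, map_add, map_sub, conj_ofReal, conj_I,
        Complex.conj_ofNat]
      push_cast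
      ring
    rw [e, conj_re]
    exact k

/-- The critical point at an edge with equal signs, `c > 0`. -/
theorem ecrit_pos (h : SamHyp θ θ') (hb : 0 < b) (hb' : 0 < b') (hc : 0 < xc) (hc' : 0 < xc') :
    ECrit (-((starRingEnd ℂ) (UU xc θ))) (-((starRingEnd ℂ) (UU xc' θ')))
      (yy (-((starRingEnd ℂ) (UU xc θ))) (-((starRingEnd ℂ) (UU xc' θ'))))
      (-((starRingEnd ℂ) (qq (UU xc θ) (UU xc' θ'))))
      (-((starRingEnd ℂ) (qq (UU xc' θ') (UU xc θ)))) (2 * Real.pi * b) (2 * Real.pi * b') := by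
  have k := ecrit_mirror (h.reg xc xc') (good_same h hc.le hc'.le)
    (good_same h.symm hc'.le hc.le) (ecrit_neg h hb hb' hc hc')
  rwa [neg_neg, neg_neg] at k

end

end Pool.Agent.MX
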