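import Pool.Agent.MX.S.Mono
import Pool.Agent.S3.Dneg

/-!
# Edges with equal signs: the edge function is negative in the quadrant `x, x' ≥ 0`
-/

set_option autoImplicit false

namespace Pool.Agent.MX

open Complex Pool.Agent.S3

/-- `D_e` on the product of the two lines -/
noncomputable def DfunS (Φ : ℂ → ℂ → ℂ) (θ θ' b b' xc xc' x x' : ℝ) : ℝ :=
  (Φ (gd (UU x θ) / (Real.pi : ℂ)) (gd (UU x' θ') / (Real.pi : ℂ))
    - Φ (gd (UU xc θ) / (Real.pi : ℂ)) (gd (UU xc' θ') / (Real.pi : ℂ))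
    + 2 * qq (UU xc θ) (UU xc' θ') * (gd (UU x θ) - gd (UU xc θ)) / (Real.pi : ℂ)
    + 2 * qq (UU xc' θ') (UU xc θ) * (gd (UU x' θ') - gd (UU xc' θ')) / (Real.pi : ℂ)
    - I * b / (Real.pi : ℂ) * (gd (UU x θ) - gd (UU xc θ)) ^ 2
    - I * b' / (Real.pi : ℂ) * (gd (UU x' θ') - gd (UU xc' θ')) ^ 2).re

section

variable {θ θ' xc xc' b b' : ℝ} {Φ : ℂ → ℂ → ℂ}

theorem DfunS_self : DfunS Φ θ θ' b b' xc xc' xc xc' = 0 := by
  simp [DfunS]

theorem hasDerivAt_DfunS (hΦ : IsPhi Φ) (h : SamHyp θ θ') (x x' α α' s : ℝ) :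
    HasDerivAt (fun s => DfunS Φ θ θ' b b' xc xc' (x + α * s) (x' + α' * s))
      (-(2 / Real.pi) * (α * (AAS θ θ' b xc xc' (x + α * s) (x' + α' * s)
          / cosh (UU (x + α * s) θ)).re
        + α' * (AAS θ' θ b' xc' xc (x' + α' * s) (x + α * s) / cosh (UU (x' + α' * s) θ')).re)) s := by
  have aθ : |θ| < Real.pi / 2 := h.abs
  have aθ' : |θ'| < Real.pi / 2 := h.symm.abs
  have h1 := hΦ.deriv (fun s => UU (x + α * s) θ) (fun s => UU (x' + α' * s) θ') α α' s
    (h.reg _ _) (hasDerivAt_UU_dir x α θ s) (hasDerivAt_UU_dir x' α' θ' s)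
  have g1 := hasDerivAt_gd_dir (x := x) (α := α) (s := s) aθ
  have g2 := hasDerivAt_gd_dir (x := x') (α := α') (s := s) aθ'
  have k1 := g1.sub_const (gd (UU xc θ))
  have k2 := g2.sub_const (gd (UU xc' θ'))
  have l1 := (k1.const_mul (2 * qq (UU xc θ) (UU xc' θ'))).div_const (Real.pi : ℂ)
  have l2 := (k2.const_mul (2 * qq (UU xc' θ') (UU xc θ))).div_const (Real.pi : ℂ)
  have m1 := (k1.pow 2).const_mul (I * b / (Real.pi : ℂ))
  have m2 := (k2.pow 2).const_mul (I * b' / (Real.pi : ℂ))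
  have t := hasDerivAt_re (((((h1.sub_const (Φ (gd (UU xc θ) / (Real.pi : ℂ))
    (gd (UU xc' θ') / (Real.pi : ℂ)))).add l1).add l2).sub m1).sub m2)
  refine HasDerivAt.congr_deriv t ?_
  rw [← re_ofReal_mul, ← re_ofReal_mul, ← add_re, ← re_ofReal_mul]
  congr 1
  have hpi : (Real.pi : ℂ) ≠ 0 := by exact_mod_cast Real.pi_ne_zero
  have c1 : cosh (UU (x + α * s) θ) ≠ 0 := cosh_ne (by simpa using aθ)
  have c2 : cosh (UU (x' + α' * s) θ') ≠ 0 := cosh_ne (by simpa using aθ')
  rw [AAS, AAS]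
  push_cast
  field_simp
  ring

/-- continuity -/
theorem DfunS_continuous_dir (hΦ : IsPhi Φ) (h : SamHyp θ θ') (x x' α α' : ℝ) :
    Continuous (fun s => DfunS Φ θ θ' b b' xc xc' (x + α * s) (x' + α' * s)) :=
  continuous_iff_continuousAt.2 fun s => (hasDerivAt_DfunS hΦ h x x' α α' s).continuousAt

theorem DfunS_anti (hΦ : IsPhi Φ) (h : SamHyp θ θ') {x x' α α' s₁ s₂ : ℝ}
    (hs : ∀ s ∈ Set.Ioo s₁ s₂, 0 < α * (AAS θ θ' b xc xc' (x + α * s) (x' + α' * s)
          / cosh (UU (x + α * s) θ)).re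
        + α' * (AAS θ' θ b' xc' xc (x' + α' * s) (x + α * s) / cosh (UU (x' + α' * s) θ')).re) :
    StrictAntiOn (fun s => DfunS Φ θ θ' b b' xc xc' (x + α * s) (x' + α' * s))
      (Set.Icc s₁ s₂) := by
  apply strictAntiOn_of_deriv_neg (convex_Icc _ _)
  · exact (DfunS_continuous_dir hΦ h x x' α α').continuousOn
  · intro s hs'
    rw [interior_Icc] at hs'
    rw [(hasDerivAt_DfunS hΦ h x x' α α' s).deriv]
    have := hs s hs'
    have : 0 < 2 / Real.pi := by positivity
    nlinarith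

/-- the sign of a component -/
theorem compS_sign (h : SamHyp θ θ') (hb : 0 < b) (hc : 0 ≤ xc) (hc' : 0 ≤ xc') {x x' α : ℝ}
    (hx0 : 0 ≤ x) (hx' : 0 ≤ x') (hα : α = 1 ∨ α = -1) (hx : 0 < α * (x - xc))
    (hxx : |x' - xc'| ≤ α * (x - xc)) :
    0 < α * (AAS θ θ' b xc xc' x x' / cosh (UU x θ)).re := by
  rcases hα with rfl | rfl
  · rw [one_mul]
    exact AAS_div_pos h hb hc hc' hx' (by linarith) (by linarith)
  · have := AAS_div_neg (xc := xc) h hb hc' hx0 hx' (by linarith) (by linarith)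
    linarith

/-- the path from the critical point to `(x, x')` (time `s` = distance in the maximum norm) -/
theorem DfunS_path (hΦ : IsPhi Φ) (h : SamHyp θ θ') (hb : 0 < b) (hb' : 0 < b')
    (hc : 0 ≤ xc) (hc' : 0 ≤ xc') {x x' r : ℝ} (hx : 0 ≤ x) (hx' : 0 ≤ x') (hr : 0 ≤ r)
    (hr' : r < max |x - xc| |x' - xc'|) :
    ∃ y y' : ℝ, 0 ≤ y ∧ 0 ≤ y' ∧ max |y - xc| |y' - xc'| = r ∧
      DfunS Φ θ θ' b b' xc xc' x x' < DfunS Φ θ θ' b b' xc xc' y y' := by
  -- signs
  obtain ⟨α, hα, hαx⟩ : ∃ α : ℝ, (α = 1 ∨ α = -1) ∧ α * (x - xc) = |x - xc| := by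
    rcases le_total 0 (x - xc) with h0 | h0
    · exact ⟨1, Or.inl rfl, by rw [abs_of_nonneg h0]; ring⟩
    · exact ⟨-1, Or.inr rfl, by rw [abs_of_nonpos h0]; ring⟩
  obtain ⟨α', hα', hαx'⟩ : ∃ α : ℝ, (α = 1 ∨ α = -1) ∧ α * (x' - xc') = |x' - xc'| := by
    rcases le_total 0 (x' - xc') with h0 | h0
    · exact ⟨1, Or.inl rfl, by rw [abs_of_nonneg h0]; ring⟩
    · exact ⟨-1, Or.inr rfl, by rw [abs_of_nonpos h0]; ring⟩
  have hαα : α * α = 1 := by rcases hα with rfl | rfl <;> norm_num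
  have hαα' : α' * α' = 1 := by rcases hα' with rfl | rfl <;> norm_num
  have habs : |α| = 1 := by rcases hα with rfl | rfl <;> norm_num
  have habs' : |α'| = 1 := by rcases hα' with rfl | rfl <;> norm_num
  set d := |x - xc| with hd
  set d' := |x' - xc'| with hd'
  have hd0 : 0 ≤ d := abs_nonneg _
  have hd0' : 0 ≤ d' := abs_nonneg _
  have ex : x = xc + α * d := by rw [← hαx]; linear_combination (xc - x) * hαα
  have ex' : x' = xc' + α' * d' := by rw [← hαx']; linear_combination (xc' - x') * hαα'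
  set m := min d d' with hm
  have hm0 : 0 ≤ m := le_min hd0 hd0'
  -- positivity of the points on the path
  have pos1 : ∀ s, 0 ≤ s → s ≤ d → 0 ≤ xc + α * s := by
    intro s h0 h1
    rcases hα with rfl | rfl
    · linarith
    · linarith
  have pos2 : ∀ s, 0 ≤ s → s ≤ d' → 0 ≤ xc' + α' * s := by
    intro s h0 h1
    rcases hα' with rfl | rfl
    · linarith
    · linarith
  -- phase 1
  have P1 : StrictAntiOn (fun s => DfunS Φ θ θ' b b' xc xc' (xc + α * s) (xc' + α' * s))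
      (Set.Icc 0 m) := by
    apply DfunS_anti hΦ h
    intro s hs
    have h1 : s ≤ d := le_trans hs.2.le (min_le_left _ _)
    have h2 : s ≤ d' := le_trans hs.2.le (min_le_right _ _)
    have e1 : α * (xc + α * s - xc) = s := by linear_combination s * hαα
    have e2 : α' * (xc' + α' * s - xc') = s := by linear_combination s * hαα'
    have a1 : |xc + α * s - xc| = s := by
      rw [add_sub_cancel_left, abs_mul, habs, one_mul, abs_of_pos hs.1]
    have a2 : |xc' + α' * s - xc'| = s := by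
      rw [add_sub_cancel_left, abs_mul, habs', one_mul, abs_of_pos hs.1]
    have s1 := compS_sign (b := b) h hb hc hc' (pos1 s hs.1.le h1) (pos2 s hs.1.le h2) hα
      (by rw [e1]; exact hs.1) (by rw [e1, a2])
    have s2 := compS_sign (b := b') h.symm hb' hc' hc (pos2 s hs.1.le h2) (pos1 s hs.1.le h1) hα'
      (by rw [e2]; exact hs.1) (by rw [e2, a1])
    linarith
  rcases le_total d d' with hdd | hdd
  · -- `d ≤ d'`: phase 2 moves `x'`
    have hmd : m = d := min_eq_left hdd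
    have P2 : StrictAntiOn (fun s => DfunS Φ θ θ' b b' xc xc' (x + 0 * s) (xc' + α' * s))
        (Set.Icc m d') := by
      apply DfunS_anti hΦ h
      intro s hs
      rw [zero_mul, zero_mul, add_zero, zero_add]
      have hs0 : 0 < s := lt_of_le_of_lt hm0 hs.1
      have e2 : α' * (xc' + α' * s - xc') = s := by linear_combination s * hαα'
      exact compS_sign (b := b') h.symm hb' hc' hc (pos2 s hs0.le hs.2.le) hx hα'
        (by rw [e2]; exact hs0) (by rw [e2]; exact le_trans hmd.ge hs.1.le)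
    have hmax : max d d' = d' := max_eq_right hdd
    rw [hmax] at hr'
    rcases le_or_gt m r with hmr | hmr
    · refine ⟨x, xc' + α' * r, hx, pos2 r hr hr'.le, ?_, ?_⟩
      · rw [add_sub_cancel_left, abs_mul, habs', one_mul, abs_of_nonneg hr]
        exact max_eq_right (by rw [← hd, ← hmd]; exact hmr)
      · have := P2 (a := r) (b := d') ⟨hmr, hr'.le⟩ ⟨by linarith, le_rfl⟩ hr'
        simp only [zero_mul, add_zero] at this
        rwa [← ex'] at this
    · refine ⟨xc + α * r, xc' + α' * r, pos1 r hr (by linarith), pos2 r hr hr'.le, ?_, ?_⟩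
      · rw [add_sub_cancel_left, add_sub_cancel_left, abs_mul, abs_mul, habs, habs', one_mul,
          abs_of_nonneg hr, max_self]
      · have h1 := P1 (a := r) (b := m) ⟨hr, hmr.le⟩ ⟨hm0, le_rfl⟩ hmr
        have h2 := P2.antitoneOn (a := m) (b := d') ⟨le_rfl, by linarith⟩ ⟨by linarith, le_rfl⟩
          (by linarith)
        simp only [zero_mul, add_zero] at h1 h2
        rw [← ex'] at h2
        have e3 : xc + α * m = x := by rw [hmd, ← ex]
        rw [e3] at h1
        linarith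
  · -- `d' ≤ d`: phase 2 moves `x`
    have hmd : m = d' := min_eq_right hdd
    have P2 : StrictAntiOn (fun s => DfunS Φ θ θ' b b' xc xc' (xc + α * s) (x' + 0 * s))
        (Set.Icc m d) := by
      apply DfunS_anti hΦ h
      intro s hs
      rw [zero_mul, zero_mul, add_zero, add_zero]
      have hs0 : 0 < s := lt_of_le_of_lt hm0 hs.1
      have e2 : α * (xc + α * s - xc) = s := by linear_combination s * hαα
      exact compS_sign (b := b) h hb hc hc' (pos1 s hs0.le hs.2.le) hx' hα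
        (by rw [e2]; exact hs0) (by rw [e2]; exact le_trans hmd.ge hs.1.le)
    have hmax : max d d' = d := max_eq_left hdd
    rw [hmax] at hr'
    rcases le_or_gt m r with hmr | hmr
    · refine ⟨xc + α * r, x', pos1 r hr hr'.le, hx', ?_, ?_⟩
      · rw [add_sub_cancel_left, abs_mul, habs, one_mul, abs_of_nonneg hr]
        exact max_eq_left (by rw [← hd', ← hmd]; exact hmr)
      · have := P2 (a := r) (b := d) ⟨hmr, hr'.le⟩ ⟨by linarith, le_rfl⟩ hr'
        simp only [zero_mul, add_zero] at this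
        rwa [← ex] at this
    · refine ⟨xc + α * r, xc' + α' * r, pos1 r hr hr'.le, pos2 r hr (by linarith), ?_, ?_⟩
      · rw [add_sub_cancel_left, add_sub_cancel_left, abs_mul, abs_mul, habs, habs', one_mul,
          abs_of_nonneg hr, max_self]
      · have h1 := P1 (a := r) (b := m) ⟨hr, hmr.le⟩ ⟨hm0, le_rfl⟩ hmr
        have h2 := P2.antitoneOn (a := m) (b := d) ⟨le_rfl, by linarith⟩ ⟨by linarith, le_rfl⟩
          (by linarith)
        simp only [zero_mul, add_zero] at h1 h2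
        rw [← ex] at h2
        have e3 : xc' + α' * m = x' := by rw [hmd, ← ex']
        rw [e3] at h1
        linarith

theorem DfunS_neg (hΦ : IsPhi Φ) (h : SamHyp θ θ') (hb : 0 < b) (hb' : 0 < b')
    (hc : 0 ≤ xc) (hc' : 0 ≤ xc') {x x' : ℝ} (hx : 0 ≤ x) (hx' : 0 ≤ x')
    (hne : (x, x') ≠ (xc, xc')) : DfunS Φ θ θ' b b' xc xc' x x' < 0 := by
  have hr : 0 < max |x - xc| |x' - xc'| := by
    by_contra hc0
    push Not at hc0
    have h1 := le_trans (le_max_left |x - xc| |x' - xc'|) hc0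
    have h2 := le_trans (le_max_right |x - xc| |x' - xc'|) hc0
    apply hne
    rw [abs_nonpos_iff, sub_eq_zero] at h1 h2
    rw [h1, h2]
  obtain ⟨y, y', hy, hy', hm, hlt⟩ := DfunS_path hΦ h hb hb' hc hc' hx hx' le_rfl hr
  have h1 : |y - xc| ≤ 0 := by rw [← hm]; exact le_max_left _ _
  have h2 : |y' - xc'| ≤ 0 := by rw [← hm]; exact le_max_right _ _
  rw [abs_nonpos_iff, sub_eq_zero] at h1 h2
  rw [h1, h2, DfunS_self] at hlt
  exact hlt

theorem DfunS_nonpos (hΦ : IsPhi Φ) (h : SamHyp θ θ') (hb : 0 < b) (hb' : 0 < b')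
    (hc : 0 ≤ xc) (hc' : 0 ≤ xc') {x x' : ℝ} (hx : 0 ≤ x) (hx' : 0 ≤ x') :
    DfunS Φ θ θ' b b' xc xc' x x' ≤ 0 := by
  by_cases hne : (x, x') = (xc, xc')
  · rw [Prod.mk.injEq] at hne
    rw [hne.1, hne.2, DfunS_self]
  · exact (DfunS_neg hΦ h hb hb' hc hc' hx hx' hne).le

end

end Pool.Agent.MX
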