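import Pool.Agent.H25.RK.DGI
import Pool.Agent.H25.RK.DGf
import Pool.Agent.H63.GO.MTaylor
import Pool.Agent.H63.VC.Asym
import Pool.Agent.H63.VC.EndB
import Pool.Agent.H63.VC.Riem
import Pool.Agent.H63.VC.SlowL
import Pool.Agent.H63.VC.SlowU
import Pool.Agent.H63.VC3.CritB
import Pool.Agent.H63.VC3.Upper
import Pool.Agent.H63.VC4.GaussN
import Pool.Agent.H63.VC4.KBN
import Pool.Agent.H63.VC4.LaplaceN
import Pool.Agent.H63.VC4.UpperN
import Pool.Agent.H63.VC5.Defs
import Pool.Agent.H63.VC6.LocU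
import Pool.Agent.H63.VC6.SlotU
import Pool.Agent.H63.VC7.Link
import Pool.Agent.S3.Asm.Def
import Pool.Agent.S3.Chain
import Pool.Agent.S3.Es3
import Pool.Agent.S3.Es6

/-!
# Edges with equal signs, the value at the ends: elementary inequalities

`T = 547 / 1000`; `c = cos R`, `s = sin R`, `C = cosh η` with `sinh η = T cos R`.
-/

set_option autoImplicit false

namespace Pool.Agent.MX

open Complex Pool.Agent.S3

/-! ### `arsinh` -/

theorem ea_arsinh_ge {z : ℝ} (hz : 0 ≤ z) : z - z ^ 3 / 6 ≤ Real.arsinh z := by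
  have h := LowA_pos (b := z) (f := fun x => Real.arsinh x - (x - x ^ 3 / 6))
    (f' := fun x => (√(1 + x ^ 2))⁻¹ - (1 - 3 * x ^ 2 / 6))
    (fun x _ _ => by
      have h1 := (Real.hasDerivAt_arsinh x).sub ((hasDerivAt_id' x).sub
        ((hasDerivAt_pow 3 x).div_const 6))
      refine h1.congr_deriv ?_
      norm_num)
    (by simp) (fun x hx _ => ?_) hz le_rfl
  · linarith
  · have h0 : 0 < √(1 + x ^ 2) := Real.sqrt_pos.2 (by positivity)
    rw [sub_nonneg, ← one_div, le_div_iff₀ h0]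
    rcases le_total (1 - 3 * x ^ 2 / 6) 0 with h1 | h1
    · nlinarith
    · apply le_of_sq_le_sq _ (by norm_num)
      rw [mul_pow, Real.sq_sqrt (by positivity)]
      have h2 : x ^ 2 ≤ 2 := by linarith
      have h3 := sq_nonneg x
      generalize x ^ 2 = p at *
      nlinarith [mul_nonneg (mul_nonneg h3 h3) (show 0 ≤ 3 - p by linarith)]

theorem ea_arsinh_le {z : ℝ} (hz : 0 ≤ z) :
    Real.arsinh z ≤ z - z ^ 3 / 6 + 3 * z ^ 5 / 40 := by
  have h := LowA_pos (b := z) (f := fun x => x - x ^ 3 / 6 + 3 * x ^ 5 / 40 - Real.arsinh x)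
    (f' := fun x => 1 - x ^ 2 / 2 + 3 * x ^ 4 / 8 - (√(1 + x ^ 2))⁻¹)
    (fun x _ _ => by
      have h1 := (((hasDerivAt_id' x).sub ((hasDerivAt_pow 3 x).div_const 6)).add
        (((hasDerivAt_pow 5 x).const_mul (3 : ℝ)).div_const 40)).sub (Real.hasDerivAt_arsinh x)
      refine h1.congr_deriv ?_
      norm_num
      ring)
    (by simp) (fun x hx _ => ?_) hz le_rfl
  · linarith
  · have h0 : 0 < √(1 + x ^ 2) := Real.sqrt_pos.2 (by positivity)
    rw [sub_nonneg, ← one_div, div_le_iff₀ h0]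
    have e4 : x ^ 4 = (x ^ 2) ^ 2 := by ring
    rw [e4]
    have h3 := sq_nonneg x
    have hP : 0 ≤ 1 - x ^ 2 / 2 + 3 * (x ^ 2) ^ 2 / 8 := by
      nlinarith [sq_nonneg (x ^ 2 - 1)]
    have : (1 : ℝ) ≤ ((1 - x ^ 2 / 2 + 3 * (x ^ 2) ^ 2 / 8) * √(1 + x ^ 2)) ^ 2 := by
      rw [mul_pow, Real.sq_sqrt (by positivity)]
      generalize x ^ 2 = p at *
      have e : (1 - p / 2 + 3 * p ^ 2 / 8) ^ 2 * (1 + p) - 1 =
          p ^ 3 * (5 / 8 - 15 / 64 * p + 9 / 64 * p ^ 2) := by ring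
      have h5 : 0 ≤ 5 / 8 - 15 / 64 * p + 9 / 64 * p ^ 2 := by nlinarith [sq_nonneg (p - 1)]
      have := mul_nonneg (pow_nonneg h3 3) h5
      linarith
    by_contra hc
    push Not at hc
    have h6 : 0 ≤ (1 - x ^ 2 / 2 + 3 * (x ^ 2) ^ 2 / 8) * √(1 + x ^ 2) := mul_nonneg hP h0.le
    nlinarith

/-! ### `tan P cos P'` -/

theorem ea_tan_cos {R η R' η' T : ℝ} (hR : |R| < Real.pi / 2)
    (h : Real.sinh η = T * Real.cos R) (h' : Real.sinh η' = T * Real.cos R') :
    tan (UU R η) * cos (UU R' η') =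
      UU (Real.cos R' * (Real.sin R * Real.cosh η' + T ^ 2 * Real.cosh η * Real.sin R') /
          (Real.cos R * (1 + T ^ 2)))
        (T * Real.cos R' * (Real.cosh η * Real.cosh η' - Real.sin R * Real.sin R') /
          (Real.cos R * (1 + T ^ 2))) := by
  have hn : cos (UU R η) ≠ 0 := cos_ne' (UU_re_lt hR)
  have _hc := cos_pos' hR
  have e1 : tan (UU R η) * cos (UU R' η') =
      (sin (UU R η) * (starRingEnd ℂ) (cos (UU R η)) * cos (UU R' η')) /
        ((normSq (cos (UU R η)) : ℝ) : ℂ) := by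
    have hcc : (starRingEnd ℂ) (cos (UU R η)) ≠ 0 := (map_ne_zero _).2 hn
    rw [Complex.tan_eq_sin_div_cos, normSq_eq_conj_mul_self]
    field_simp
  have s1 : (sin (UU R η) * (starRingEnd ℂ) (cos (UU R η))).re = Real.sin R * Real.cos R := by
    rw [mul_re, conj_re, conj_im, wsin_re, wsin_im, wcos_re, wcos_im, UU_re, UU_im]
    have := Real.cosh_sq η
    linear_combination (Real.sin R * Real.cos R) * this
  have s2 : (sin (UU R η) * (starRingEnd ℂ) (cos (UU R η))).im = Real.sinh η * Real.cosh η := by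
    rw [mul_im, conj_re, conj_im, wsin_re, wsin_im, wcos_re, wcos_im, UU_re, UU_im]
    have := Real.sin_sq_add_cos_sq R
    linear_combination (Real.sinh η * Real.cosh η) * this
  have sN : normSq (cos (UU R η)) = Real.cos R ^ 2 * (1 + T ^ 2) := by
    rw [normSq_apply, wcos_re, wcos_im, UU_re, UU_im]
    have h1 := Real.cosh_sq η
    have h2 := Real.sin_sq_add_cos_sq R
    have h3 : Real.sinh η ^ 2 = T ^ 2 * Real.cos R ^ 2 := by rw [h]; ring
    linear_combination (Real.cos R ^ 2) * h1 + (Real.sinh η ^ 2) * h2 + h3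
  rw [e1, sN]
  apply Complex.ext
  · rw [div_ofReal_re, UU_re, mul_re, s1, s2, wcos_re, wcos_im, UU_re, UU_im, h, h']
    field_simp
    ring
  · rw [div_ofReal_im, UU_im, mul_im, s1, s2, wcos_re, wcos_im, UU_re, UU_im, h, h']
    field_simp
    ring

/-! ### The inequality for the larger point -/

/-- `c' (s + T² s') ≥ (s - s') + (1 + T²) c s'` for `0 ≤ s' ≤ s`. -/
theorem ea_lin {c s c' s' τ : ℝ} (hc : 0 < c) (hc1 : c ≤ 1) (hs' : 0 ≤ s') (hss : s' ≤ s)
    (hc' : 0 < c') (h : s ^ 2 + c ^ 2 = 1) (h' : s' ^ 2 + c' ^ 2 = 1) (hτ : 0 ≤ τ) :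
    (s - s') + (1 + τ) * c * s' ≤ c' * (s + τ * s') := by
  rcases (hs'.trans hss).eq_or_lt with h0 | h0
  · have : s' = 0 := by linarith
    rw [this, ← h0]; simp
  obtain ⟨r, hr⟩ : ∃ r, r = s' / s := ⟨_, rfl⟩
  have e : s' = r * s := by rw [hr]; field_simp
  have r0 : 0 ≤ r := by rw [hr]; positivity
  have r1 : r ≤ 1 := by rw [hr, div_le_one h0]; exact hss
  -- `c' ≥ 1 - (1 - c) r²`
  have k1 : 1 - (1 - c) * r ^ 2 ≤ c' := by
    apply le_of_sq_le_sq _ hc'.le
    have e2 : c' ^ 2 = 1 - r ^ 2 * (1 - c ^ 2) := by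
      have : s' ^ 2 = r ^ 2 * s ^ 2 := by rw [e]; ring
      rw [this] at h'
      have h2 : s ^ 2 = 1 - c ^ 2 := by linarith
      rw [h2] at h'
      linarith
    rw [e2]
    have r2 : r ^ 2 ≤ 1 := by nlinarith
    have : 0 ≤ (1 - c) ^ 2 * r ^ 2 * (1 - r ^ 2) := by
      have : 0 ≤ 1 - r ^ 2 := by linarith
      positivity
    nlinarith
  have k2 : (1 - r) + (1 + τ) * c * r ≤ (1 - (1 - c) * r ^ 2) * (1 + τ * r) := by
    have : 0 ≤ r * (1 - c) * ((1 - r) + τ * (1 - r ^ 2)) := by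
      have a1 : 0 ≤ 1 - c := by linarith
      have a2 : 0 ≤ 1 - r := by linarith
      have a3 : 0 ≤ 1 - r ^ 2 := by nlinarith
      positivity
    nlinarith
  have k3 : (1 - (1 - c) * r ^ 2) * (1 + τ * r) ≤ c' * (1 + τ * r) :=
    mul_le_mul_of_nonneg_right k1 (by positivity)
  have k4 := mul_le_mul_of_nonneg_left (k2.trans k3) h0.le
  rw [e]
  linarith

/-- The numbers of the line of level `547 / 1000`. -/
structure Ln (c s C : ℝ) : Prop where
  c0 : 522 / 1000 ≤ c
  c1 : c ≤ 1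
  s0 : 0 ≤ s
  C0 : 0 < C
  sc : s ^ 2 + c ^ 2 = 1
  CC : C ^ 2 = 1 + 299209 / 1000000 * c ^ 2

theorem Ln.C1 {c s C : ℝ} (h : Ln c s C) : 1 ≤ C := by
  have h1 := h.CC
  have h2 := h.C0
  have h3 := sq_nonneg c
  nlinarith

theorem Ln.Cle {c s C c' s' C' : ℝ} (h : Ln c s C) (h' : Ln c' s' C') (hcc : c ≤ c') : C ≤ C' := by
  apply le_of_sq_le_sq _ h'.C0.le
  rw [h.CC, h'.CC]
  have := h.c0
  have h2 : c ^ 2 ≤ c' ^ 2 := pow_le_pow_left₀ (by linarith) hcc 2
  linarith

/-- The first coordinate of `sinh q`. -/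
noncomputable def XX (c s C c' s' C' : ℝ) : ℝ :=
  c' * (s * C' + 299209 / 1000000 * C * s') / (c * (1299209 / 1000000))

theorem XX_nonneg {c s C c' s' C' : ℝ} (h : Ln c s C) (h' : Ln c' s' C') :
    0 ≤ XX c s C c' s' C' := by
  have h1 := h.c0
  have h2 := h'.c0
  have h3 := h.s0
  have h4 := h'.s0
  have h5 := h.C0
  have h6 := h'.C0
  unfold XX
  apply div_nonneg
  · have : 0 ≤ c' := by linarith
    positivity
  · have : 0 ≤ c := by linarith
    positivity

theorem cube_mono {x y : ℝ} (h0 : 0 ≤ x) (h : x ≤ y) (hy : y ^ 2 ≤ 2) :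
    x - x ^ 3 / 6 ≤ y - y ^ 3 / 6 := by
  have h1 : x ^ 2 + x * y + y ^ 2 ≤ 6 := by nlinarith
  have h2 : 0 ≤ (y - x) * (6 - (x ^ 2 + x * y + y ^ 2)) :=
    mul_nonneg (by linarith) (by linarith)
  nlinarith

/-- **The larger point moves.** -/
theorem ea_big {c s C c' s' C' : ℝ} (h : Ln c s C) (h' : Ln c' s' C') (hcc : c ≤ c') :
    8593 / 10000 * s ≤ Real.arsinh (XX c s C c' s' C') * C := by
  have c0 := h.c0
  have c1 := h.c1
  have s0 := h.s0
  have C0 := h.C0
  have C1 := h.C1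
  have sc := h.sc
  have CC := h.CC
  have c0' := h'.c0
  have s0' := h'.s0
  have sc' := h'.sc
  have hCC := h.Cle h' hcc
  have hss : s' ≤ s := by
    apply le_of_sq_le_sq _ s0
    nlinarith
  -- the lower bound of `X`
  obtain ⟨X0, hX0⟩ : ∃ X0, X0 = C * ((s - s') + 1299209 / 1000000 * c * s') /
      (c * (1299209 / 1000000)) := ⟨_, rfl⟩
  have k1 : X0 ≤ XX c s C c' s' C' := by
    rw [hX0, XX]
    apply div_le_div_of_nonneg_right _ (by positivity)
    have k := ea_lin (τ := 299209 / 1000000) (by linarith : 0 < c) c1 s0' hss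
      (by linarith : 0 < c') sc sc' (by norm_num)
    have k2 := mul_le_mul_of_nonneg_left k C0.le
    have k3 : c' * s * C ≤ c' * s * C' := by
      apply mul_le_mul_of_nonneg_left hCC
      have : 0 ≤ c' := by linarith
      positivity
    norm_num at k2
    nlinarith
  -- two cases
  obtain ⟨m, hm, hm0, hm1, hm2⟩ : ∃ m : ℝ, m * s ≤ X0 / C ∧ 0 ≤ m ∧ m ≤ 1 ∧
      (m = 1 ∨ (m * (c * (1299209 / 1000000)) = 1 ∧ 1 ≤ c * (1299209 / 1000000))) := by
    have cp : 0 < c * (1299209 / 1000000) := by positivity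
    have eX : X0 / C = ((s - s') + 1299209 / 1000000 * c * s') / (c * (1299209 / 1000000)) := by
      rw [hX0]; field_simp
    rcases le_total (c * (1299209 / 1000000)) 1 with g | g
    · refine ⟨1, ?_, zero_le_one, le_rfl, Or.inl rfl⟩
      rw [eX, le_div_iff₀ cp]
      nlinarith
    · refine ⟨1 / (c * (1299209 / 1000000)), ?_, by positivity, by
        rw [div_le_one cp]; exact g, Or.inr ⟨by field_simp, g⟩⟩
      rw [eX, one_div_mul_eq_div]
      apply div_le_div_of_nonneg_right _ cp.le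
      nlinarith
  have k2 : C * (m * s) ≤ XX c s C c' s' C' := by
    have := mul_le_mul_of_nonneg_left hm C0.le
    rw [mul_div_cancel₀ _ C0.ne'] at this
    exact this.trans k1
  obtain ⟨x, hx⟩ : ∃ x, x = C * (m * s) := ⟨_, rfl⟩
  have x0 : 0 ≤ x := by rw [hx]; positivity
  have k3 : x - x ^ 3 / 6 ≤ Real.arsinh (XX c s C c' s' C') :=
    (ea_arsinh_ge x0).trans (Real.arsinh_le_arsinh.2 (by rw [hx]; exact k2))
  have k4 : 8593 / 10000 * s ≤ (x - x ^ 3 / 6) * C := by
    have ex : (x - x ^ 3 / 6) * C = s * (m * C ^ 2 * (1 - x ^ 2 / 6)) := by rw [hx]; ring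
    rw [ex, mul_comm]
    apply mul_le_mul_of_nonneg_left _ s0
    have hxx : x ^ 2 = C ^ 2 * s ^ 2 * m ^ 2 := by rw [hx]; ring
    have s2 : s ^ 2 = 1 - c ^ 2 := by linarith
    have cc : 272484 / 1000000 ≤ c ^ 2 := by
      have := pow_le_pow_left₀ (by norm_num) c0 2
      norm_num at this ⊢
      exact this
    have cc1 : c ^ 2 ≤ 1 := by nlinarith
    rcases hm2 with g | ⟨g, g2⟩
    · -- `m = 1`
      rw [hxx, g, s2, CC, one_pow, mul_one, one_mul]
      generalize c ^ 2 = p at *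
      nlinarith [mul_nonneg (sub_nonneg.2 cc) (sub_nonneg.2 cc1)]
    · have cc2 : 592 / 1000 ≤ c ^ 2 := by nlinarith
      have hx2 : x ^ 2 ≤ 49 / 100 := by
        have hm3 : m ^ 2 ≤ 1 := by nlinarith
        have h1 : 0 ≤ C ^ 2 * s ^ 2 := by positivity
        have h2 : C ^ 2 * s ^ 2 ≤ 49 / 100 := by
          rw [s2, CC]
          generalize c ^ 2 = p at *
          nlinarith
        rw [hxx]
        nlinarith
      have h3 : 91 / 100 ≤ 1 - x ^ 2 / 6 := by linarith
      have h4 : 8593 / 10000 ≤ m * C ^ 2 * (91 / 100) := by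
        -- multiply by `c (1 + T²)`
        have h5 : 8593 / 10000 * (c * (1299209 / 1000000)) ≤ C ^ 2 * (91 / 100) := by
          rw [CC]
          nlinarith
        have h6 := mul_le_mul_of_nonneg_left h5 hm0
        have e7 : m * (8593 / 10000 * (c * (1299209 / 1000000))) = 8593 / 10000 := by
          linear_combination (8593 / 10000) * g
        rw [e7] at h6
        linarith
      refine h4.trans (mul_le_mul_of_nonneg_left h3 (by positivity))
  exact k4.trans (mul_le_mul_of_nonneg_right k3 C0.le)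

/-! ### The inequality for the smaller point -/

/-- The quartic. -/
theorem ea_quartic {t : ℝ} (h0 : 0 ≤ t) (h1 : t ≤ 1634 / 1000) :
    8593 / 10000 * t ≤ ((474 / 1000 * t + 973 / 10000) - (474 / 1000 * t + 973 / 10000) ^ 3 / 6 +
      1 / 20) * (9521 / 10000 + 5496 / 10000 * t) := by
  nlinarith [sq_nonneg (t - 784 / 1000), mul_nonneg h0 (sub_nonneg.2 h1),
    mul_nonneg (mul_nonneg h0 (sub_nonneg.2 h1)) h0, mul_nonneg h0 (sq_nonneg (t - 784 / 1000)),
    mul_nonneg (mul_nonneg h0 (sub_nonneg.2 h1)) (sq_nonneg (t - 784 / 1000)),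
    mul_nonneg (mul_nonneg h0 (sub_nonneg.2 h1)) (mul_nonneg h0 (sub_nonneg.2 h1))]

/-- **The smaller point moves**, the larger point is at the corner. -/
theorem ea_small {c s C c' s' C' : ℝ} (h : Ln c s C) (h' : Ln c' s' C')
    (hc' : c' ≤ 5242 / 10000) :
    8593 / 10000 * s ≤ (Real.arsinh (XX c s C c' s' C') + 1 / 20) * C := by
  have c0 := h.c0
  have c1 := h.c1
  have s0 := h.s0
  have C0 := h.C0
  have sc := h.sc
  have CC := h.CC
  have c0' := h'.c0
  have s0' := h'.s0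
  have sc' := h'.sc
  have CC' := h'.CC
  have C0' := h'.C0
  have cp : 0 < c := by linarith
  -- the numbers at the corner
  have b1 : 8515 / 10000 ≤ s' := by
    by_contra hcon
    push Not at hcon
    nlinarith
  have b2 : 10399 / 10000 ≤ C' := by
    by_contra hcon
    push Not at hcon
    nlinarith
  have b3 : 54282 / 100000 ≤ c' * C' := by
    have := mul_le_mul c0' b2 (by norm_num) (by linarith)
    linarith
  have b4 : 4444 / 10000 ≤ c' * s' := by
    have := mul_le_mul c0' b1 (by norm_num) (by linarith)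
    linarith
  obtain ⟨t, ht⟩ : ∃ t, t = s / c := ⟨_, rfl⟩
  obtain ⟨B, hB⟩ : ∃ B, B = C / c := ⟨_, rfl⟩
  have es : s = t * c := by rw [ht]; field_simp
  have eC : C = B * c := by rw [hB]; field_simp
  have t0 : 0 ≤ t := by rw [ht]; positivity
  have B0 : 0 < B := by rw [hB]; positivity
  have ec : c ^ 2 * (1 + t ^ 2) = 1 := by rw [es] at sc; linarith
  have eB : B ^ 2 = 1299209 / 1000000 + t ^ 2 := by
    have h1 : c ^ 2 * B ^ 2 = c ^ 2 * (1299209 / 1000000 + t ^ 2) := by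
      rw [eC] at CC
      linear_combination CC - ec
    exact mul_left_cancel₀ (pow_ne_zero 2 cp.ne') h1
  have t1 : t ≤ 1634 / 1000 := by
    by_contra hcon
    push Not at hcon
    have h2 : (522 / 1000 : ℝ) ^ 2 ≤ c ^ 2 := pow_le_pow_left₀ (by norm_num) c0 2
    have h3 : (1634 / 1000 : ℝ) ^ 2 < t ^ 2 := pow_lt_pow_left₀ hcon (by norm_num) (by norm_num)
    norm_num at h2 h3
    nlinarith
  have Bt : 9521 / 10000 + 5496 / 10000 * t ≤ B := by
    apply le_of_sq_le_sq _ B0.le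
    rw [eB]
    nlinarith [sq_nonneg (t - 7497 / 10000)]
  have eX : XX c s C c' s' C' = (c' * C' / (1299209 / 1000000)) * t +
      (299209 / 1000000 * (c' * s') / (1299209 / 1000000)) * B := by
    rw [XX, es, eC]
    field_simp
  have q1 : 4178 / 10000 ≤ c' * C' / (1299209 / 1000000) := by
    rw [le_div_iff₀ (by norm_num)]; linarith
  have q2 : 1023 / 10000 ≤ 299209 / 1000000 * (c' * s') / (1299209 / 1000000) := by
    rw [le_div_iff₀ (by norm_num)]; linarith
  have q3 : 474 / 1000 * t + 973 / 10000 ≤ XX c s C c' s' C' := by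
    rw [eX]
    have r1 := mul_le_mul_of_nonneg_right q1 t0
    have r2 := mul_le_mul_of_nonneg_right q2 B0.le
    linarith
  obtain ⟨x, hx⟩ : ∃ x, x = 474 / 1000 * t + 973 / 10000 := ⟨_, rfl⟩
  have x0 : 0 ≤ x := by rw [hx]; positivity
  have x1 : x ≤ 88 / 100 := by rw [hx]; linarith
  have k := ea_quartic t0 t1
  rw [← hx] at q3 k
  have k2 : x - x ^ 3 / 6 ≤ Real.arsinh (XX c s C c' s' C') :=
    (ea_arsinh_ge x0).trans (Real.arsinh_le_arsinh.2 q3)
  have k3 : 0 ≤ x - x ^ 3 / 6 + 1 / 20 := by nlinarith [mul_nonneg x0 x0]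
  have k4 := mul_le_mul_of_nonneg_left Bt k3
  have k5 : 8593 / 10000 * t ≤ (Real.arsinh (XX c s C c' s' C') + 1 / 20) * B := by
    have := mul_le_mul_of_nonneg_right k2 B0.le
    nlinarith
  have k6 := mul_le_mul_of_nonneg_right k5 cp.le
  rw [es, show (Real.arsinh (XX c (t * c) C c' s' C') + 1 / 20) * C =
    (Real.arsinh (XX c s C c' s' C') + 1 / 20) * B * c by rw [← es, eC]; ring]
  linarith

end Pool.Agent.MX
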