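import Pool.Agent.MX.S.EndA

/-!
# Edges with equal signs, the value at the ends: the moves along the line of level `547 / 1000`
-/

set_option autoImplicit false

namespace Pool.Agent.MX

open Complex Pool.Agent.S3

/-- The height of the line. -/
noncomputable def tS : ℝ := Real.arctan (547 / 1000)

theorem tan_tS : Real.tan tS = 547 / 1000 := Real.tan_arctan _

theorem tS_pos : 0 < tS := Real.arctan_pos.2 (by norm_num)

theorem tS_lt : tS < Real.pi / 4 := by
  rw [← Real.arctan_one]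
  exact Real.arctan_strictMono (by norm_num)

theorem tS_abs : |tS| < Real.pi / 2 := by
  rw [abs_of_pos tS_pos]
  linarith [tS_lt, Real.pi_pos]

theorem reg_tS (x x' : ℝ) : Reg (UU x tS) (UU x' tS) := by
  apply Reg_UU
  rw [abs_of_pos tS_pos]
  linarith [tS_lt]

theorem sinh_gd {u : ℂ} (h : |u.im| < Real.pi / 2) : sinh u = tan (gd u) := by
  rw [← sinh_igd, igd_gd h]

theorem ln_line {x : ℝ} (h0 : 0 ≤ x) (h1 : (gd (UU x tS)).re ≤ 13 / 40 * Real.pi) :
    Ln (Real.cos (gd (UU x tS)).re) (Real.sin (gd (UU x tS)).re) (Real.cosh (gd (UU x tS)).im) := by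
  have r0 := gd_line_re_nonneg tS_abs h0
  have hpi := Real.pi_pos
  refine ⟨cos_R1_ge r0 h1, Real.cos_le_one _, Real.sin_nonneg_of_nonneg_of_le_pi r0
    (by linarith), Real.cosh_pos _, Real.sin_sq_add_cos_sq _, ?_⟩
  have h2 := Real.cosh_sq (gd (UU x tS)).im
  rw [gd_line_sinh tS_abs, tan_tS] at h2
  rw [h2]
  ring

/-- The bounds of `q` on the lines. -/
theorem qS_bounds {x x' : ℝ} (hx : 0 ≤ x) (hx' : 0 ≤ x')
    (h1 : (gd (UU x tS)).re ≤ 13 / 40 * Real.pi) (h1' : (gd (UU x' tS)).re ≤ 13 / 40 * Real.pi) :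
    Real.arsinh (XX (Real.cos (gd (UU x tS)).re) (Real.sin (gd (UU x tS)).re)
      (Real.cosh (gd (UU x tS)).im) (Real.cos (gd (UU x' tS)).re) (Real.sin (gd (UU x' tS)).re)
      (Real.cosh (gd (UU x' tS)).im)) ≤ (qq (UU x tS) (UU x' tS)).re ∧
    0 ≤ (qq (UU x tS) (UU x' tS)).im := by
  have a1 : |(UU x tS).im| < Real.pi / 2 := by rw [UU_im]; exact tS_abs
  have a2 : |(UU x' tS).im| < Real.pi / 2 := by rw [UU_im]; exact tS_abs
  have l1 := ln_line hx h1
  have l2 := ln_line hx' h1'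
  have r0 := gd_line_re_nonneg tS_abs hx
  have hpi := Real.pi_pos
  have aR : |(gd (UU x tS)).re| < Real.pi / 2 := by
    rw [abs_of_nonneg r0]; linarith
  have k := ea_tan_cos (T := 547 / 1000) (η := (gd (UU x tS)).im) (R' := (gd (UU x' tS)).re)
    (η' := (gd (UU x' tS)).im) aR (by rw [gd_line_sinh tS_abs, tan_tS])
    (by rw [gd_line_sinh tS_abs, tan_tS])
  rw [UU_eta, UU_eta, ← sinh_gd a1, cos_gd a2, mul_one_div] at k
  have hs := sinh_qq (UU x tS) (UU x' tS)
  rw [k] at hs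
  have hq := qq_im_lt (reg_tS x x')
  have hc := cos_pos' hq
  have e1 := congrArg Complex.re hs
  have e2 := congrArg Complex.im hs
  rw [UU_re, sinh_re'] at e1
  rw [UU_im, sinh_im'] at e2
  have eX : Real.cos (gd (UU x' tS)).re * (Real.sin (gd (UU x tS)).re *
      Real.cosh (gd (UU x' tS)).im + (547 / 1000) ^ 2 * Real.cosh (gd (UU x tS)).im *
      Real.sin (gd (UU x' tS)).re) / (Real.cos (gd (UU x tS)).re * (1 + (547 / 1000) ^ 2)) =
      XX (Real.cos (gd (UU x tS)).re) (Real.sin (gd (UU x tS)).re)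
      (Real.cosh (gd (UU x tS)).im) (Real.cos (gd (UU x' tS)).re) (Real.sin (gd (UU x' tS)).re)
      (Real.cosh (gd (UU x' tS)).im) := by
    unfold XX
    norm_num
  rw [eX] at e1
  have X0 := XX_nonneg l1 l2
  constructor
  · rw [← Real.sinh_le_sinh, Real.sinh_arsinh, ← e1]
    have hc1 := Real.cos_le_one (qq (UU x tS) (UU x' tS)).im
    have s0 : 0 ≤ Real.sinh (qq (UU x tS) (UU x' tS)).re := by
      rw [← e1] at X0
      exact nonneg_of_mul_nonneg_left X0 hc
    nlinarith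
  · have Y0 : 0 ≤ Real.cosh (qq (UU x tS) (UU x' tS)).re *
        Real.sin (qq (UU x tS) (UU x' tS)).im := by
      rw [e2]
      have c1 := l1.c0
      have c2 := l2.c0
      have C1 := l1.C1
      have C2 := l2.C1
      have m1 := Real.sin_le_one (gd (UU x tS)).re
      have m2 := Real.sin_le_one (gd (UU x' tS)).re
      have m3 := mul_le_mul m1 m2 l2.s0 zero_le_one
      have m4 := mul_le_mul C1 C2 zero_le_one (by linarith)
      apply div_nonneg
      · apply mul_nonneg
        · have : 0 ≤ Real.cos (gd (UU x' tS)).re := by linarith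
          positivity
        · linarith
      · have : 0 ≤ Real.cos (gd (UU x tS)).re := by linarith
        positivity
    have h2 : 0 ≤ Real.sin (qq (UU x tS) (UU x' tS)).im :=
      nonneg_of_mul_nonneg_right Y0 (Real.cosh_pos _)
    by_contra hc'
    push Not at hc'
    have := Real.sin_neg_of_neg_of_neg_pi_lt hc' (by linarith [(abs_lt.1 hq).1])
    linarith

theorem pi_half_T : Real.pi / 2 * (547 / 1000) ≤ 8593 / 10000 := by
  linarith [Real.pi_lt_d4]

/-- The inequality at the larger point. -/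
theorem key_big {x x' : ℝ} (hx' : 0 ≤ x') (hxx : x' ≤ x)
    (h1 : (gd (UU x tS)).re ≤ 13 / 40 * Real.pi) :
    (Real.pi / 2 - (qq (UU x tS) (UU x' tS)).im) *
        (Real.sin (gd (UU x tS)).re * Real.sinh (gd (UU x tS)).im) ≤
      (qq (UU x tS) (UU x' tS)).re *
        (Real.cos (gd (UU x tS)).re * Real.cosh (gd (UU x tS)).im) := by
  have hx := hx'.trans hxx
  have hm : (gd (UU x' tS)).re ≤ (gd (UU x tS)).re := (gd_line_mono tS_abs).monotone hxx
  have h1' := hm.trans h1
  obtain ⟨q1, q2⟩ := qS_bounds hx hx' h1 h1'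
  have l1 := ln_line hx h1
  have l2 := ln_line hx' h1'
  have r0' := gd_line_re_nonneg tS_abs hx'
  have hpi := Real.pi_pos
  have hcc : Real.cos (gd (UU x tS)).re ≤ Real.cos (gd (UU x' tS)).re :=
    Real.cos_le_cos_of_nonneg_of_le_pi r0' (by linarith) hm
  have k := ea_big l1 l2 hcc
  have c0 : 0 < Real.cos (gd (UU x tS)).re := by linarith [l1.c0]
  rw [gd_line_sinh tS_abs, tan_tS]
  have p1 : (Real.pi / 2 - (qq (UU x tS) (UU x' tS)).im) * (547 / 1000) ≤ 8593 / 10000 := by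
    linarith [pi_half_T]
  have p2 := mul_le_mul_of_nonneg_right p1 l1.s0
  have p3 := mul_le_mul_of_nonneg_right q1 l1.C0.le
  have p4 := mul_le_mul_of_nonneg_right (p2.trans (k.trans p3)) c0.le
  linarith

/-- The inequality at the smaller point. -/
theorem key_small {x x' : ℝ} (hx : 0 ≤ x) (hx' : 0 ≤ x')
    (h1 : (gd (UU x tS)).re ≤ 13 / 40 * Real.pi) (h1' : (gd (UU x' tS)).re = 13 / 40 * Real.pi) :
    (Real.pi / 2 - (qq (UU x tS) (UU x' tS)).im) *
        (Real.sin (gd (UU x tS)).re * Real.sinh (gd (UU x tS)).im) ≤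
      ((qq (UU x tS) (UU x' tS)).re + 1 / 20) *
        (Real.cos (gd (UU x tS)).re * Real.cosh (gd (UU x tS)).im) := by
  obtain ⟨q1, q2⟩ := qS_bounds hx hx' h1 h1'.le
  have l1 := ln_line hx h1
  have l2 := ln_line hx' h1'.le
  have hc' : Real.cos (gd (UU x' tS)).re ≤ 5242 / 10000 := by rw [h1']; exact cos_R1_le
  have k := ea_small l1 l2 hc'
  have c0 : 0 < Real.cos (gd (UU x tS)).re := by linarith [l1.c0]
  rw [gd_line_sinh tS_abs, tan_tS]
  have p1 : (Real.pi / 2 - (qq (UU x tS) (UU x' tS)).im) * (547 / 1000) ≤ 8593 / 10000 := by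
    linarith [pi_half_T]
  have p2 := mul_le_mul_of_nonneg_right p1 l1.s0
  have p3 := mul_le_mul_of_nonneg_right (add_le_add_left q1 (1 / 20)) l1.C0.le
  have p4 := mul_le_mul_of_nonneg_right (p2.trans (k.trans p3)) c0.le
  linarith

section

variable {Φ : ℂ → ℂ → ℂ} {θ : ℝ}

/-- To the right along a line, with a loss. -/
theorem line_loss (hΦ : IsPhi Φ) {w : ℂ} (hr : ∀ x, Reg (UU x θ) w) {x y : ℝ} (hxy : x ≤ y)
    {κ : ℝ} (hs : ∀ s, x ≤ s → s ≤ y → (Real.pi / 2 - (qq (UU s θ) w).im) *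
          (Real.sin (gd (UU s θ)).re * Real.sinh (gd (UU s θ)).im) ≤ ((qq (UU s θ) w).re + κ) *
          (Real.cos (gd (UU s θ)).re * Real.cosh (gd (UU s θ)).im)) :
    FP Φ (gd (UU y θ)) (gd w) - (gd (UU y θ)).im - 2 / Real.pi * κ * (gd (UU y θ)).re ≤
      FP Φ (gd (UU x θ)) (gd w) - (gd (UU x θ)).im - 2 / Real.pi * κ * (gd (UU x θ)).re := by
  have hd : ∀ s, HasDerivAt (fun x : ℝ => FP Φ (gd (UU x θ)) (gd w) - (gd (UU x θ)).im -
      2 / Real.pi * κ * (gd (UU x θ)).re)
      (-(2 / Real.pi) * (((qq (UU s θ) w).re + κ) *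
          (Real.cos (gd (UU s θ)).re * Real.cosh (gd (UU s θ)).im) -
        (Real.pi / 2 - (qq (UU s θ) w).im) *
          (Real.sin (gd (UU s θ)).re * Real.sinh (gd (UU s θ)).im))) s := by
    intro s
    have h1 := hasDerivAt_FP_line hΦ (hr s)
    have h' : |θ| < Real.pi / 2 := by simpa using (hr s).left
    have h2 : HasDerivAt (fun x : ℝ => (gd (UU x θ)).re) (cos (gd (UU s θ))).re s :=
      hasDerivAt_re (hasDerivAt_gd_cos h' s)
    rw [wcos_re] at h2
    refine (h1.sub (h2.const_mul (2 / Real.pi * κ))).congr_deriv ?_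
    ring
  have key : AntitoneOn (fun x : ℝ => FP Φ (gd (UU x θ)) (gd w) - (gd (UU x θ)).im -
      2 / Real.pi * κ * (gd (UU x θ)).re) (Set.Icc x y) := by
    apply antitoneOn_of_deriv_nonpos (convex_Icc x y)
    · exact fun s _ => (hd s).continuousAt.continuousWithinAt
    · exact fun s _ => (hd s).differentiableAt.differentiableWithinAt
    · intro s hs'
      rw [interior_Icc] at hs'
      rw [(hd s).deriv, neg_mul, neg_nonpos]
      apply mul_nonneg
      · have := Real.pi_pos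
        positivity
      · linarith [hs s hs'.1.le hs'.2.le]
  exact key ⟨le_rfl, hxy⟩ ⟨hxy, le_rfl⟩ hxy

/-- The value of a pair on the lines is at least the value at the corner minus `13 / 400`. -/
theorem lines_corner (hΦ : IsPhi Φ) {x x' x1 : ℝ} (hx' : 0 ≤ x') (hxx : x' ≤ x)
    (hx1 : (gd (UU x1 tS)).re = 13 / 40 * Real.pi) (hx : x ≤ x1) :
    FP Φ (gd (UU x1 tS)) (gd (UU x1 tS)) - 2 * (gd (UU x1 tS)).im - 13 / 400 ≤
      FP Φ (gd (UU x tS)) (gd (UU x' tS)) - (gd (UU x tS)).im - (gd (UU x' tS)).im := by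
  have hpi := Real.pi_pos
  have m : ∀ {s : ℝ}, s ≤ x1 → (gd (UU s tS)).re ≤ 13 / 40 * Real.pi := fun {s} hs => by
    have : (gd (UU s tS)).re ≤ (gd (UU x1 tS)).re := (gd_line_mono tS_abs).monotone hs
    rwa [hx1] at this
  -- the larger point
  have k1 := line_down hΦ (w := UU x' tS) (fun s => reg_tS s x') hx
    (fun s h1 h2 => key_big hx' (hxx.trans h1) (m h2))
  -- the smaller point
  have x10 : 0 ≤ x1 := (hx'.trans hxx).trans hx
  have k2 := line_loss hΦ.swap (w := UU x1 tS) (κ := 1 / 20) (fun s => reg_tS s x1)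
    (hxx.trans hx) (fun s h1 h2 => key_small (hx'.trans h1) x10 (m h2) hx1)
  have e3 : FP (fun v w => Φ w v) (gd (UU x1 tS)) (gd (UU x1 tS)) =
      FP Φ (gd (UU x1 tS)) (gd (UU x1 tS)) := rfl
  have e4 : FP (fun v w => Φ w v) (gd (UU x' tS)) (gd (UU x1 tS)) =
      FP Φ (gd (UU x1 tS)) (gd (UU x' tS)) := rfl
  rw [e3, e4, hx1] at k2
  have r0 := gd_line_re_nonneg tS_abs hx'
  have e1 : 2 / Real.pi * (1 / 20) * (13 / 40 * Real.pi) = 13 / 400 := by
    field_simp
    norm_num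
  rw [e1] at k2
  have e2 : 0 ≤ 2 / Real.pi * (1 / 20) * (gd (UU x' tS)).re := by positivity
  linarith

end

end Pool.Agent.MX
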