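import Pool.Agent.MX.S.EndB

/-!
# Edges with equal signs, the value at the ends: the corner

On the diagonal `q = arsh (sin P)`.
-/

set_option autoImplicit false

namespace Pool.Agent.MX

open Complex Pool.Agent.S3

section

variable {Φ : ℂ → ℂ → ℂ}

/-- `sinh q = sin P` on the diagonal. -/
theorem sinh_qq_diag {P : ℂ} (h : |P.re| < Real.pi / 2) : sinh (igd P) / cosh (igd P) = sin P := by
  rw [sinh_igd, cosh_igd h, Complex.tan_eq_sin_div_cos]
  have := cos_ne' h
  field_simp

theorem dg_hor (hΦ : IsPhi Φ) {s : ℝ} (hs : |s| < Real.pi / 2) :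
    HasDerivAt (fun s => FP Φ (UU s 0) (UU s 0)) (-(4 / Real.pi) * Real.arsinh (Real.sin s)) s := by
  have him := igd_real_im hs
  have hr : Reg (igd (UU s 0)) (igd (UU s 0)) := by
    unfold Reg
    rw [him, abs_zero, add_zero]
    have := Real.pi_pos
    positivity
  have d1 : HasDerivAt (fun s : ℝ => igd (UU s 0)) (cosh (igd (UU s 0))) s := by
    have := HasDerivAt.scomp (g₁ := igd) (h := fun s : ℝ => UU s 0) s
      (hasDerivAt_igd (UU_re_lt hs)) (hasDerivAt_UU s 0)
    refine this.congr_deriv ?_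
    rw [smul_eq_mul, one_mul]
  have h1 := hΦ.deriv (fun s => igd (UU s 0)) (fun s => igd (UU s 0)) _ _ s hr d1 d1
  have h2 := hasDerivAt_re h1
  have e : (fun s => FP Φ (UU s 0) (UU s 0)) =ᶠ[nhds s]
      (fun s : ℝ => (Φ (gd (igd (UU s 0)) / (Real.pi : ℂ))
        (gd (igd (UU s 0)) / (Real.pi : ℂ))).re) := by
    have hn : ∀ᶠ t in nhds s, |t| < Real.pi / 2 :=
      (continuous_abs.continuousAt).eventually_lt_const hs
    filter_upwards [hn] with t ht
    rw [gd_igd (UU_re_lt ht), FP]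
  refine (h2.congr_of_eventuallyEq e).congr_deriv ?_
  have hpi : (Real.pi : ℂ) ≠ 0 := by exact_mod_cast Real.pi_ne_zero
  have hc : cosh (igd (UU s 0)) ≠ 0 := cosh_ne hr.left
  obtain ⟨q, hq⟩ : ∃ q, q = qq (igd (UU s 0)) (igd (UU s 0)) := ⟨_, rfl⟩
  have e2 : -2 * qq (igd (UU s 0)) (igd (UU s 0)) * (cosh (igd (UU s 0))) /
      ((Real.pi : ℂ) * cosh (igd (UU s 0))) -
      2 * qq (igd (UU s 0)) (igd (UU s 0)) * (cosh (igd (UU s 0))) /
      ((Real.pi : ℂ) * cosh (igd (UU s 0))) =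
      ((-(4 / Real.pi) : ℝ) : ℂ) * q := by
    rw [← hq]
    push_cast
    field_simp
    ring
  rw [e2, re_ofReal_mul]
  congr 1
  have hs2 := sinh_qq (igd (UU s 0)) (igd (UU s 0))
  rw [← hq, sinh_qq_diag (UU_re_lt hs)] at hs2
  have e3 : UU s 0 = (s : ℂ) := by rw [UU, ofReal_zero, zero_mul, add_zero]
  rw [e3, ← ofReal_sin] at hs2
  have f1 := congrArg Complex.re hs2
  have f2 := congrArg Complex.im hs2
  rw [sinh_re', ofReal_re] at f1
  rw [sinh_im', ofReal_im] at f2
  have hqi : |q.im| < Real.pi / 2 := by rw [hq]; exact qq_im_lt hr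
  have f3 : Real.sin q.im = 0 := by
    rcases mul_eq_zero.1 f2 with h | h
    · exact absurd h (Real.cosh_pos _).ne'
    · exact h
  have f4 : q.im = 0 := by
    have h3 := abs_lt.1 hqi
    have hpi := Real.pi_pos
    exact (Real.sin_eq_zero_iff_of_lt_of_lt (by linarith) (by linarith)).1 f3
  rw [f4, Real.cos_zero, mul_one] at f1
  rw [← f1, Real.arsinh_sinh]

theorem dg_vert (hΦ : IsPhi Φ) {R s : ℝ} (hR : |R| < Real.pi / 2)
    (h : Reg (igd (UU R s)) (igd (UU R s))) :
    HasDerivAt (fun s => FP Φ (UU R s) (UU R s))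
      (4 / Real.pi * (qq (igd (UU R s)) (igd (UU R s))).im) s := by
  have h1 := hΦ.deriv (fun s => igd (UU R s)) (fun s => igd (UU R s)) _ _ s h
    (hasDerivAt_igd_line hR s) (hasDerivAt_igd_line hR s)
  have h2 := hasDerivAt_re h1
  have e : (fun s : ℝ => (Φ (gd (igd (UU R s)) / (Real.pi : ℂ))
      (gd (igd (UU R s)) / (Real.pi : ℂ))).re) = fun s => FP Φ (UU R s) (UU R s) := by
    funext t
    rw [gd_igd (UU_re_lt hR), FP]
  rw [e] at h2
  refine h2.congr_deriv ?_
  have hpi : (Real.pi : ℂ) ≠ 0 := by exact_mod_cast Real.pi_ne_zero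
  have hc : cosh (igd (UU R s)) ≠ 0 := cosh_ne h.left
  have e2 : -2 * qq (igd (UU R s)) (igd (UU R s)) * (I * cosh (igd (UU R s))) /
      ((Real.pi : ℂ) * cosh (igd (UU R s))) -
      2 * qq (igd (UU R s)) (igd (UU R s)) * (I * cosh (igd (UU R s))) /
      ((Real.pi : ℂ) * cosh (igd (UU R s))) =
      ((-4 / Real.pi : ℝ) : ℂ) * (qq (igd (UU R s)) (igd (UU R s)) * I) := by
    push_cast
    field_simp
    ring
  rw [e2, re_ofReal_mul, mul_re, I_re, I_im]
  ring

/-- A primitive of the bound of `arsinh (sin s)`. -/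
noncomputable def Pc (c : ℝ) : ℝ := 109 / 120 * c + c ^ 3 / 180 + 3 / 200 * c ^ 5

theorem corner_real (hΦ : IsPhi Φ) (h0 : Φ 0 0 = c00) {R : ℝ} (R0 : 0 ≤ R) (hR : R < Real.pi / 2) :
    c00.re - 4 / Real.pi * (Pc 1 - Pc (Real.cos R)) ≤ FP Φ (UU R 0) (UU R 0) := by
  have hpi := Real.pi_pos
  have ab : ∀ s ∈ Set.Icc (0 : ℝ) R, |s| < Real.pi / 2 := fun s hs => by
    rw [abs_of_nonneg hs.1]; linarith [hs.2]
  have hd : ∀ s ∈ Set.Icc (0 : ℝ) R, HasDerivAt
      (fun s => FP Φ (UU s 0) (UU s 0) - 4 / Real.pi * Pc (Real.cos s))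
      (-(4 / Real.pi) * Real.arsinh (Real.sin s) +
        4 / Real.pi * (Real.sin s - Real.sin s ^ 3 / 6 + 3 * Real.sin s ^ 5 / 40)) s := by
    intro s hs
    have k1 := dg_hor hΦ (ab s hs)
    have k2 : HasDerivAt (fun s => Pc (Real.cos s))
        (109 / 120 * (-Real.sin s) + ((3 : ℕ) * Real.cos s ^ (3 - 1) * (-Real.sin s)) / 180 +
          3 / 200 * ((5 : ℕ) * Real.cos s ^ (5 - 1) * (-Real.sin s))) s := by
      have c := Real.hasDerivAt_cos s
      exact ((c.const_mul (109 / 120)).add ((c.pow 3).div_const 180)).add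
        ((c.pow 5).const_mul (3 / 200))
    refine (k1.sub (k2.const_mul (4 / Real.pi))).congr_deriv ?_
    have hsc : Real.cos s ^ 2 = 1 - Real.sin s ^ 2 := by
      have := Real.sin_sq_add_cos_sq s
      linarith
    have e4 : Real.cos s ^ 4 = (1 - Real.sin s ^ 2) ^ 2 := by rw [← hsc]; ring
    norm_num
    rw [hsc, e4]
    ring
  have key : MonotoneOn (fun s => FP Φ (UU s 0) (UU s 0) - 4 / Real.pi * Pc (Real.cos s))
      (Set.Icc 0 R) := by
    apply monotoneOn_of_deriv_nonneg (convex_Icc 0 _)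
    · exact fun t ht => (hd t ht).continuousAt.continuousWithinAt
    · intro t ht
      exact (hd t (interior_subset ht)).differentiableAt.differentiableWithinAt
    · intro t ht
      rw [(hd t (interior_subset ht)).deriv]
      rw [interior_Icc] at ht
      have s0 : 0 ≤ Real.sin t := Real.sin_nonneg_of_nonneg_of_le_pi ht.1.le
        (by linarith [ht.2])
      have k := ea_arsinh_le s0
      have : 0 ≤ 4 / Real.pi * (Real.sin t - Real.sin t ^ 3 / 6 + 3 * Real.sin t ^ 5 / 40 -
          Real.arsinh (Real.sin t)) := mul_nonneg (by positivity) (by linarith)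
      linarith
  have k := key ⟨le_rfl, R0⟩ ⟨R0, le_rfl⟩ R0
  beta_reduce at k
  have z0 : UU 0 0 = 0 := by
    apply Complex.ext
    · rw [UU_re, zero_re]
    · rw [UU_im, zero_im]
  rw [z0, FP, zero_div, h0, Real.cos_zero] at k
  linarith

theorem corner_vert (hΦ : IsPhi Φ) {R η : ℝ} (hR0 : 0 ≤ R) (hR : R < Real.pi / 2)
    (c0 : 522 / 1000 ≤ Real.cos R) (h0 : 0 ≤ η) (h1 : Real.sinh η = 547 / 1000 * Real.cos R) :
    FP Φ (UU R 0) (UU R 0) + 4 / Real.pi * (194 / 1000 * η ^ 2) ≤
      FP Φ (UU R η) (UU R η) := by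
  have hpi := Real.pi_pos
  have aR : |R| < Real.pi / 2 := by rw [abs_of_nonneg hR0]; exact hR
  have hreg : ∀ s ∈ Set.Icc (0 : ℝ) η, Reg (igd (UU R s)) (igd (UU R s)) := by
    intro s hs
    have t0 := igd_im_nonneg aR hs.1
    have t1 := igd_im_lt_quarter (η := s) aR (by
      have := Real.sinh_le_sinh.2 hs.2
      rw [h1] at this
      linarith)
    unfold Reg
    rw [abs_of_nonneg t0]
    linarith
  have hd : ∀ s ∈ Set.Icc (0 : ℝ) η, HasDerivAt
      (fun s => FP Φ (UU R s) (UU R s) - 4 / Real.pi * (194 / 1000 * s ^ 2))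
      (4 / Real.pi * (qq (igd (UU R s)) (igd (UU R s))).im -
        4 / Real.pi * (194 / 1000 * (2 * s))) s := by
    intro s hs
    have k1 := dg_vert hΦ aR (hreg s hs)
    have k2 := ((hasDerivAt_pow 2 s).const_mul (194 / 1000 : ℝ)).const_mul (4 / Real.pi)
    refine (k1.sub k2).congr_deriv ?_
    norm_num
  have key : MonotoneOn (fun s => FP Φ (UU R s) (UU R s) - 4 / Real.pi * (194 / 1000 * s ^ 2))
      (Set.Icc 0 η) := by
    apply monotoneOn_of_deriv_nonneg (convex_Icc 0 η)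
    · exact fun t ht => (hd t ht).continuousAt.continuousWithinAt
    · intro t ht
      exact (hd t (interior_subset ht)).differentiableAt.differentiableWithinAt
    · intro t ht
      have hr := hreg t (interior_subset ht)
      rw [(hd t (interior_subset ht)).deriv, ← mul_sub]
      rw [interior_Icc] at ht
      apply mul_nonneg (by positivity)
      rw [sub_nonneg]
      have hsin := sinh_qq_diag (UU_re_lt (η := t) aR)
      have st : Real.sinh t ≤ 547 / 1000 * Real.cos R := by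
        rw [← h1]; exact Real.sinh_le_sinh.2 ht.2.le
      have st0 : 0 ≤ Real.sinh t := Real.sinh_nonneg_iff.2 ht.1.le
      have st1 : t ≤ Real.sinh t := Real.self_le_sinh_iff.2 ht.1.le
      have ch1 := Real.one_le_cosh t
      have chs := Real.cosh_sq t
      have sc := Real.sin_sq_add_cos_sq R
      have k := qq_im_ge hr (c := 522 / 1000 * t) (N := 13451 / 10000) (by norm_num)
        (by have := ht.1.le; positivity) (by
          rw [hsin, wsin_im, UU_re, UU_im]
          exact mul_le_mul c0 st1 ht.1.le (by linarith)) (by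
          rw [hsin, normSq_apply, wsin_re, wsin_im, UU_re, UU_im]
          have e : Real.sin R * Real.cosh t * (Real.sin R * Real.cosh t) +
              Real.cos R * Real.sinh t * (Real.cos R * Real.sinh t) =
              Real.sin R ^ 2 + Real.sinh t ^ 2 := by
            linear_combination (Real.sin R ^ 2) * chs + (Real.sinh t ^ 2) * sc
          rw [e]
          have h3 : Real.sinh t ^ 2 ≤ (547 / 1000 * Real.cos R) ^ 2 := pow_le_pow_left₀ st0 st 2
          have h4 : (522 / 1000 : ℝ) ^ 2 ≤ Real.cos R ^ 2 := pow_le_pow_left₀ (by norm_num) c0 2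
          norm_num at h4 ⊢
          nlinarith)
      refine le_trans ?_ k
      rw [le_div_iff₀ (by norm_num)]
      linarith [ht.1]
  have k := key ⟨le_rfl, h0⟩ ⟨h0, le_rfl⟩ h0
  simp only at k
  norm_num at k
  norm_num
  linarith

/-- **The corner.** -/
theorem corner_lt (hΦ : IsPhi Φ) (h0 : Φ 0 0 = c00) {R η : ℝ} (hR : R = 13 / 40 * Real.pi)
    (hη : 0 ≤ η) (h1 : Real.sinh η = 547 / 1000 * Real.cos R) :
    13 / 400 < FP Φ (UU R η) (UU R η) - 2 * η := by
  have hpi := Real.pi_pos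
  have R0 : 0 ≤ R := by rw [hR]; positivity
  have R1 : R < Real.pi / 2 := by rw [hR]; linarith
  have c0 := cos_R1_ge R0 hR.le
  have c1 : Real.cos R ≤ 5242 / 10000 := by rw [hR]; exact cos_R1_le
  have k1 := corner_real hΦ h0 R0 R1
  have k2 := corner_vert hΦ R0 R1 c0 hη h1
  have c := LowA_c00_gt
  have hη1 : η ≤ 283 / 1000 := by
    have h2 : η = Real.arsinh (547 / 1000 * Real.cos R) := by rw [← h1, Real.arsinh_sinh]
    have h3 : Real.arsinh (547 / 1000 * Real.cos R) ≤ Real.arsinh (28674 / 100000) :=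
      Real.arsinh_le_arsinh.2 (by linarith)
    have h4 := ea_arsinh_le (z := 28674 / 100000) (by norm_num)
    norm_num at h4
    rw [h2]
    linarith
  have p1 : Pc 1 - Pc (Real.cos R) ≤ 45337 / 100000 := by
    have m3 : (522 / 1000 : ℝ) ^ 3 ≤ Real.cos R ^ 3 := pow_le_pow_left₀ (by norm_num) c0 3
    have m5 : (522 / 1000 : ℝ) ^ 5 ≤ Real.cos R ^ 5 := pow_le_pow_left₀ (by norm_num) c0 5
    unfold Pc
    norm_num at m3 m5 ⊢
    linarith
  have q1 : 4 / Real.pi * (Pc 1 - Pc (Real.cos R)) ≤ 57730 / 100000 := by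
    rw [div_mul_eq_mul_div, div_le_iff₀ hpi]
    have := Real.pi_gt_d4
    linarith
  have q2 : 2469 / 10000 * η ^ 2 ≤ 4 / Real.pi * (194 / 1000 * η ^ 2) := by
    have h3 : 12731 / 10000 ≤ 4 / Real.pi := by
      rw [le_div_iff₀ hpi]
      have := Real.pi_lt_d4
      linarith
    have h4 := mul_le_mul_of_nonneg_right h3 (by positivity : 0 ≤ 194 / 1000 * η ^ 2)
    have h2 := sq_nonneg η
    linarith
  have q3 : 2 * η - 2469 / 10000 * η ^ 2 ≤ 5463 / 10000 := by nlinarith
  linarith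

end

end Pool.Agent.MX
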