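import Pool.Agent.H25.RK.DGI
import Pool.Agent.H25.RK.DGf
import Pool.Agent.H63.GO.MTaylor
import Pool.Agent.H63.VC.Asym
import Pool.Agent.H63.VC.EndB
import Pool.Agent.H63.VC.Riem
import Pool.Agent.H63.VC.SlowL
import Pool.Agent.H63.VC.SlowU
import Pool.Agent.H63.VC3.CritB
import Pool.Agent.H63.VC3.Upper
import Pool.Agent.H63.VC4.GaussN
import Pool.Agent.H63.VC4.KBN
import Pool.Agent.H63.VC4.LaplaceN
import Pool.Agent.H63.VC4.UpperN
import Pool.Agent.H63.VC5.Defs
import Pool.Agent.H63.VC6.LocU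
import Pool.Agent.H63.VC6.SlotU
import Pool.Agent.H63.VC7.Link
import Pool.Agent.S3.Asm.Def
import Pool.Agent.S3.Chain
import Pool.Agent.S3.Dmain
import Pool.Agent.S3.Flat
import Pool.Agent.S3.W.Right

/-!
# Edges with equal signs: the left vertical of the polygon

For `v = a + i b`, `w = a' + i b'` in the first quadrant the growth rate `EE (op v) (op w) (i η)`
decreases up to `min b b'` and increases afterwards, hence it is at most its values at the ends.
-/

set_option autoImplicit false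

namespace Pool.Agent.MX

open Complex Pool.Agent.S3

/-- The smooth part of the growth of a slot on the left vertical. -/
noncomputable def gL (a b t : ℝ) : ℝ :=
  Rf ((a : ℂ) + ((t + -b : ℝ) : ℂ) * I) - Rf ((a : ℂ) + ((t + b : ℝ) : ℂ) * I)

theorem se_gL (a b η : ℝ) : se (((0 : ℝ) : ℂ) + η * I) (.op ((a : ℂ) + b * I)) =
    Real.pi * |η - b| + gL a b η := by
  rw [se_left_eq, gL]; ring

theorem gL_deriv {a : ℝ} (ha : 0 < a) (ha1 : a < 1 / 2) (b t : ℝ) :
    HasDerivAt (gL a b) (Ha a (t + b) - Ha a (t + -b)) t := by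
  have h1 := Rf_vert_comp ha (by linarith) (-b) t
  have h2 := Rf_vert_comp ha (by linarith) b t
  exact (h1.fun_sub h2).congr_deriv (by ring)

theorem gL_mono' {a b : ℝ} (ha : 0 < a) (ha1 : a < 1 / 2) (hb : 0 ≤ b) : Monotone (gL a b) := by
  apply monotone_of_deriv_nonneg fun t => (gL_deriv ha ha1 b t).differentiableAt
  intro t
  rw [(gL_deriv ha ha1 b t).deriv]
  have := Ha_mono ha ha1 (x := t + -b) (y := t + b) (by linarith)
  linarith

theorem gL_anti' {a b : ℝ} (ha : 0 < a) (ha1 : a < 1 / 2) :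
    Antitone (fun t => gL a b t - Real.pi * t) := by
  have hd : ∀ t, HasDerivAt (fun t => gL a b t - Real.pi * t)
      (Ha a (t + b) - Ha a (t + -b) - Real.pi * 1) t := fun t =>
    (gL_deriv ha ha1 b t).fun_sub ((hasDerivAt_id t).const_mul _)
  apply antitone_of_deriv_nonpos fun t => (hd t).differentiableAt
  intro t
  rw [(hd t).deriv]
  have h1 := Ha_lt ha (by linarith) (t + b)
  have h2 := Ha_gt ha (by linarith) (t + -b)
  linarith

theorem gL_continuous_left (b t : ℝ) : Continuous fun a : ℝ => gL a b t := by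
  have := Rf_continuous
  unfold gL
  fun_prop

theorem gL_mono {a b : ℝ} (ha : 0 ≤ a) (ha1 : a < 1 / 2) (hb : 0 ≤ b) {x y : ℝ} (h : x ≤ y) :
    gL a b x ≤ gL a b y := by
  rcases ha.eq_or_lt with h0 | h0
  · rw [← h0]
    have l1 := ((gL_continuous_left b x).tendsto 0).mono_left
      (nhdsWithin_le_nhds (s := Set.Ioi (0 : ℝ)))
    have l2 := ((gL_continuous_left b y).tendsto 0).mono_left
      (nhdsWithin_le_nhds (s := Set.Ioi (0 : ℝ)))
    have e2 : ∀ᶠ t in nhdsWithin (0 : ℝ) (Set.Ioi 0), t < 1 / 2 :=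
      (continuousAt_id.eventually_lt continuousAt_const (by norm_num)).filter_mono
        nhdsWithin_le_nhds
    refine le_of_tendsto_of_tendsto l1 l2 ?_
    filter_upwards [e2, self_mem_nhdsWithin] with t h1 h2
    exact gL_mono' h2 h1 hb h
  · exact gL_mono' h0 ha1 hb h

theorem gL_anti {a b : ℝ} (ha : 0 ≤ a) (ha1 : a < 1 / 2) {x y : ℝ} (h : x ≤ y) :
    gL a b y - Real.pi * y ≤ gL a b x - Real.pi * x := by
  rcases ha.eq_or_lt with h0 | h0
  · rw [← h0]
    have l1 := (((gL_continuous_left b y).sub continuous_const).tendsto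
      (f := fun a => gL a b y - Real.pi * y) 0).mono_left
      (nhdsWithin_le_nhds (s := Set.Ioi (0 : ℝ)))
    have l2 := (((gL_continuous_left b x).sub continuous_const).tendsto
      (f := fun a => gL a b x - Real.pi * x) 0).mono_left
      (nhdsWithin_le_nhds (s := Set.Ioi (0 : ℝ)))
    have e2 : ∀ᶠ t in nhdsWithin (0 : ℝ) (Set.Ioi 0), t < 1 / 2 :=
      (continuousAt_id.eventually_lt continuousAt_const (by norm_num)).filter_mono
        nhdsWithin_le_nhds
    refine le_of_tendsto_of_tendsto l1 l2 ?_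
    filter_upwards [e2, self_mem_nhdsWithin] with t h1 h2
    exact gL_anti' h2 h1 h
  · exact gL_anti' h0 ha1 h

/-- The growth rate of a pair of the first quadrant on the left vertical. -/
theorem EE_left_eq (v w : ℂ) (η : ℝ) : EE (.op v) (.op w) (((0 : ℝ) : ℂ) + η * I) =
    Real.pi * (|η - v.im| + |η - w.im|) + (gL v.re v.im η + gL w.re w.im η) := by
  have h1 := se_gL v.re v.im η
  have h2 := se_gL w.re w.im η
  rw [re_add_im] at h1 h2
  rw [EE, h1, h2]
  ring

theorem EE_left_zero {v w : ℂ} (hv : 0 ≤ v.im) (hw : 0 ≤ w.im) :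
    EE (.op v) (.op w) (((0 : ℝ) : ℂ) + ((0 : ℝ) : ℂ) * I) = Real.pi * (v.im + w.im) := by
  rw [EE_left_eq, gL, gL]
  have e : ∀ b : ℝ, ((0 + -b : ℝ) : ℂ) = ((-(0 + b) : ℝ) : ℂ) := fun b => by push_cast; ring
  rw [e, e, Rf_line_neg, Rf_line_neg, zero_sub, zero_sub, abs_neg, abs_neg, abs_of_nonneg hv,
    abs_of_nonneg hw]
  ring

/-- On the left vertical the growth rate is at most its values at the ends. -/
theorem EE_left_le {v w : ℂ} (hv : 0 ≤ v.re) (hv1 : v.re < 1 / 2) (hw : 0 ≤ w.re)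
    (hw1 : w.re < 1 / 2) (hb : 0 ≤ v.im) (hb' : 0 ≤ w.im) {η h : ℝ} (h0 : 0 ≤ η) (h1 : η ≤ h) :
    EE (.op v) (.op w) (((0 : ℝ) : ℂ) + η * I) ≤
      max (EE (.op v) (.op w) (((0 : ℝ) : ℂ) + ((0 : ℝ) : ℂ) * I))
        (EE (.op v) (.op w) (((0 : ℝ) : ℂ) + h * I)) := by
  have key : ∀ {v w : ℂ}, 0 ≤ v.re → v.re < 1 / 2 → 0 ≤ w.re → w.re < 1 / 2 → 0 ≤ v.im →
      0 ≤ w.im → v.im ≤ w.im → EE (.op v) (.op w) (((0 : ℝ) : ℂ) + η * I) ≤
      max (EE (.op v) (.op w) (((0 : ℝ) : ℂ) + ((0 : ℝ) : ℂ) * I))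
        (EE (.op v) (.op w) (((0 : ℝ) : ℂ) + h * I)) := by
    intro v w hv hv1 hw hw1 hb hb' hbb
    have hpi := Real.pi_pos
    rcases le_total η v.im with hη | hη
    · refine le_trans ?_ (le_max_left _ _)
      rw [EE_left_eq, EE_left_eq]
      have g1 := gL_anti (b := v.im) hv hv1 h0
      have g2 := gL_anti (b := w.im) hw hw1 h0
      rw [abs_of_nonpos (by linarith : η - v.im ≤ 0), abs_of_nonpos (by linarith : η - w.im ≤ 0),
        abs_of_nonpos (by linarith : 0 - v.im ≤ 0), abs_of_nonpos (by linarith : 0 - w.im ≤ 0)]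
      linarith
    · refine le_trans ?_ (le_max_right _ _)
      rw [EE_left_eq, EE_left_eq]
      have g1 := gL_mono (b := v.im) hv hv1 hb h1
      have g2 := gL_mono (b := w.im) hw hw1 hb' h1
      have g3 : |η - v.im| + |η - w.im| ≤ |h - v.im| + |h - w.im| := by
        rw [abs_of_nonneg (by linarith : 0 ≤ η - v.im), abs_of_nonneg (by linarith : 0 ≤ h - v.im)]
        have k : |η - w.im| ≤ |h - w.im| + |η - h| := by
          have := abs_add_le (h - w.im) (η - h)
          rwa [show h - w.im + (η - h) = η - w.im by ring] at this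
        rw [abs_of_nonpos (by linarith : η - h ≤ 0)] at k
        linarith
      have := mul_le_mul_of_nonneg_left g3 hpi.le
      linarith
  rcases le_total v.im w.im with h2 | h2
  · exact key hv hv1 hw hw1 hb hb' h2
  · have := key hw hw1 hv hv1 hb' hb h2
    rwa [EE_comm, EE_comm _ v w, EE_comm _ v w] at this

end Pool.Agent.MX
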