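import Mathlib

/-!
# Edges with equal signs: the polynomial inequality of the reflection lemma
-/

set_option autoImplicit false

namespace Pool.Agent.MX

theorem rp_A {e v : ℝ} (he : 0 ≤ e) (he1 : e ≤ 75 / 1000) (hv : 0 ≤ v) :
    0 ≤ 177 / 1000 * (1 - 23 / 10 * e) - 32 / 10 * ((46 / 100 - e) * v - (2 - e) * v ^ 2)
      - (23 / 100 + 4278 / 10000 * e) * (23 / 100 + 69 / 100 * v) := by
  nlinarith [sq_nonneg (v - 12 / 100), mul_nonneg he hv, mul_nonneg (sub_nonneg.2 he1) hv,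
    mul_nonneg he (sq_nonneg (v - 12 / 100)), mul_nonneg (sub_nonneg.2 he1) (sq_nonneg (v - 127 / 1000)),
    sq_nonneg (v - 127 / 1000 + 170 / 1000 * e)]

theorem rp_C {e v : ℝ} (he : 0 ≤ e) (he1 : e ≤ 32 / 100) (hv : 0 ≤ v) :
    0 ≤ 177 / 1000 - 18 / 10 * ((46 / 100 - e) * v - (2 - e) * v ^ 2)
      - (23 / 100 + 5382 / 10000 * e) * (23 / 100 + 69 / 100 * v) := by
  nlinarith [sq_nonneg (v - 12 / 100), mul_nonneg he hv, mul_nonneg (sub_nonneg.2 he1) hv,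
    mul_nonneg he (sq_nonneg (v - 12 / 100)), mul_nonneg (sub_nonneg.2 he1) (sq_nonneg (v - 127 / 1000)),
    sq_nonneg (v - 127 / 1000 + 170 / 1000 * e)]

theorem rp_D {e v : ℝ} (he : 0 ≤ e) (he1 : e ≤ 32 / 100) (hv : 0 ≤ v) (hv1 : v ≤ 1) :
    (46 / 100 - e) * e * v + (92 / 100 - 92 / 100 * e + e ^ 2) * v ^ 2
      + 108 / 100 * (2 - e) * v ^ 3 ≤ (23 / 100 + 69 / 100 * v) * (e + 2 * (1 - e) * v) ^ 2 := by
  have key : (23 / 100 + 69 / 100 * v) * (e + 2 * (1 - e) * v) ^ 2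
      - ((46 / 100 - e) * e * v + (92 / 100 - 92 / 100 * e + e ^ 2) * v ^ 2
      + 108 / 100 * (2 - e) * v ^ 3) = 23 / 100 * e ^ 2 + (46 / 100 * e + 77 / 100 * e ^ 2) * v
      + (184 / 100 * e - 284 / 100 * e ^ 2) * v ^ 2
      + (60 / 100 - 444 / 100 * e + 276 / 100 * e ^ 2) * v ^ 3 := by ring
  have h1 : 0 ≤ v * (1 - v) := mul_nonneg hv (by linarith)
  have h2 : 0 ≤ v ^ 2 * (1 - v) := mul_nonneg (sq_nonneg v) (by linarith)
  have h3 : 0 ≤ v ^ 3 := pow_nonneg hv 3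
  have h4 : 0 ≤ 1 - v := by linarith
  have c1 : 0 ≤ 46 / 100 * e + 77 / 100 * e ^ 2 := by positivity
  have c2 : 0 ≤ 46 / 100 * e + 77 / 100 * e ^ 2 + (184 / 100 * e - 284 / 100 * e ^ 2) := by
    nlinarith
  have c3 : 0 ≤ 23 / 100 * e ^ 2 + (46 / 100 * e + 77 / 100 * e ^ 2)
      + (184 / 100 * e - 284 / 100 * e ^ 2) + (60 / 100 - 444 / 100 * e + 276 / 100 * e ^ 2) := by
    nlinarith
  have c0 : 0 ≤ 23 / 100 * e ^ 2 := by positivity
  -- Abel summation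
  have : 23 / 100 * e ^ 2 + (46 / 100 * e + 77 / 100 * e ^ 2) * v
      + (184 / 100 * e - 284 / 100 * e ^ 2) * v ^ 2
      + (60 / 100 - 444 / 100 * e + 276 / 100 * e ^ 2) * v ^ 3
      = 23 / 100 * e ^ 2 * (1 - v) + (23 / 100 * e ^ 2 + (46 / 100 * e + 77 / 100 * e ^ 2)) * (v * (1 - v))
      + (23 / 100 * e ^ 2 + (46 / 100 * e + 77 / 100 * e ^ 2) + (184 / 100 * e - 284 / 100 * e ^ 2))
        * (v ^ 2 * (1 - v))
      + (23 / 100 * e ^ 2 + (46 / 100 * e + 77 / 100 * e ^ 2)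
      + (184 / 100 * e - 284 / 100 * e ^ 2) + (60 / 100 - 444 / 100 * e + 276 / 100 * e ^ 2)) * v ^ 3 := by
    ring
  have k0 := mul_nonneg c0 h4
  have k1 := mul_nonneg (add_nonneg c0 c1) h1
  have k2 := mul_nonneg (add_nonneg c0 c2) h2
  have k3 := mul_nonneg c3 h3
  nlinarith

theorem rp_B {e v : ℝ} (he : 75 / 1000 ≤ e) (he1 : e ≤ 32 / 100) (hv : 0 ≤ v) :
    0 ≤ 8 * (1 - e) * e * (177 / 1000 * (1 - 23 / 10 * e)
      - 32 / 10 * ((46 / 100 - e) * v - (2 - e) * v ^ 2))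
      - (23 / 100 + 4278 / 10000 * e) * ((46 / 100 - e) * e + (92 / 100 - 92 / 100 * e + e ^ 2) * v
        + 108 / 100 * (2 - e) * v ^ 2) := by
  obtain ⟨t, ht⟩ : ∃ t, t = e - 75 / 1000 := ⟨_, rfl⟩
  obtain rfl : e = t + 75 / 1000 := by rw [ht]; ring
  have t0 : 0 ≤ t := by linarith
  have t1 : t ≤ 245 / 1000 := by linarith
  nlinarith [mul_nonneg t0 hv, mul_nonneg t0 (sq_nonneg v), mul_nonneg (sub_nonneg.2 t1) hv,
    sq_nonneg (v - 155 / 1000), mul_nonneg t0 (sq_nonneg (v - 110 / 1000)),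
    mul_nonneg t0 (mul_nonneg t0 (sq_nonneg (v - 60/1000))),
    mul_nonneg (mul_nonneg t0 (sub_nonneg.2 t1)) (sq_nonneg (v - 60/1000)), sq_nonneg (t * v),
    mul_nonneg (mul_nonneg t0 t0) hv]

/-- The bound of the slope at the cosine: `e = 1 - c`, `y = e / v`, `b2` is the second bracket. -/
theorem rp_main {e v b2 T : ℝ} (he : 0 < e) (he1 : e ≤ 32 / 100) (hv : 0 < v) (hv1 : v ≤ 1)
    (hb : b2 * (e + 2 * (1 - e) * v) ^ 2 = (46 / 100 - e) * e * v
      + (92 / 100 - 92 / 100 * e + e ^ 2) * v ^ 2 + 108 / 100 * (2 - e) * v ^ 3)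
    (hT : T * (1 - 23 / 10 * e) ≤ 32 / 10 * e) (hT2 : 18 / 10 * e ≤ T) :
    T * (((46 / 100 - e) * v - (2 - e) * v ^ 2) / e + 299 / 1000 * b2) + 23 / 100 * b2
      ≤ 177 / 1000 := by
  have hD : 0 < (e + 2 * (1 - e) * v) ^ 2 := by
    have : 0 < 2 * (1 - e) * v := mul_pos (by linarith) hv
    positivity
  have hN : 0 ≤ (46 / 100 - e) * e * v
      + (92 / 100 - 92 / 100 * e + e ^ 2) * v ^ 2 + 108 / 100 * (2 - e) * v ^ 3 := by
    have a1 : 0 ≤ (46 / 100 - e) * e * v := by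
      apply mul_nonneg (mul_nonneg (by linarith) he.le) hv.le
    have a2 : 0 ≤ (92 / 100 - 92 / 100 * e + e ^ 2) * v ^ 2 := by
      apply mul_nonneg (by nlinarith) (by positivity)
    have a3 : 0 ≤ 108 / 100 * (2 - e) * v ^ 3 := by
      apply mul_nonneg (by linarith) (by positivity)
    linarith
  have b0 : 0 ≤ b2 := by
    by_contra hc
    push Not at hc
    have := mul_neg_of_neg_of_pos hc hD
    linarith
  -- first bound
  have B1 : b2 ≤ 23 / 100 + 69 / 100 * v := by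
    apply le_of_mul_le_mul_right _ hD
    rw [hb]
    exact rp_D he.le he1 hv.le hv1
  -- second bound
  have B2 : 8 * (1 - e) * e * b2 ≤ (46 / 100 - e) * e
      + (92 / 100 - 92 / 100 * e + e ^ 2) * v + 108 / 100 * (2 - e) * v ^ 2 := by
    have h1 : 8 * (1 - e) * e * v ≤ (e + 2 * (1 - e) * v) ^ 2 := by
      nlinarith [sq_nonneg (e - 2 * (1 - e) * v)]
    have h2 := mul_le_mul_of_nonneg_left h1 b0
    rw [hb] at h2
    apply le_of_mul_le_mul_right _ hv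
    nlinarith
  obtain ⟨A, hA⟩ : ∃ A, A = (46 / 100 - e) * v - (2 - e) * v ^ 2 := ⟨_, rfl⟩
  rw [← hA]
  have hu : 0 < 1 - 23 / 10 * e := by linarith
  -- the two end inequalities
  have E1 : 32 / 10 * (A + 299 / 1000 * e * b2) + (1 - 23 / 10 * e) * (23 / 100 * b2)
      ≤ (1 - 23 / 10 * e) * (177 / 1000) := by
    have e1 : 32 / 10 * (A + 299 / 1000 * e * b2) + (1 - 23 / 10 * e) * (23 / 100 * b2)
        = 32 / 10 * A + (23 / 100 + 4278 / 10000 * e) * b2 := by ring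
    rw [e1]
    have k0 : 0 ≤ 23 / 100 + 4278 / 10000 * e := by linarith
    rcases le_total e (75 / 1000) with h | h
    · have k1 := rp_A he.le h hv.le
      have k2 := mul_le_mul_of_nonneg_left B1 k0
      rw [← hA] at k1
      linarith
    · have k1 := rp_B h he1 hv.le
      have k2 := mul_le_mul_of_nonneg_left B2 k0
      rw [← hA] at k1
      have k3 : 0 < 8 * (1 - e) * e := by
        apply mul_pos _ he
        linarith
      apply le_of_mul_le_mul_left _ k3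
      linarith
  have E2 : 18 / 10 * (A + 299 / 1000 * e * b2) + 23 / 100 * b2 ≤ 177 / 1000 := by
    have e1 : 18 / 10 * (A + 299 / 1000 * e * b2) + 23 / 100 * b2
        = 18 / 10 * A + (23 / 100 + 5382 / 10000 * e) * b2 := by ring
    rw [e1]
    have k0 : 0 ≤ 23 / 100 + 5382 / 10000 * e := by linarith
    have k1 := rp_C he.le he1 hv.le
    have k2 := mul_le_mul_of_nonneg_left B1 k0
    rw [← hA] at k1
    linarith
  obtain ⟨X, hX⟩ : ∃ X, X = A / e + 299 / 1000 * b2 := ⟨_, rfl⟩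
  have hX2 : e * X = A + 299 / 1000 * e * b2 := by
    rw [hX]; field_simp
  rw [← hX]
  rw [← hX2] at E1 E2
  rcases le_total 0 X with h | h
  · apply le_of_mul_le_mul_left _ hu
    have := mul_le_mul_of_nonneg_right hT h
    nlinarith
  · have := mul_le_mul_of_nonpos_right hT2 h
    nlinarith

end Pool.Agent.MX
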