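import Pool.Agent.S3.Refl2
import Pool.Agent.MX.S.ReflP

/-!
# Edges with equal signs: the sum of the slopes at conjugate points

For `u`, `w` in the strip of height `1/2` and `0 ≤ R = Re gd w ≤ 13 π/40`:
`Im q(w, u) + Im q(conj w, u) ≥ -(4/5) R` (`u`, `w` in the first quadrant).
-/

set_option autoImplicit false

namespace Pool.Agent.MX

open Complex Pool.Agent.S3

/-! ### the two multiples of an angle -/

theorem cos_five (φ : ℝ) : Real.cos (5 * φ) =
    16 * Real.cos φ ^ 5 - 20 * Real.cos φ ^ 3 + 5 * Real.cos φ := by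
  have h : 5 * φ = 2 * φ + 3 * φ := by ring
  have h1 := Real.sin_sq_add_cos_sq φ
  have h2 : Real.sin φ ^ 2 = 1 - Real.cos φ ^ 2 := by linarith only [h1]
  rw [h, Real.cos_add, Real.cos_two_mul, Real.cos_three_mul, Real.sin_two_mul, Real.sin_three_mul]
  have h3 : 2 * Real.sin φ * Real.cos φ * (3 * Real.sin φ - 4 * Real.sin φ ^ 3)
      = 2 * Real.cos φ * (3 * Real.sin φ ^ 2 - 4 * (Real.sin φ ^ 2) ^ 2) := by ring
  rw [h3, h2]
  ring

theorem T_bd {R T : ℝ} (h0 : 0 < R) (h1 : R ≤ 13 * Real.pi / 40)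
    (hT : T * Real.cos R ^ 2 = Real.sin R ^ 2) :
    0 < 1 - Real.cos (4 * R / 5) ∧ 1 - Real.cos (4 * R / 5) ≤ 32 / 100 ∧
    T * (1 - 23 / 10 * (1 - Real.cos (4 * R / 5))) ≤ 32 / 10 * (1 - Real.cos (4 * R / 5)) ∧
    305 / 100 * (1 - Real.cos (4 * R / 5)) ≤ T := by
  have hpi := Real.pi_pos
  have hpi2 := Real.pi_lt_d4
  obtain ⟨φ, hφ⟩ : ∃ φ, φ = 2 * R / 5 := ⟨_, rfl⟩
  have p0 : 0 < φ := by rw [hφ]; positivity
  have p1 : φ ≤ 408409 / 1000000 := by
    rw [hφ]
    have : R ≤ 13 * 3.1416 / 40 := by linarith only [hpi2, h1]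
    norm_num at this ⊢
    linarith only [hpi2, h1]
  have e1 : 4 * R / 5 = 2 * φ := by rw [hφ]; ring
  have e2 : 2 * R = 5 * φ := by rw [hφ]; ring
  obtain ⟨z, hz⟩ : ∃ z, z = Real.cos φ := ⟨_, rfl⟩
  have z1 : z < 1 := by
    rw [hz, ← Real.cos_zero]
    apply Real.cos_lt_cos_of_nonneg_of_le_pi_div_two le_rfl _ p0
    have := Real.pi_gt_three
    linarith only [hφ, h1, h0]
  have z0 : 9166 / 10000 ≤ z := by
    have := Real.one_sub_sq_div_two_le_cos (x := φ)
    rw [hz]
    (refine le_of_not_gt fun hng => ?_; linarith only [this, z1, hz, hpi2, h1,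
      mul_nonneg (sub_nonneg.2 hφ.le) (sub_nonneg.2 hφ.le),
      mul_nonneg (sub_nonneg.2 hφ.ge) (sub_nonneg.2 hφ.le),
      mul_nonneg (sub_nonneg.2 h0.le) (sub_nonneg.2 hφ.le),
      mul_nonneg (sub_nonneg.2 h0.le) (sub_nonneg.2 hφ.ge), mul_pos (sub_pos.2 h0) (sub_pos.2 hpi2),
      mul_nonneg (sub_nonneg.2 h0.le) (sub_nonneg.2 h1), mul_pos (sub_pos.2 hng) (sub_pos.2 p0),
      mul_nonneg (sub_nonneg.2 hng.le) (sub_nonneg.2 hφ.le),
      mul_nonneg (sub_nonneg.2 hng.le) (sub_nonneg.2 hφ.ge),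
      mul_pos (sub_pos.2 hng) (sub_pos.2 hpi2), mul_nonneg (sub_nonneg.2 hng.le) (sub_nonneg.2 h1)])
  have hc : Real.cos (4 * R / 5) = 2 * z ^ 2 - 1 := by rw [e1, Real.cos_two_mul, hz]
  have h5 : Real.cos (2 * R) = 16 * z ^ 5 - 20 * z ^ 3 + 5 * z := by rw [e2, cos_five, hz]
  have s1 : Real.cos R ^ 2 = (1 + z) * (4 * z ^ 2 - 2 * z - 1) ^ 2 / 2 := by
    rw [Real.cos_sq, h5]; ring
  have s2 : Real.sin R ^ 2 = (1 - z) * (4 * z ^ 2 + 2 * z - 1) ^ 2 / 2 := by
    rw [Real.sin_sq, s1]; ring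
  rw [s1, s2] at hT
  rw [hc]
  have hd : 0 < 4 * z ^ 2 - 2 * z - 1 := by (refine lt_of_not_ge fun hng => ?_; linarith only [hng,
                                              z0, z1,
                                              mul_nonneg (sub_nonneg.2 hng) (sub_nonneg.2 z0),
                                              mul_nonneg (sq_nonneg (z)) (sub_nonneg.2 z0)])
  have hD : 0 < (1 + z) * (4 * z ^ 2 - 2 * z - 1) ^ 2 := by
    apply mul_pos (by linarith only [z0]) (by positivity)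
  have k : 0 < 1 - z := by linarith only [z1]
  obtain ⟨w, hw⟩ : ∃ w, w = 1 - z := ⟨_, rfl⟩
  have w0 : 0 < w := by linarith only [hw, z1]
  have w1 : w ≤ 835 / 10000 := by linarith only [hw, z0, z1]
  have hzw : z = 1 - w := by linarith only [hw]
  have w3 : 0 ≤ w ^ 3 := by positivity
  have w4 : 0 ≤ w ^ 4 := by positivity
  have w5 : 0 ≤ w ^ 5 := by positivity
  have w6 : 0 ≤ w ^ 6 := by positivity
  have q2 : w ^ 3 ≤ w ^ 2 * (835 / 10000) := by
    have := mul_le_mul_of_nonneg_left w1 (sq_nonneg w)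
    linarith only [this]
  have q5 : w ^ 5 ≤ w ^ 4 := by
    have := mul_le_mul_of_nonneg_left (show w ≤ 1 by linarith only [hw, z0, z1]) w4
    linarith only [this]
  have q6 : w ^ 6 ≤ w ^ 4 := by
    have := mul_le_mul_of_nonneg_left (show w ^ 2 ≤ 1 by (refine le_of_not_gt fun hng => ?_; linarith only [sq_nonneg (z),
                                                           mul_nonneg (sub_nonneg.2 hw.le) (sub_nonneg.2 hw.le),
                                                           mul_nonneg (sub_nonneg.2 hw.ge) (sub_nonneg.2 hw.le),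
                                                           mul_nonneg (sub_nonneg.2 z1.le) (sub_nonneg.2 hw.le),
                                                           mul_nonneg (sub_nonneg.2 z1.le) (sub_nonneg.2 hw.ge),
                                                           mul_nonneg (sub_nonneg.2 z1.le) (sub_nonneg.2 z0),
                                                           mul_nonneg (sub_nonneg.2 hng.le) (sub_nonneg.2 z0),
                                                           mul_pos (sub_pos.2 hng) (sub_pos.2 z1)])) w4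
    linarith only [this]
  have P1 : (4 * z ^ 2 + 2 * z - 1) ^ 2 * (46 / 10 * z ^ 2 - 36 / 10)
      ≤ 64 / 10 * (1 + z) * ((1 + z) * (4 * z ^ 2 - 2 * z - 1) ^ 2) := by
    have : 64 / 10 * (1 + z) * ((1 + z) * (4 * z ^ 2 - 2 * z - 1) ^ 2)
        - (4 * z ^ 2 + 2 * z - 1) ^ 2 * (46 / 10 * z ^ 2 - 36 / 10)
        = 6 / 10 - 28 / 10 * w + 265 * w ^ 2 - 604 * w ^ 3 + 524 * w ^ 4 - 2016 / 10 * w ^ 5
          + 288 / 10 * w ^ 6 := by rw [hzw]; ring
    linarith only [this, q5, q2, w6, w4, w3, hw, z0, z1]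
  have P2 : 61 / 10 * (1 + z) * ((1 + z) * (4 * z ^ 2 - 2 * z - 1) ^ 2)
      ≤ (4 * z ^ 2 + 2 * z - 1) ^ 2 := by
    have : (4 * z ^ 2 + 2 * z - 1) ^ 2
        - 61 / 10 * (1 + z) * ((1 + z) * (4 * z ^ 2 - 2 * z - 1) ^ 2)
        = 6 / 10 + 2172 / 10 * w - 12325 / 10 * w ^ 2 + 2238 * w ^ 3 - 1814 * w ^ 4
          + 6832 / 10 * w ^ 5 - 976 / 10 * w ^ 6 := by rw [hzw]; ring
    have q4 : w ^ 4 ≤ w ^ 3 := by
      have := mul_le_mul_of_nonneg_left (show w ≤ 1 by linarith only [hw, z0, z1]) w3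
      linarith only [this]
    (refine le_of_not_gt fun hng => ?_; linarith only [hng, s2, s1, sq_nonneg (1 * Real.sin R),
      mul_nonneg (sub_nonneg.2 s1.le) (sub_nonneg.2 s1.le),
      mul_nonneg (sub_nonneg.2 s1.ge) (sub_nonneg.2 s1.le),
      mul_nonneg (sub_nonneg.2 z0) (sub_nonneg.2 hd.le), mul_pos (sub_pos.2 z1) (sub_pos.2 z1),
      mul_pos (sub_pos.2 hng) (sub_pos.2 hd), mul_nonneg (sub_nonneg.2 hng.le) (sub_nonneg.2 z0),
      mul_nonneg (sq_nonneg (1 * Real.cos R)) (sub_nonneg.2 s2.le),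
      mul_nonneg (sq_nonneg (1 * Real.cos R)) (sub_nonneg.2 s2.ge),
      mul_nonneg (sq_nonneg (1 * Real.cos R)) (sub_nonneg.2 s1.le),
      mul_nonneg (sq_nonneg (1 * Real.cos R)) (sub_nonneg.2 s1.ge),
      mul_nonneg (sq_nonneg (1 * Real.sin R)) (sub_nonneg.2 hd.le),
      mul_nonneg (sq_nonneg (1 * Real.sin R)) (sub_nonneg.2 z0),
      mul_nonneg (sq_nonneg (1 * Real.sin R)) (sq_nonneg (1 * Real.cos R)),
      mul_nonneg (sq_nonneg (1 * 4 * (1 * (1 * z) ^ 2) - 1 * 2 * (1 * z) - 1 * 1)) (sub_nonneg.2 hng.le),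
      mul_nonneg (sq_nonneg (1 * 4 * (1 * (1 * z) ^ 2) - 1 * 2 * (1 * z) - 1 * 1)) (sq_nonneg (1 * 4 * (1 * (1 * z) ^ 2) - 1 * 2 * (1 * z) - 1 * 1)),
      mul_nonneg (sq_nonneg (z)) (sub_nonneg.2 s2.le),
      mul_nonneg (sq_nonneg (z)) (sub_nonneg.2 s2.ge)])
  have hT' : T * ((1 + z) * (4 * z ^ 2 - 2 * z - 1) ^ 2)
      = (1 - z) * (4 * z ^ 2 + 2 * z - 1) ^ 2 := by linarith only [hT]
  refine ⟨by linarith only [z1, mul_nonneg (sub_nonneg.2 z1.le) (sub_nonneg.2 z0)], by (refine le_of_not_gt fun hng => ?_; linarith only [hng,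
                                                                                         s1,
                                                                                         mul_nonneg (sub_nonneg.2 z1.le) (sub_nonneg.2 s1.le),
                                                                                         mul_nonneg (sub_nonneg.2 z1.le) (sub_nonneg.2 s1.ge),
                                                                                         mul_pos (sub_pos.2 hng) (sub_pos.2 hd),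
                                                                                         mul_pos (sub_pos.2 hng) (sub_pos.2 hng),
                                                                                         mul_nonneg (sq_nonneg (1 * Real.cos R)) (sub_nonneg.2 z0),
                                                                                         mul_nonneg (sq_nonneg (4 * z ^ 2 + 2 * z - 1)) (sub_nonneg.2 z0),
                                                                                         mul_nonneg (sq_nonneg (4 * z ^ 2 + 2 * z - 1)) (sub_nonneg.2 hng.le),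
                                                                                         mul_nonneg (sq_nonneg (4 * z ^ 2 - 2 * z - 1)) (sub_nonneg.2 z1.le)]), ?_, ?_⟩
  · apply le_of_mul_le_mul_right _ hD
    have k1 := mul_le_mul_of_nonneg_left P1 k.le
    calc _ = T * ((1 + z) * (4 * z ^ 2 - 2 * z - 1) ^ 2) * (46 / 10 * z ^ 2 - 36 / 10) := by ring
      _ = (1 - z) * ((4 * z ^ 2 + 2 * z - 1) ^ 2 * (46 / 10 * z ^ 2 - 36 / 10)) := by
          rw [hT']; ring
      _ ≤ _ := k1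
      _ = _ := by ring
  · apply le_of_mul_le_mul_right _ hD
    have k1 := mul_le_mul_of_nonneg_left P2 k.le
    calc _ = (1 - z) * (61 / 10 * (1 + z) * ((1 + z) * (4 * z ^ 2 - 2 * z - 1) ^ 2)) := by ring
      _ ≤ _ := k1
      _ = _ := by rw [hT']

/-! ### the complex inequality -/

/-- `Re M - C ‖M‖` for `M = p² / sinh² ω + q² / cosh² ω` -/
theorem M_bound {ω : ℂ} {p q x c C : ℝ} (hC : 0 ≤ C) (hx : x = Real.cosh (2 * ω.re))
    (hc : c = Real.cos (2 * ω.im)) (h1 : c < x) (h2 : -x < c) :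
    ((p : ℂ) ^ 2 / sinh ω ^ 2 + (q : ℂ) ^ 2 / cosh ω ^ 2).re
      - C * ‖(p : ℂ) ^ 2 / sinh ω ^ 2 + (q : ℂ) ^ 2 / cosh ω ^ 2‖
      ≤ 2 * (p ^ 2 * ((x * c - 1) / (x - c) ^ 2 - C / (x - c))
        + q ^ 2 * ((x * c + 1) / (x + c) ^ 2
          - C * (x ^ 2 + c ^ 2 - 2) / ((x + c) ^ 2 * (x - c)))) := by
  have ha : 0 < x - c := by linarith only [h1]
  have hb : 0 < x + c := by linarith only [h2]
  obtain ⟨m, hm⟩ : ∃ m, m = Real.sinh (2 * ω.re) * Real.sin (2 * ω.im) := ⟨_, rfl⟩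
  have hm2 : m ^ 2 = (x ^ 2 - 1) * (1 - c ^ 2) := by
    rw [hm, hx, hc, mul_pow, Real.cosh_sq (2 * ω.re)]
    have := Real.sin_sq_add_cos_sq (2 * ω.im)
    have h3 : Real.sin (2 * ω.im) ^ 2 = 1 - Real.cos (2 * ω.im) ^ 2 := by linarith only [this]
    rw [h3]; ring
  have e2 : cosh (2 * ω) = ((x * c : ℝ) : ℂ) + ((m : ℝ) : ℂ) * I := by
    have a1 : (2 * ω).re = 2 * ω.re := by simp
    have a2 : (2 * ω).im = 2 * ω.im := by simp
    apply Complex.ext
    · rw [cosh_re', a1, a2, add_re, ofReal_re, re_ofReal_mul, I_re, mul_zero, add_zero, hx, hc]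
    · rw [cosh_im', a1, a2, add_im, ofReal_im, im_ofReal_mul, I_im, mul_one, zero_add, hm]
  have eS : sinh ω ^ 2 = ((((x * c - 1) / 2 : ℝ)) : ℂ) + (((m / 2 : ℝ)) : ℂ) * I := by
    have := cosh_sq ω
    have h3 := cosh_two_mul ω
    rw [e2] at h3
    push_cast at h3 ⊢
    linear_combination (-1 / 2 : ℂ) * h3 + (-1 / 2 : ℂ) * this
  have eK : cosh ω ^ 2 = ((((x * c + 1) / 2 : ℝ)) : ℂ) + (((m / 2 : ℝ)) : ℂ) * I := by
    rw [cosh_sq, eS]; push_cast; ring
  rw [eS, eK]
  obtain ⟨S, hS⟩ : ∃ S : ℂ, S = ((((x * c - 1) / 2 : ℝ)) : ℂ) + (((m / 2 : ℝ)) : ℂ) * I := ⟨_, rfl⟩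
  obtain ⟨K, hK⟩ : ∃ K : ℂ, K = ((((x * c + 1) / 2 : ℝ)) : ℂ) + (((m / 2 : ℝ)) : ℂ) * I := ⟨_, rfl⟩
  rw [← hS, ← hK]
  have Sre : S.re = (x * c - 1) / 2 := by rw [hS]; simp
  have Sim : S.im = m / 2 := by rw [hS]; simp
  have Kre : K.re = (x * c + 1) / 2 := by rw [hK]; simp
  have Kim : K.im = m / 2 := by rw [hK]; simp
  have nS : normSq S = ((x - c) / 2) ^ 2 := by
    rw [normSq_apply, Sre, Sim]; linarith only [hm2]
  have nK : normSq K = ((x + c) / 2) ^ 2 := by
    rw [normSq_apply, Kre, Kim]; linarith only [hm2]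
  have nS' : ‖S‖ = (x - c) / 2 := by
    have h3 : ‖S‖ ^ 2 = ((x - c) / 2) ^ 2 := by rw [← normSq_eq_norm_sq, nS]
    exact (pow_left_inj₀ (norm_nonneg _) (by linarith only [h1]) two_ne_zero).1 h3
  have S0 : S ≠ 0 := by
    intro h; rw [h, norm_zero] at nS'; linarith only [nS', h1]
  have K0 : K ≠ 0 := by
    intro h; rw [h] at nK; simp at nK; linarith only [nK, mul_pos (sub_pos.2 h2) (sub_pos.2 h2)]
  have r1 : ((p : ℂ) ^ 2 / S + (q : ℂ) ^ 2 / K).re = 2 * (p ^ 2 * ((x * c - 1) / (x - c) ^ 2)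
      + q ^ 2 * ((x * c + 1) / (x + c) ^ 2)) := by
    rw [add_re, ← ofReal_pow, ← ofReal_pow, div_re, div_re]
    simp only [ofReal_re, ofReal_im, zero_mul, zero_div, add_zero]
    rw [nS, nK, Sre, Kre]
    field_simp
  have r2 : (p ^ 2 + q ^ 2 * ((x ^ 2 + c ^ 2 - 2) / (x + c) ^ 2)) * (2 / (x - c))
      ≤ ‖(p : ℂ) ^ 2 / S + (q : ℂ) ^ 2 / K‖ := by
    have h3 : (((p : ℂ) ^ 2 / S + (q : ℂ) ^ 2 / K) * S).re
        = p ^ 2 + q ^ 2 * ((x ^ 2 + c ^ 2 - 2) / (x + c) ^ 2) := by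
      have h4 : ((p : ℂ) ^ 2 / S + (q : ℂ) ^ 2 / K) * S
          = ((p ^ 2 : ℝ) : ℂ) + ((q ^ 2 : ℝ) : ℂ) * (S / K) := by
        push_cast
        field_simp
      rw [h4, add_re, ofReal_re, re_ofReal_mul, div_re, nK, Sre, Sim, Kre, Kim]
      have h5 : (x * c - 1) / 2 * ((x * c + 1) / 2) / ((x + c) / 2) ^ 2
          + m / 2 * (m / 2) / ((x + c) / 2) ^ 2 = (x ^ 2 + c ^ 2 - 2) / (x + c) ^ 2 := by
        have h6 : m / 2 * (m / 2) = (x ^ 2 - 1) * (1 - c ^ 2) / 4 := by
          rw [← hm2]; ring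
        rw [h6]
        field_simp
        ring
      rw [h5]
    have h7 : (((p : ℂ) ^ 2 / S + (q : ℂ) ^ 2 / K) * S).re
        ≤ ‖(p : ℂ) ^ 2 / S + (q : ℂ) ^ 2 / K‖ * ((x - c) / 2) := by
      rw [← nS', ← norm_mul]
      exact Complex.re_le_norm _
    rw [h3] at h7
    have h8 : ‖(p : ℂ) ^ 2 / S + (q : ℂ) ^ 2 / K‖
        = ‖(p : ℂ) ^ 2 / S + (q : ℂ) ^ 2 / K‖ * ((x - c) / 2) * (2 / (x - c)) := by
      field_simp
    rw [h8]
    exact mul_le_mul_of_nonneg_right h7 (by positivity)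
  have r3 := mul_le_mul_of_nonneg_left r2 hC
  rw [r1]
  have e3 : 2 * (p ^ 2 * ((x * c - 1) / (x - c) ^ 2 - C / (x - c))
        + q ^ 2 * ((x * c + 1) / (x + c) ^ 2
          - C * (x ^ 2 + c ^ 2 - 2) / ((x + c) ^ 2 * (x - c))))
      = 2 * (p ^ 2 * ((x * c - 1) / (x - c) ^ 2)
      + q ^ 2 * ((x * c + 1) / (x + c) ^ 2))
      - C * ((p ^ 2 + q ^ 2 * ((x ^ 2 + c ^ 2 - 2) / (x + c) ^ 2)) * (2 / (x - c))) := by
    field_simp
    ring
  rw [e3]
  linarith only [r3]

end Pool.Agent.MX
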