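import Pool.Agent.MX.S.ReflA

/-!
# Edges with equal signs: the sum of the slopes at conjugate points, the main inequality
-/

set_option autoImplicit false

namespace Pool.Agent.MX

open Complex Pool.Agent.S3

theorem cos_one_ge : 54 / 100 ≤ Real.cos 1 := by
  have h4 : 511 / 512 ≤ Real.cos (1 / 16) := by
    have := Real.one_sub_sq_div_two_le_cos (x := 1 / 16)
    norm_num at this ⊢
    linarith only [this]
  have d : ∀ x : ℝ, Real.cos (2 * x) = 2 * Real.cos x ^ 2 - 1 := Real.cos_two_mul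
  have e3 : Real.cos (1 / 8) = 2 * Real.cos (1 / 16) ^ 2 - 1 := by rw [← d]; norm_num
  have e2 : Real.cos (1 / 4) = 2 * Real.cos (1 / 8) ^ 2 - 1 := by rw [← d]; norm_num
  have e1 : Real.cos (1 / 2) = 2 * Real.cos (1 / 4) ^ 2 - 1 := by rw [← d]; norm_num
  have e0 : Real.cos 1 = 2 * Real.cos (1 / 2) ^ 2 - 1 := by rw [← d]; norm_num
  have h3 : 992195 / 1000000 ≤ Real.cos (1 / 8) := by rw [e3]; linarith only [h4,
                                                                 mul_nonneg (sub_nonneg.2 h4) (sub_nonneg.2 h4)]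
  have h2 : 968901 / 1000000 ≤ Real.cos (1 / 4) := by rw [e2]; linarith only [e3, h4,
                                                                 mul_nonneg (sub_nonneg.2 h3) (sub_nonneg.2 h3),
                                                                 mul_nonneg (sub_nonneg.2 h4) (sub_nonneg.2 h4)]
  have h1 : 877538 / 1000000 ≤ Real.cos (1 / 2) := by rw [e1]; linarith only [e2,
                                                                 mul_nonneg (sub_nonneg.2 h2) (sub_nonneg.2 h2),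
                                                                 mul_nonneg (sub_nonneg.2 e2.le) (sub_nonneg.2 e2.le),
                                                                 mul_nonneg (sub_nonneg.2 e2.ge) (sub_nonneg.2 e2.le),
                                                                 mul_nonneg (sq_nonneg (1 * Real.cos (1 / 8))) (sub_nonneg.2 h2),
                                                                 mul_nonneg (sq_nonneg (1 * Real.cos (1 / 8))) (sub_nonneg.2 e2.le),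
                                                                 mul_nonneg (sq_nonneg (1 * Real.cos (1 / 8))) (sub_nonneg.2 e2.ge)]
  rw [e0]; linarith only [e1, mul_nonneg (sub_nonneg.2 h1) (sub_nonneg.2 h1),
             mul_nonneg (sub_nonneg.2 e1.le) (sub_nonneg.2 e1.le),
             mul_nonneg (sub_nonneg.2 e1.ge) (sub_nonneg.2 e1.le),
             mul_nonneg (sq_nonneg (1 * Real.cos (1 / 4))) (sub_nonneg.2 h1),
             mul_nonneg (sq_nonneg (1 * Real.cos (1 / 4))) (sub_nonneg.2 e1.le),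
             mul_nonneg (sq_nonneg (1 * Real.cos (1 / 4))) (sub_nonneg.2 e1.ge)]

theorem cos_sq_half_ge {t : ℝ} (h : |t| ≤ 1 / 2) : 77 / 100 ≤ Real.cos t ^ 2 := by
  have h1 : Real.cos 1 ≤ Real.cos (2 * t) := by
    rw [← Real.cos_abs (2 * t)]
    apply Real.cos_le_cos_of_nonneg_of_le_pi (abs_nonneg _)
    · linarith only [Real.pi_gt_three]
    · rw [abs_mul, abs_two]; linarith only [h]
  have := cos_one_ge
  rw [Real.cos_sq]; linarith only [this, h1]

/-- the value at a point of the strip -/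
theorem cosh_sq_f {u : ℂ} (h : |u.im| ≤ 1 / 2) :
    354 / 1000 < (cosh u ^ 2).re - 27 / 50 * ‖cosh u ^ 2‖ := by
  have h1 := cos_sq_half_ge h
  have h2 : (cosh u ^ 2).re = Real.cos u.im ^ 2 + Real.sinh u.re ^ 2 * (2 * Real.cos u.im ^ 2 - 1) := by
    rw [sq, mul_re, cosh_re', cosh_im']
    have h3 := Real.cosh_sq u.re
    have h4 := Real.sin_sq_add_cos_sq u.im
    have h5 : Real.sin u.im ^ 2 = 1 - Real.cos u.im ^ 2 := by linarith only [h4]
    calc _ = Real.cosh u.re ^ 2 * Real.cos u.im ^ 2 - Real.sinh u.re ^ 2 * Real.sin u.im ^ 2 := by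
          ring
      _ = _ := by rw [h3, h5]; ring
  have h3 : ‖cosh u ^ 2‖ = Real.sinh u.re ^ 2 + Real.cos u.im ^ 2 := by
    rw [norm_pow, ← normSq_eq_norm_sq, normSq_cosh']
  rw [h2, h3]
  have h4 : 0 ≤ Real.sinh u.re ^ 2 * (2 * Real.cos u.im ^ 2 - 1 - 27 / 50) :=
    mul_nonneg (sq_nonneg _) (by linarith only [h1])
  linarith only [h4, h1]

/-- the tangent of the real part of `gd` -/
theorem gd_re_tan {y t : ℝ} (h : |t| < Real.pi / 2) :
    Real.sin (gd (UU y t)).re * Real.cos t = Real.cos (gd (UU y t)).re * Real.sinh y := by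
  have h' : |(UU y t).im| < Real.pi / 2 := by simpa using h
  obtain ⟨P, hP⟩ : ∃ P, P = gd (UU y t) := ⟨_, rfl⟩
  have s1 : sin P = tanh (UU y t) := by rw [hP, sin_gd h']
  have s2 : cos P = 1 / cosh (UU y t) := by rw [hP, cos_gd h']
  have hne := cosh_ne h'
  have hn : 0 < normSq (cosh (UU y t)) := normSq_pos.2 hne
  rw [← hP]
  have e1 : (sin P).re = Real.sin P.re * Real.cosh P.im := by
    conv_lhs => rw [← re_add_im P]
    rw [Complex.sin_add, Complex.cos_mul_I, Complex.sin_mul_I]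
    simp [← Complex.ofReal_cosh, ← Complex.ofReal_cos, ← Complex.ofReal_sinh, ← Complex.ofReal_sin]
  have e2 : (cos P).re = Real.cos P.re * Real.cosh P.im := by
    conv_lhs => rw [← re_add_im P]
    rw [Complex.cos_add, Complex.cos_mul_I, Complex.sin_mul_I]
    simp [← Complex.ofReal_cosh, ← Complex.ofReal_cos, ← Complex.ofReal_sinh, ← Complex.ofReal_sin]
  have f1 : (sin P).re = Real.sinh y * Real.cosh y / normSq (cosh (UU y t)) := by
    rw [s1, tanh_eq_sinh_div_cosh, div_re, ← add_div]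
    congr 1
    rw [sinh_re', sinh_im', cosh_re', cosh_im', UU_re, UU_im]
    have := Real.sin_sq_add_cos_sq t
    calc _ = Real.sinh y * Real.cosh y * (Real.sin t ^ 2 + Real.cos t ^ 2) := by ring
      _ = _ := by rw [this, mul_one]
  have f2 : (cos P).re = Real.cosh y * Real.cos t / normSq (cosh (UU y t)) := by
    rw [s2, one_div, inv_re, cosh_re', UU_re, UU_im]
  have hch := Real.cosh_pos P.im
  apply mul_right_cancel₀ hch.ne'
  calc _ = (Real.sin P.re * Real.cosh P.im) * Real.cos t := by ring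
    _ = (Real.cos P.re * Real.cosh P.im) * Real.sinh y := by
        rw [← e1, ← e2, f1, f2]; ring
    _ = _ := by ring

theorem gd_re_zero {t : ℝ} (h : |t| < Real.pi / 2) : (gd (UU 0 t)).re = 0 := by
  have h1 := gd_neg_conj (x := 0) h
  rw [neg_zero] at h1
  have h2 := congrArg Complex.re h1
  rw [neg_re, conj_re] at h2
  linarith only [h2]

/-- the algebraic identity -/
theorem M_eq {q1 q2 u s s' : ℂ} (hu : cosh u ≠ 0) (h1 : sinh q1 = s / cosh u)
    (h2 : sinh q2 = s' / cosh u) (hs : sinh ((q1 + q2) / 2) ≠ 0) (hc : cosh ((q1 + q2) / 2) ≠ 0) :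
    ((s + s') / 2) ^ 2 / sinh ((q1 + q2) / 2) ^ 2 - ((s - s') / 2) ^ 2 / cosh ((q1 + q2) / 2) ^ 2
      = cosh u ^ 2 := by
  obtain ⟨ω, hω⟩ : ∃ ω, ω = (q1 + q2) / 2 := ⟨_, rfl⟩
  obtain ⟨δ, hδ⟩ : ∃ δ, δ = (q1 - q2) / 2 := ⟨_, rfl⟩
  have e1 : q1 = ω + δ := by rw [hω, hδ]; ring
  have e2 : q2 = ω - δ := by rw [hω, hδ]; ring
  rw [← hω] at hs hc ⊢
  have k1 : s + s' = 2 * cosh u * (sinh ω * cosh δ) := by
    have a1 : s = sinh q1 * cosh u := by rw [h1]; field_simp
    have a2 : s' = sinh q2 * cosh u := by rw [h2]; field_simp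
    rw [a1, a2, e1, e2, sinh_add, sinh_sub]; ring
  have k2 : s - s' = 2 * cosh u * (cosh ω * sinh δ) := by
    have a1 : s = sinh q1 * cosh u := by rw [h1]; field_simp
    have a2 : s' = sinh q2 * cosh u := by rw [h2]; field_simp
    rw [a1, a2, e1, e2, sinh_add, sinh_sub]; ring
  rw [k1, k2]
  have h3 := cosh_sq δ
  field_simp
  linear_combination h3

/-- The level set of the sum does not meet the strip. -/
theorem level {u w q1 q2 : ℂ} {y t R : ℝ} (hu : |u.im| ≤ 1 / 2) (hw : w = UU y t)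
    (ht : |t| ≤ 1 / 2) (hy : 0 < y) (hR : R = (gd w).re) (hR1 : R ≤ 13 * Real.pi / 40)
    (h1 : sinh q1 = sinh w / cosh u) (h2 : sinh q2 = sinh ((starRingEnd ℂ) w) / cosh u)
    (h3 : q1.im + q2.im = -(4 * R / 5)) : False := by
  have hpi := Real.pi_gt_three
  have ht' : |t| < Real.pi / 2 := by linarith only [hpi, ht]
  have hu' : |u.im| < Real.pi / 2 := by linarith only [hpi, hu]
  have hR0 : 0 < R := by rw [hR, hw]; exact gd_re_pos hy ht'
  have hg : Real.sin R * Real.cos t = Real.cos R * Real.sinh y := by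
    rw [hR, hw]; exact gd_re_tan ht'
  have ct := cos_sq_half_ge ht
  have ct0 := cos_pos' ht'
  obtain ⟨κ, hκ⟩ : ∃ κ, κ = Real.cos t ^ 2 := ⟨_, rfl⟩
  obtain ⟨T, hT⟩ : ∃ T, T = Real.sinh y ^ 2 / κ := ⟨_, rfl⟩
  have κ0 : 0 < κ := by rw [hκ]; positivity
  have κ1 : κ ≤ 1 := by
    have := Real.sin_sq_add_cos_sq t
    rw [hκ]; linarith only [sq_nonneg (Real.sin t), this]
  rw [← hκ] at ct
  have T0 : 0 < T := by
    rw [hT]; have := Real.sinh_pos_iff.2 hy; positivity
  have hTR : T * Real.cos R ^ 2 = Real.sin R ^ 2 := by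
    have : (Real.sin R * Real.cos t) ^ 2 = (Real.cos R * Real.sinh y) ^ 2 := by rw [hg]
    rw [hT]
    field_simp
    rw [hκ]; linarith only [this]
  obtain ⟨b1, b2, b3, b4⟩ := T_bd hR0 hR1 hTR
  obtain ⟨c, hc⟩ : ∃ c, c = Real.cos (4 * R / 5) := ⟨_, rfl⟩
  rw [← hc] at b1 b2 b3 b4
  obtain ⟨ω, hω⟩ : ∃ ω, ω = (q1 + q2) / 2 := ⟨_, rfl⟩
  obtain ⟨x, hx⟩ : ∃ x, x = Real.cosh (2 * ω.re) := ⟨_, rfl⟩
  have x1 : 1 ≤ x := by rw [hx]; exact Real.one_le_cosh _
  have hcω : c = Real.cos (2 * ω.im) := by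
    have : 2 * ω.im = -(4 * R / 5) := by
      rw [← h3, hω]
      have : ((q1 + q2) / 2).im = (q1.im + q2.im) / 2 := by
        rw [show (q1 + q2) / 2 = (q1 + q2) / ((2 : ℝ) : ℂ) by norm_num, div_ofReal_im, add_im]
      rw [this]; ring
    rw [this, Real.cos_neg, hc]
  have hcx : c < x := by linarith only [x1, b1]
  have hcx2 : -x < c := by linarith only [x1, b1, b2]
  obtain ⟨p, hp⟩ : ∃ p, p = (sinh w).re := ⟨_, rfl⟩
  obtain ⟨q, hq⟩ : ∃ q, q = (sinh w).im := ⟨_, rfl⟩
  have hb := M_bound (C := 27 / 50) (p := p) (q := q) (by norm_num) hx hcω hcx hcx2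
  -- sinh, cosh at ω
  have nS : normSq (sinh ω) * 2 = x - c := by
    rw [normSq_sinh', hx, hcω, Real.cosh_two_mul, Real.cos_two_mul, Real.cosh_sq]
    have := Real.sin_sq_add_cos_sq ω.im
    linarith only [this]
  have nK : normSq (cosh ω) * 2 = x + c := by
    rw [normSq_cosh', hx, hcω, Real.cosh_two_mul, Real.cos_two_mul, Real.cosh_sq]
    ring
  have S0 : sinh ω ≠ 0 := by
    intro h; rw [h] at nS; simp at nS; linarith only [nS, x1, b1]
  have K0 : cosh ω ≠ 0 := by
    intro h; rw [h] at nK; simp at nK; linarith only [nK, x1, b1, b2]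
  have hM : (p : ℂ) ^ 2 / sinh ω ^ 2 + (q : ℂ) ^ 2 / cosh ω ^ 2 = cosh u ^ 2 := by
    rw [hω] at S0 K0 ⊢
    rw [← M_eq (cosh_ne hu') h1 h2 S0 K0]
    have e1 : sinh w = (p : ℂ) + (q : ℂ) * I := by rw [hp, hq, re_add_im]
    have e2 : sinh ((starRingEnd ℂ) w) = (p : ℂ) - (q : ℂ) * I := by
      rw [← conj_sinh', e1]; simp [sub_eq_add_neg]
    rw [e1, e2]
    have e3 : ((p : ℂ) + q * I + (p - q * I)) / 2 = p := by ring
    have e4 : ((p : ℂ) + q * I - (p - q * I)) / 2 = q * I := by ring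
    rw [e3, e4, mul_pow, I_sq]
    ring
  rw [hM] at hb
  have hlow := cosh_sq_f hu
  -- the real numbers
  have hp2 : p ^ 2 = κ ^ 2 * T := by
    rw [hp, hw, sinh_re', UU_re, UU_im, hT]
    field_simp
    rw [hκ]
  have hq2 : q ^ 2 = (1 - κ) * (1 + κ * T) := by
    rw [hq, hw, sinh_im', UU_re, UU_im, hT]
    have h4 := Real.sin_sq_add_cos_sq t
    have h5 : Real.sin t ^ 2 = 1 - κ := by rw [hκ]; linarith only [h4]
    rw [mul_pow, h5, Real.cosh_sq]
    field_simp
    ring
  obtain ⟨e, he⟩ : ∃ e, e = 1 - c := ⟨_, rfl⟩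
  rw [← he] at b1 b2 b3 b4
  have hce : c = 1 - e := by linarith only [he]
  have hxc : 0 < x - c := by linarith only [hcx]
  have hxc2 : 0 < x + c := by linarith only [hcx2]
  obtain ⟨v, hv⟩ : ∃ v, v = e / (x - c) := ⟨_, rfl⟩
  have v0 : 0 < v := by rw [hv]; positivity
  have v1 : v ≤ 1 := by rw [hv, div_le_one hxc]; linarith only [he, x1]
  obtain ⟨B, hB⟩ : ∃ B, B = (x * c + 1) / (x + c) ^ 2
    - 27 / 50 * (x ^ 2 + c ^ 2 - 2) / ((x + c) ^ 2 * (x - c)) := ⟨_, rfl⟩
  have hxe : x - c = e / v := by rw [hv]; field_simp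
  have hx2 : x = (1 - e) + e / v := by linarith only [hxe, he]
  have hBv : B * (e + 2 * (1 - e) * v) ^ 2 = (46 / 100 - e) * e * v
      + (92 / 100 - 92 / 100 * e + e ^ 2) * v ^ 2 + 108 / 100 * (2 - e) * v ^ 3 := by
    have k1 : x + c = (e + 2 * (1 - e) * v) / v := by rw [hx2, hce]; field_simp; ring
    have k2 : 0 < (e + 2 * (1 - e) * v) := by
      have : 0 < 2 * (1 - e) * v := mul_pos (by linarith only [b2]) v0
      linarith only [this, b1]
    have k3 := k2.ne'
    have k4 := v0.ne'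
    have k5 := b1.ne'
    have k6 : B * (e + 2 * (1 - e) * v) ^ 2
        = ((x * c + 1) - 27 / 50 * (x ^ 2 + c ^ 2 - 2) / (x - c)) * v ^ 2 := by
      rw [hB, k1]
      obtain ⟨D, hD⟩ : ∃ D, D = e + 2 * (1 - e) * v := ⟨_, rfl⟩
      rw [← hD] at k3 ⊢
      obtain ⟨y1, hy1⟩ : ∃ y1, y1 = x - c := ⟨_, rfl⟩
      rw [← hy1] at hxc ⊢
      field_simp
    rw [k6, hxe, hx2, hce]
    field_simp
    ring
  have hA : (x * c - 1) / (x - c) ^ 2 - 27 / 50 / (x - c)
      = ((46 / 100 - e) * v - (2 - e) * v ^ 2) / e := by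
    rw [hxe, hx2, hce]
    field_simp
    ring
  have B0 : 0 ≤ B := by
    have k2 : 0 < (e + 2 * (1 - e) * v) := by
      have : 0 < 2 * (1 - e) * v := mul_pos (by linarith only [b2]) v0
      linarith only [this, b1]
    have a1 : 0 ≤ (46 / 100 - e) * e * v := by
      apply mul_nonneg (mul_nonneg (by linarith only [b2]) b1.le) v0.le
    have a2 : 0 ≤ (92 / 100 - 92 / 100 * e + e ^ 2) * v ^ 2 := by
      apply mul_nonneg (by linarith only [b2, sq_nonneg (1 * e)]) (by positivity)
    have a3 : 0 ≤ 108 / 100 * (2 - e) * v ^ 3 := by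
      apply mul_nonneg (by linarith only [b2]) (by positivity)
    have a4 : 0 ≤ B * (e + 2 * (1 - e) * v) ^ 2 := by rw [hBv]; linarith only [a3, a2, a1]
    exact nonneg_of_mul_nonneg_left a4 (by positivity)
  have hm := rp_main (T := κ ^ 2 * T) b1 b2 v0 v1 hBv (by
    have k1 : κ ^ 2 * T ≤ T := by
      have : κ ^ 2 ≤ 1 := by (refine le_of_not_gt fun hng => ?_; linarith only [κ1, hκ,
                               mul_nonneg (sub_nonneg.2 ct) (sub_nonneg.2 hκ.le),
                               mul_nonneg (sub_nonneg.2 ct) (sub_nonneg.2 hκ.ge),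
                               mul_pos (sub_pos.2 hng) (sub_pos.2 b1),
                               mul_nonneg (sub_nonneg.2 hng.le) (sub_nonneg.2 b2),
                               mul_nonneg (sq_nonneg (Real.cos t)) (sub_nonneg.2 κ1)])
      (refine le_of_not_gt fun hng => ?_; linarith only [mul_nonneg (sub_nonneg.2 T0.le) (sub_nonneg.2 this),
        mul_pos (sub_pos.2 hng) (sub_pos.2 b1), mul_nonneg (sub_nonneg.2 hng.le) (sub_nonneg.2 b2)])
    have k2 : 0 ≤ 1 - 23 / 10 * e := by linarith only [b2]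
    exact le_trans (mul_le_mul_of_nonneg_right k1 k2) b3) (by
    have k1 : (77 / 100) ^ 2 ≤ κ ^ 2 := by linarith only [ct,
                                             mul_nonneg (sub_nonneg.2 ct) (sub_nonneg.2 ct)]
    (refine le_of_not_gt fun hng => ?_; linarith only [b1, hp2,
      mul_nonneg (sub_nonneg.2 hng.le) (sub_nonneg.2 k1),
      mul_nonneg (sq_nonneg (p)) (sub_nonneg.2 k1), mul_nonneg (sq_nonneg (κ)) (sub_nonneg.2 b4),
      mul_nonneg (sq_nonneg (κ)) (sub_nonneg.2 hp2.le),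
      mul_nonneg (sq_nonneg (κ)) (sub_nonneg.2 hp2.ge),
      mul_nonneg (sq_nonneg (κ)) (sub_nonneg.2 hng.le)]))
  have hq3 : q ^ 2 ≤ 23 / 100 + 299 / 1000 * (κ ^ 2 * T) := by
    rw [hq2]
    have k1 : 0 ≤ κ * T := by positivity
    have k2 : (1 - κ) * (κ * T) ≤ 299 / 1000 * κ * (κ * T) :=
      mul_le_mul_of_nonneg_right (by linarith only [ct]) k1
    linarith only [k2, ct]
  have hq4 := mul_le_mul_of_nonneg_right hq3 B0
  rw [← hB, hA, hp2] at hb
  linarith only [hq4, hm, hb, hlow]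

end Pool.Agent.MX
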