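import Pool.Agent.MX.S.Pair
import Pool.Agent.MX.S.Dneg

/-!
# Edges with equal signs: the bounds on the lines and on the verticals
-/

set_option autoImplicit false

namespace Pool.Agent.MX

open Complex Pool.Agent.S3
open Pool.Agent.H25.RK (gdv gdv_re_lt gdv_hasDerivAt)

section

variable {θ θ' xc xc' b b' : ℝ} {Φ : ℂ → ℂ → ℂ} {v w : ℂ}

/-! ### The quantitative inequality on the lines -/

theorem DfunS_eq_zero (b b' x x' : ℝ) : DfunS Φ θ θ' b b' xc xc' x x' =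
    DfunS Φ θ θ' 0 0 xc xc' x x' -
      (b * (I / (Real.pi : ℂ) * (gd (UU x θ) - gd (UU xc θ)) ^ 2).re +
        b' * (I / (Real.pi : ℂ) * (gd (UU x' θ') - gd (UU xc' θ')) ^ 2).re) := by
  unfold DfunS
  rw [← re_ofReal_mul, ← re_ofReal_mul, ← add_re, ← sub_re]
  congr 1
  push_cast
  ring

theorem DfunS_zero_le (hΦ : IsPhi Φ) (h : SamHyp θ θ') (hc : 0 ≤ xc) (hc' : 0 ≤ xc') {x x' : ℝ}
    (hx : 0 ≤ x) (hx' : 0 ≤ x') : DfunS Φ θ θ' 0 0 xc xc' x x' ≤ 0 := by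
  obtain ⟨A, hA⟩ : ∃ A, A = (I / (Real.pi : ℂ) * (gd (UU x θ) - gd (UU xc θ)) ^ 2).re := ⟨_, rfl⟩
  obtain ⟨B, hB⟩ : ∃ B, B = (I / (Real.pi : ℂ) * (gd (UU x' θ') - gd (UU xc' θ')) ^ 2).re :=
    ⟨_, rfl⟩
  have key : ∀ ε : ℝ, 0 < ε → DfunS Φ θ θ' 0 0 xc xc' x x' ≤ ε * (|A + B| + 1) := by
    intro ε hε
    have h1 := DfunS_nonpos (b := ε) (b' := ε) hΦ h hε hε hc hc' hx hx'
    rw [DfunS_eq_zero, ← hA, ← hB] at h1
    have h2 : A + B ≤ |A + B| + 1 := by linarith [le_abs_self (A + B)]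
    nlinarith
  by_contra hn
  push Not at hn
  have hp : 0 < |A + B| + 1 := by positivity
  have := key (DfunS Φ θ θ' 0 0 xc xc' x x' / (2 * (|A + B| + 1))) (by positivity)
  have e : DfunS Φ θ θ' 0 0 xc xc' x x' / (2 * (|A + B| + 1)) * (|A + B| + 1) =
      DfunS Φ θ θ' 0 0 xc xc' x x' / 2 := by
    field_simp
  rw [e] at this
  linarith

theorem gauss_re (hθ : |θ| < Real.pi / 2) (x xc : ℝ) :
    (I / (Real.pi : ℂ) * (gd (UU x θ) - gd (UU xc θ)) ^ 2).re =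
      2 * Real.pi * (((gdv (UU x θ)).re - (gdv (UU xc θ)).re) *
        ((gdv (UU xc θ)).im - (gdv (UU x θ)).im)) := by
  have hpi : (Real.pi : ℂ) ≠ 0 := by exact_mod_cast Real.pi_ne_zero
  rw [gd_eq (by rwa [UU_im]), gd_eq (by rwa [UU_im]), ← mul_sub, mul_pow]
  have e : I / (Real.pi : ℂ) * ((Real.pi : ℂ) ^ 2 * (gdv (UU x θ) - gdv (UU xc θ)) ^ 2) =
      ((Real.pi : ℝ) : ℂ) * (I * (gdv (UU x θ) - gdv (UU xc θ)) ^ 2) := by
    field_simp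
  rw [e, re_ofReal_mul, mul_re, I_re, I_im, sq, mul_im, sub_re, sub_im]
  ring

/-- The gain of the share of a vertex on the line. -/
noncomputable def GGv (θ b xc : ℝ) (v : ℂ) : ℝ :=
  2 * Real.pi * b * ((v.re - (gdv (UU xc θ)).re) * ((gdv (UU xc θ)).im - v.im))

theorem DfunS_le_GG (hΦ : IsPhi Φ) (h : SamHyp θ θ') (hc : 0 ≤ xc) (hc' : 0 ≤ xc') {x x' : ℝ}
    (hx : 0 ≤ x) (hx' : 0 ≤ x') : DfunS Φ θ θ' b b' xc xc' x x' ≤
      -(GGv θ b xc (gdv (UU x θ)) + GGv θ' b' xc' (gdv (UU x' θ'))) := by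
  have h0 := DfunS_zero_le hΦ h hc hc' hx hx'
  rw [DfunS_eq_zero, gauss_re h.abs, gauss_re h.symm.abs]
  unfold GGv
  linarith

theorem bl_anti (h0 : 0 ≤ θ) (h1 : θ < Real.pi / 2) {r s : ℝ} (hr : 0 ≤ r) (hrs : r ≤ s)
    (hs : s ≤ 1 / 2) : bl θ s ≤ bl θ r := by
  have hpi := Real.pi_pos
  unfold bl
  apply div_le_div_of_nonneg_right _ hpi.le
  apply Real.arsinh_le_arsinh.2
  apply mul_le_mul_of_nonneg_left _ (Real.tan_nonneg_of_nonneg_of_le_pi_div_two h0 h1.le)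
  apply Real.cos_le_cos_of_nonneg_of_le_pi (by positivity) (by nlinarith)
  exact mul_le_mul_of_nonneg_left hrs hpi.le

theorem GGv_nonneg (hθ : Ht θ) (hb : 0 ≤ b) (hx : 0 ≤ xc) (hr : (gdv (UU xc θ)).re < 13 / 40)
    (h0 : 0 ≤ v.re) (h1 : v.re ≤ 1 / 2) (hl : v.im = bl θ v.re) : 0 ≤ GGv θ b xc v := by
  have hpi := Real.pi_pos
  have l1 := line_im_bl (x := xc) hθ.abs
  have hu := line_und V1_t hθ hx hr.le
  unfold GGv
  apply mul_nonneg (by positivity)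
  rw [hl, l1]
  rcases le_total v.re (gdv (UU xc θ)).re with h | h
  · apply mul_nonneg_of_nonpos_of_nonpos (by linarith)
    linarith [bl_anti hθ.pos.le hθ.lt h0 h (by linarith)]
  · apply mul_nonneg (by linarith)
    linarith [bl_anti hθ.pos.le hθ.lt hu.re0 h h1]

/-! ### The bound -/

/-- The canonical split of an edge with equal signs. -/
structure SplitS (θ θ' xc xc' b b' : ℝ) : Prop where
  b1 : 2 / 5 < b
  b1' : 2 / 5 < b'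
  hQ : (qq (UU xc θ) (UU xc' θ')).re = b * (gd (UU xc θ)).im
  hQ' : (qq (UU xc' θ') (UU xc θ)).re = b' * (gd (UU xc' θ')).im

theorem SplitS.symm (h : SplitS θ θ' xc xc' b b') : SplitS θ' θ xc' xc b' b :=
  ⟨h.b1', h.b1, h.hQ', h.hQ⟩

theorem SplitS.b0 (h : SplitS θ θ' xc xc' b b') : 0 < b := by linarith [h.b1]

/-- The bound of the edge on the two lines. -/
noncomputable def L0S (Φ : ℂ → ℂ → ℂ) (θ θ' b b' xc xc' : ℝ) (v w : ℂ) : ℝ :=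
  (Φ (gdv (UU xc θ)) (gdv (UU xc' θ'))).re +
    ell (gdv (UU xc θ)) (qq (UU xc θ) (UU xc' θ')) (-2 * Real.pi * b) v +
    ell (gdv (UU xc' θ')) (qq (UU xc' θ') (UU xc θ)) (-2 * Real.pi * b') w

theorem L0S_line (h : SamHyp θ θ') (x x' : ℝ) :
    L0S Φ θ θ' b b' xc xc' (gdv (UU x θ)) (gdv (UU x' θ')) =
      (Φ (gdv (UU x θ)) (gdv (UU x' θ'))).re - DfunS Φ θ θ' b b' xc xc' x x' := by
  have hpi : (Real.pi : ℂ) ≠ 0 := by exact_mod_cast Real.pi_ne_zero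
  have a1 : ∀ y, |(UU y θ).im| < Real.pi / 2 := fun y => by rw [UU_im]; exact h.abs
  have a3 : ∀ y, |(UU y θ').im| < Real.pi / 2 := fun y => by rw [UU_im]; exact h.symm.abs
  have g1 : ∀ y, gd (UU y θ) = (Real.pi : ℂ) * gdv (UU y θ) := fun y => gd_eq (a1 y)
  have g2 : ∀ y, gd (UU y θ') = (Real.pi : ℂ) * gdv (UU y θ') := fun y => gd_eq (a3 y)
  rw [L0S, DfunS, ell, ell]
  simp only [g1, g2]
  obtain ⟨V, hV⟩ : ∃ V, V = gdv (UU x θ) := ⟨_, rfl⟩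
  obtain ⟨Vc, hVc⟩ : ∃ V, V = gdv (UU xc θ) := ⟨_, rfl⟩
  obtain ⟨W, hW⟩ : ∃ V, V = gdv (UU x' θ') := ⟨_, rfl⟩
  obtain ⟨Wc, hWc⟩ : ∃ V, V = gdv (UU xc' θ') := ⟨_, rfl⟩
  obtain ⟨Q, hQ⟩ : ∃ Q, Q = qq (UU xc θ) (UU xc' θ') := ⟨_, rfl⟩
  obtain ⟨Q', hQ'⟩ : ∃ Q, Q = qq (UU xc' θ') (UU xc θ) := ⟨_, rfl⟩
  rw [← hV, ← hVc, ← hW, ← hWc, ← hQ, ← hQ']
  have e1 : (Real.pi : ℂ) * V / (Real.pi : ℂ) = V := mul_div_cancel_left₀ _ hpi
  have e2 : (Real.pi : ℂ) * W / (Real.pi : ℂ) = W := mul_div_cancel_left₀ _ hpi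
  have e3 : (Real.pi : ℂ) * Vc / (Real.pi : ℂ) = Vc := mul_div_cancel_left₀ _ hpi
  have e4 : (Real.pi : ℂ) * Wc / (Real.pi : ℂ) = Wc := mul_div_cancel_left₀ _ hpi
  rw [e1, e2, e3, e4]
  have f1 : ∀ Q V Vc : ℂ, 2 * Q * ((Real.pi : ℂ) * V - (Real.pi : ℂ) * Vc) / (Real.pi : ℂ) =
      2 * Q * (V - Vc) := fun Q V Vc => by
    field_simp
  have f3 : ∀ (b : ℝ) (V Vc : ℂ), I * (b : ℂ) / (Real.pi : ℂ) * ((Real.pi : ℂ) * V -
      (Real.pi : ℂ) * Vc) ^ 2 = -(I * ((-2 * Real.pi * b : ℝ) : ℂ) / 2 * (V - Vc) ^ 2) :=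
    fun b V Vc => by
    push_cast; field_simp
  rw [f1, f1, f3, f3]
  simp only [sub_re, add_re, neg_re]
  ring

/-- On the lines. -/
theorem PrS.D_le (hΦ : IsPhi Φ) (hc : 0 < xc) (hc' : 0 < xc') (h : PrS θ θ' v w) :
    (Φ (up θ v) (up θ' w)).re ≤ L0S Φ θ θ' b b' xc xc' (up θ v) (up θ' w) -
      (GGv θ b xc (up θ v) + GGv θ' b' xc' (up θ' w)) := by
  have e1 := h.hv.up_line h.hθ
  have e2 := h.hw.up_line h.hθ'
  have k := L0S_line (Φ := Φ) (b := b) (b' := b') (xc := xc) (xc' := xc') h.hs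
    (uof (up θ v)).re (uof (up θ' w)).re
  have d := DfunS_le_GG (b := b) (b' := b') hΦ h.hs hc.le hc'.le
    (uof_re_nonneg (h.hv.up h.hθ).abs (h.hv.up h.hθ).re0)
    (uof_re_nonneg (h.hw.up h.hθ').abs (h.hw.up h.hθ').re0)
  rw [← e1, ← e2] at k d
  linarith

theorem PrS.D_lt (hΦ : IsPhi Φ) (hs : SplitS θ θ' xc xc' b b') (hc : 0 < xc) (hc' : 0 < xc')
    (h : PrS θ θ' v w) (hne : up θ v ≠ gdv (UU xc θ) ∨ up θ' w ≠ gdv (UU xc' θ')) :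
    (Φ (up θ v) (up θ' w)).re < L0S Φ θ θ' b b' xc xc' (up θ v) (up θ' w) := by
  have e1 := h.hv.up_line h.hθ
  have e2 := h.hw.up_line h.hθ'
  have k := L0S_line (Φ := Φ) (b := b) (b' := b') (xc := xc) (xc' := xc') h.hs
    (uof (up θ v)).re (uof (up θ' w)).re
  have d := DfunS_neg hΦ h.hs hs.b0 hs.symm.b0 hc.le hc'.le
    (uof_re_nonneg (h.hv.up h.hθ).abs (h.hv.up h.hθ).re0)
    (uof_re_nonneg (h.hw.up h.hθ').abs (h.hw.up h.hθ').re0) (Φ := Φ) (xc := xc) (xc' := xc')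
    (by
      intro he
      rw [Prod.mk.injEq] at he
      rw [he.1] at e1
      rw [he.2] at e2
      rcases hne with h1 | h1
      · exact h1 e1
      · exact h1 e2)
  rw [← e1, ← e2] at k
  linarith

end

end Pool.Agent.MX
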