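import Pool.Agent.MX.S.Vert
import Pool.Agent.S3.W.Gain

/-!
# Edges with equal signs: the verticals `re v = 13/40`
-/

set_option autoImplicit false

namespace Pool.Agent.MX

open Complex Pool.Agent.S3
open Pool.Agent.H25.RK (gdv gdv_re_lt gdv_hasDerivAt)

section

variable {θ θ' xc xc' b b' : ℝ} {Φ : ℂ → ℂ → ℂ} {v w : ℂ}

theorem cos_half_ge : 8771 / 10000 ≤ Real.cos (1 / 2) := by
  have h1 := Real.cos_bound (x := 1 / 8) (by rw [abs_of_pos (by norm_num)]; norm_num)
  rw [abs_of_pos (show (0 : ℝ) < 1 / 8 by norm_num)] at h1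
  have h2 := (abs_le.1 h1).1
  have h3 : (99217 / 100000 : ℝ) ≤ Real.cos (1 / 8) := by
    norm_num at h2 ⊢
    linarith only [h2]
  have e1 : Real.cos (1 / 4) = 2 * Real.cos (1 / 8) ^ 2 - 1 := by
    rw [← Real.cos_two_mul]; norm_num
  have e2 : Real.cos (1 / 2) = 2 * Real.cos (1 / 4) ^ 2 - 1 := by
    rw [← Real.cos_two_mul]; norm_num
  have h4 : (9688 / 10000 : ℝ) ≤ Real.cos (1 / 4) := by
    rw [e1]; linarith only [h2, mul_nonneg (sub_nonneg.2 h2) (sub_nonneg.2 h2)]
  rw [e2]; linarith only [e1, h2, mul_nonneg (sub_nonneg.2 h4) (sub_nonneg.2 h4),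
             mul_nonneg (sub_nonneg.2 h2) (sub_nonneg.2 h2)]

theorem tan_sq_half {θ : ℝ} (h0 : 0 ≤ θ) (h1 : θ ≤ 1 / 2) : Real.tan θ ^ 2 ≤ 3 / 10 := by
  have hpi := Real.pi_gt_three
  have h2 : (8771 / 10000 : ℝ) ≤ Real.cos θ :=
    cos_half_ge.trans (Real.cos_le_cos_of_nonneg_of_le_pi h0 (by linarith only [hpi]) h1)
  have h3 : 0 < Real.cos θ := by linarith only [h2]
  rw [Real.tan_eq_sin_div_cos, div_pow, div_le_div_iff₀ (by positivity) (by norm_num)]
  have h4 := Real.sin_sq_add_cos_sq θ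
  linarith only [h4, h3, h2, mul_nonneg (sub_nonneg.2 h2) (sub_nonneg.2 h2)]

/-- `sinh² (π im v) ≤ 3/10 cos² (π re v)` below the line. -/
theorem Und.bl_sinh' (h : Und θ v) (h0 : 0 < θ) (h1 : θ ≤ 1 / 2) :
    Real.sinh (Real.pi * v.im) ^ 2 ≤ 3 / 10 * Real.cos (Real.pi * v.re) ^ 2 := by
  have k1 : Real.sinh (Real.pi * v.im) ≤ Real.tan θ * Real.cos (Real.pi * v.re) := by
    rw [← sinh_pi_bl]
    exact Real.sinh_le_sinh.2 (mul_le_mul_of_nonneg_left h.im1 Real.pi_pos.le)
  have k0 : 0 ≤ Real.sinh (Real.pi * v.im) :=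
    Real.sinh_nonneg_iff.2 (mul_nonneg Real.pi_pos.le h.im0)
  have h2 := pow_le_pow_left₀ k0 k1 2
  rw [mul_pow] at h2
  exact h2.trans (mul_le_mul_of_nonneg_right (tan_sq_half h0.le h1) (sq_nonneg _))

theorem imq_alg {P c e : ℝ} (hP : 2718 / 10000 ≤ P) (hP1 : P ≤ 1) (hc : 0 ≤ c) (hc1 : c ≤ 1)
    (he : 0 ≤ e) (hec : e ≤ 3 / 10 * c) :
    (1 - P) * ((1 - c) * e) ≤ 944 / 10000 * (P + (1 - P) * (c * (1 + e))) := by
  have h0 : 0 ≤ 1 - P := by linarith only [hP1]
  -- at `e = 0` and `e = 3 c / 10`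
  have g0 : 0 ≤ 944 / 10000 * (P + (1 - P) * c) := by positivity
  have g1 : (1 - P) * ((1 - c) * (3 / 10 * c)) ≤
      944 / 10000 * (P + (1 - P) * (c * (1 + 3 / 10 * c))) := by
    have k : 0 ≤ 323 / 10000 - ((1 - c) * (3 / 10 * c) -
        944 / 10000 * (c * (1 + 3 / 10 * c))) := by
      linarith only [sq_nonneg (c - 313 / 1000), hc1]
    have k2 := mul_nonneg h0 k
    have k3 : (1 - P) * (323 / 10000) ≤ 944 / 10000 * P := by linarith only [hP]
    have e1 : (1 - P) * (323 / 10000 - ((1 - c) * (3 / 10 * c) -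
        944 / 10000 * (c * (1 + 3 / 10 * c)))) = (1 - P) * (323 / 10000) -
        (1 - P) * ((1 - c) * (3 / 10 * c)) +
        944 / 10000 * ((1 - P) * (c * (1 + 3 / 10 * c))) := by ring
    rw [e1] at k2
    have e2 : 944 / 10000 * (P + (1 - P) * (c * (1 + 3 / 10 * c))) =
        944 / 10000 * P + 944 / 10000 * ((1 - P) * (c * (1 + 3 / 10 * c))) := by ring
    rw [e2]
    linarith only [k2, hP]
  rcases hc.eq_or_lt with h | h
  · have : e = 0 := by rw [← h] at hec; linarith only [he, hec]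
    rw [this, ← h]
    have : 0 ≤ P := by linarith only [hP]
    simp
    positivity
  · have a1 : 0 ≤ 3 / 10 * c - e := by linarith only [hec]
    have m0 := mul_nonneg a1 g0
    have m1 := mul_nonneg he (sub_nonneg.2 g1)
    have e3 : (3 / 10 * c) * (944 / 10000 * (P + (1 - P) * (c * (1 + e))) -
        (1 - P) * ((1 - c) * e)) = (3 / 10 * c - e) * (944 / 10000 * (P + (1 - P) * c)) +
        e * (944 / 10000 * (P + (1 - P) * (c * (1 + 3 / 10 * c))) -
          (1 - P) * ((1 - c) * (3 / 10 * c))) := by ring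
    have h5 : 0 ≤ (3 / 10 * c) * (944 / 10000 * (P + (1 - P) * (c * (1 + e))) -
        (1 - P) * ((1 - c) * e)) := by
      rw [e3]; exact add_nonneg m0 m1
    have := nonneg_of_mul_nonneg_right h5 (by positivity)
    linarith only [this]

/-- The phase of `q` on the vertical is at least `-5/16`. -/
theorem PrS.im_qq_ge (h : PrS θ θ' v w) (hv : v.re = 13 / 40) :
    -(5 / 16) ≤ (qq (uof v) (uof w)).im := by
  have hpi := Real.pi_pos
  obtain ⟨q, hqq⟩ : ∃ q, q = qq (uof v) (uof w) := ⟨_, rfl⟩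
  have hq1 := (abs_lt.1 (arsh_im_lt (slit h.qs.reg))).1
  change -(Real.pi / 2) < (qq (uof v) (uof w)).im at hq1
  rw [← hqq] at hq1 ⊢
  by_contra hc
  push Not at hc
  obtain ⟨z, hz⟩ : ∃ z, z = sinh (uof v) / cosh (uof w) := ⟨_, rfl⟩
  have hsz : sinh q = z := by rw [hqq, sinh_qq, hz]
  -- `sin² ≥ .0944`
  have s1 : 944 / 10000 < Real.sin q.im ^ 2 := by
    have k1 := Real.sin_gt_sub_cube (x := 5 / 16) (by norm_num)
    have k2 : Real.sin (5 / 16) < Real.sin (-q.im) := by
      apply Real.sin_lt_sin_of_lt_of_le_pi_div_two <;> linarith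
    rw [Real.sin_neg] at k2
    have k3 : (3074 / 10000 : ℝ) < -Real.sin q.im := by
      norm_num at k1 ⊢
      linarith only [k1, k2]
    linarith only [k2, k1, mul_pos (sub_pos.2 k2) (sub_pos.2 k2),
      mul_pos (sub_pos.2 k1) (sub_pos.2 k2), mul_pos (sub_pos.2 k1) (sub_pos.2 k1)]
  have zi : z.im < 0 := by
    rw [← hsz, sinh_im']
    have : Real.sin q.im < 0 := Real.sin_neg_of_neg_of_neg_pi_lt (by linarith only [hc]) (by linarith only [hq1,
                                                                                               hpi])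
    exact mul_neg_of_pos_of_neg (Real.cosh_pos _) this
  -- `sin² r (1 + x²) ≤ y²`
  have s2 : Real.sin q.im ^ 2 * (1 + z.re ^ 2) ≤ z.im ^ 2 := by
    rw [← hsz, sinh_re', sinh_im']
    have h1 := Real.cosh_sq q.re
    have h2 := Real.sin_sq_add_cos_sq q.im
    have h3 : (Real.sinh q.re * Real.cos q.im) ^ 2 ≤ Real.sinh q.re ^ 2 := by
      rw [mul_pow]
      have : Real.cos q.im ^ 2 ≤ 1 := by linarith only [h2, s1]
      linarith only [mul_nonneg (sq_nonneg (Real.sinh q.re)) (sub_nonneg.2 h2.le),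
        mul_nonneg (sq_nonneg (Real.sinh q.re)) (sub_nonneg.2 h2.ge),
        mul_nonneg (sq_nonneg (Real.sinh q.re)) (sq_nonneg (Real.sin q.im))]
    have h4 := mul_le_mul_of_nonneg_left h3 (sq_nonneg (Real.sin q.im))
    rw [mul_pow (Real.cosh q.re), h1]
    linarith only [h4]
  have hPre := pi_re_lt h.hv.abs
  have hcw : cosh (uof w) = 1 / cos (Real.pi * w) := by
    rw [uof, cosh_igd (pi_re_lt h.hw.abs)]
  have hz' : z = sin (Real.pi * v) * cos (Real.pi * w) / cos (Real.pi * v) := by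
    rw [hz, hcw, uof, sinh_igd, Complex.tan_eq_sin_div_cos, div_div_eq_mul_div, div_one]
    ring
  obtain ⟨s, hsd⟩ : ∃ s, s = Real.pi * v.im := ⟨_, rfl⟩
  have s0 : 0 ≤ s := by rw [hsd]; exact mul_nonneg hpi.le h.hv.im0
  have c1 : (cos (Real.pi * v)).re = Real.cos (Real.pi * v.re) * Real.cosh s := by
    rw [wcos_re, pi_mul_re, pi_mul_im, hsd]
  have c2 : (cos (Real.pi * v)).im = -(Real.sin (Real.pi * v.re) * Real.sinh s) := by
    rw [wcos_im, pi_mul_re, pi_mul_im, hsd]
  have c3 : (sin (Real.pi * v)).re = Real.sin (Real.pi * v.re) * Real.cosh s := by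
    rw [wsin_re, pi_mul_re, pi_mul_im, hsd]
  have c4 : (sin (Real.pi * v)).im = Real.cos (Real.pi * v.re) * Real.sinh s := by
    rw [wsin_im, pi_mul_re, pi_mul_im, hsd]
  obtain ⟨g, hg⟩ : ∃ g, g = cos (Real.pi * w) := ⟨_, rfl⟩
  have g1 : g.re = Real.cos (Real.pi * w.re) * Real.cosh (Real.pi * w.im) := by
    rw [hg, wcos_re, pi_mul_re, pi_mul_im]
  have g2 : g.im = -(Real.sin (Real.pi * w.re) * Real.sinh (Real.pi * w.im)) := by
    rw [hg, wcos_im, pi_mul_re, pi_mul_im]
  rw [← hg] at hz'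
  have a1 := Real.sin_sq_add_cos_sq (Real.pi * v.re)
  have a2 := Real.cosh_sq s
  have a3 := Real.sin_sq_add_cos_sq (Real.pi * w.re)
  have a4 := Real.cosh_sq (Real.pi * w.im)
  have b2 := Und.bl_sinh' h.hw h.hs.θ0' h.hs.θ1'
  obtain ⟨p1, p2⟩ := cos_sq_v1
  rw [← hv] at p1 p2
  have sv : 0 ≤ Real.sin (Real.pi * v.re) := Real.sin_nonneg_of_nonneg_of_le_pi
    (mul_nonneg hpi.le h.hv.re0) (by linarith only [hc, hq1,
                                       mul_nonneg (sub_nonneg.2 hv.le) (sub_nonneg.2 hpi.le),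
                                       mul_nonneg (sub_nonneg.2 hv.ge) (sub_nonneg.2 hpi.le)])
  have cv : 0 < Real.cos (Real.pi * v.re) := cos_pi_pos h.hv.abs
  have sw : 0 ≤ Real.sin (Real.pi * w.re) := Real.sin_nonneg_of_nonneg_of_le_pi
    (mul_nonneg hpi.le h.hw.re0) (by linarith only [hc, hq1,
                                       mul_nonneg (sub_nonneg.2 hpi.le) (sub_nonneg.2 h.hw.re1)])
  have cw : 0 < Real.cos (Real.pi * w.re) := cos_pi_pos h.hw.abs
  have shs : 0 ≤ Real.sinh s := Real.sinh_nonneg_iff.2 s0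
  have shw : 0 ≤ Real.sinh (Real.pi * w.im) :=
    Real.sinh_nonneg_iff.2 (mul_nonneg hpi.le h.hw.im0)
  have chs := Real.cosh_pos s
  have chw := Real.cosh_pos (Real.pi * w.im)
  obtain ⟨D, hD⟩ : ∃ D, D = Real.cos (Real.pi * v.re) ^ 2 + Real.sinh s ^ 2 := ⟨_, rfl⟩
  have n1 : normSq (cos (Real.pi * v)) = D := by
    rw [normSq_apply, c1, c2, hD]
    linear_combination (Real.cos (Real.pi * v.re)) ^ 2 * a2 + Real.sinh s ^ 2 * a1
  have hDP : Real.cos (Real.pi * v.re) ^ 2 ≤ D := by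
    rw [hD]; linarith only [sq_nonneg (Real.sinh s)]
  have hD0 : 0 < D := by linarith only [hDP, p1]
  have ez : z * (D : ℂ) = sin (Real.pi * v) * g * (starRingEnd ℂ) (cos (Real.pi * v)) := by
    rw [← n1, ← mul_conj, hz']
    have : cos (Real.pi * v) ≠ 0 := cos_ne' hPre
    field_simp
  obtain ⟨m, hm⟩ : ∃ m, m = Real.sin (Real.pi * v.re) * Real.cos (Real.pi * v.re) := ⟨_, rfl⟩
  have hm0 : 0 ≤ m := by rw [hm]; positivity
  obtain ⟨n, hn⟩ : ∃ n, n = Real.sinh s * Real.cosh s := ⟨_, rfl⟩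
  have hn0 : 0 ≤ n := by rw [hn]; positivity
  have hz1 : z.im * D = n * g.re + m * g.im := by
    have e2 := congrArg Complex.im ez
    rw [mul_comm, im_ofReal_mul] at e2
    rw [mul_comm, e2, mul_im, mul_re, mul_im, conj_re, conj_im, c1, c2, c3, c4, hm, hn]
    linear_combination (Real.sin (Real.pi * v.re) * Real.cos (Real.pi * v.re) * g.im) * a2 +
      (Real.sinh s * Real.cosh s * g.re) * a1
  have hz2 : z.re * D = m * g.re - n * g.im := by
    have e2 := congrArg Complex.re ez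
    rw [mul_comm, re_ofReal_mul] at e2
    rw [mul_comm, e2, mul_re, mul_re, mul_im, conj_re, conj_im, c1, c2, c3, c4, hm, hn]
    linear_combination (Real.sin (Real.pi * v.re) * Real.cos (Real.pi * v.re) * g.re) * a2 -
      (Real.sinh s * Real.cosh s * g.im) * a1
  have gr0 : 0 < g.re := by rw [g1]; positivity
  have gi0 : g.im ≤ 0 := by rw [g2]; have : 0 ≤ Real.sin (Real.pi * w.re) *
                              Real.sinh (Real.pi * w.im) := by positivity
                            linarith only [this]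
  -- bounds
  have t1 : (z.im * D) ^ 2 ≤ (m * g.im) ^ 2 := by
    have u1 : z.im * D < 0 := mul_neg_of_neg_of_pos zi hD0
    have u2 : m * g.im ≤ z.im * D := by rw [hz1]; linarith only [mul_nonneg hn0 gr0.le]
    linarith only [mul_nonneg (sub_nonneg.2 u2) (sub_nonneg.2 u2),
      mul_nonneg (sub_nonneg.2 u1.le) (sub_nonneg.2 u2)]
  have t2 : (m * g.re) ^ 2 ≤ (z.re * D) ^ 2 := by
    have u1 : 0 ≤ m * g.re := mul_nonneg hm0 gr0.le
    have u2 : m * g.re ≤ z.re * D := by rw [hz2]; linarith only [mul_nonneg hn0 (neg_nonneg.2 gi0)]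
    exact pow_le_pow_left₀ u1 u2 2
  -- the algebraic inequality
  obtain ⟨P, hP⟩ : ∃ P, P = Real.cos (Real.pi * v.re) ^ 2 := ⟨_, rfl⟩
  obtain ⟨c, hcc⟩ : ∃ c, c = Real.cos (Real.pi * w.re) ^ 2 := ⟨_, rfl⟩
  obtain ⟨e, he⟩ : ∃ e, e = Real.sinh (Real.pi * w.im) ^ 2 := ⟨_, rfl⟩
  rw [← hP] at p1 p2 hDP a1
  rw [← hcc] at a3 b2
  rw [← he] at b2 a4
  have c0 : 0 < c := by rw [hcc]; positivity
  have e0 : 0 ≤ e := by rw [he]; positivity
  have c10 : c ≤ 1 := by linarith only [sq_nonneg (Real.sin (Real.pi * w.re)), a3]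
  have key := imq_alg (P := P) (c := c) (e := e) p1 (by linarith only [p2]) c0.le c10 e0 b2
  have hm2 : m ^ 2 = (1 - P) * P := by
    rw [hm, mul_pow, ← hP]
    linear_combination P * a1
  have hgr : g.re ^ 2 = c * (1 + e) := by
    rw [g1, mul_pow, a4, ← hcc, add_comm]
  have hgi : g.im ^ 2 = (1 - c) * e := by
    rw [g2, neg_sq, mul_pow, ← he]
    linear_combination e * a3
  have P0 : 0 < P := by linarith only [p1]
  -- combine
  have k1 : Real.sin q.im ^ 2 * (D ^ 2 + (z.re * D) ^ 2) ≤ (z.im * D) ^ 2 := by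
    have := mul_le_mul_of_nonneg_right s2 (sq_nonneg D)
    linarith only [this]
  have k2 : Real.sin q.im ^ 2 * (P ^ 2 + (m * g.re) ^ 2) ≤ (m * g.im) ^ 2 := by
    have u1 : P ^ 2 ≤ D ^ 2 := pow_le_pow_left₀ P0.le hDP 2
    have u2 : P ^ 2 + (m * g.re) ^ 2 ≤ D ^ 2 + (z.re * D) ^ 2 := by linarith only [u1, t2]
    exact (mul_le_mul_of_nonneg_left u2 (sq_nonneg _)).trans (k1.trans t1)
  rw [mul_pow, mul_pow, hm2, hgr, hgi] at k2
  have k3 : Real.sin q.im ^ 2 * (P + (1 - P) * (c * (1 + e))) ≤ (1 - P) * ((1 - c) * e) := by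
    have : P * (Real.sin q.im ^ 2 * (P + (1 - P) * (c * (1 + e)))) ≤
        P * ((1 - P) * ((1 - c) * e)) := by linarith only [k2]
    exact le_of_mul_le_mul_left this P0
  have k4 : 0 < P + (1 - P) * (c * (1 + e)) := by
    have : 0 ≤ (1 - P) * (c * (1 + e)) := by
      have : 0 ≤ 1 - P := by linarith only [p2]
      positivity
    linarith only [this, p1]
  have k5 := mul_lt_mul_of_pos_right s1 k4
  linarith only [k5, k3, key]

/-- The loss on the vertical. -/
theorem PrS.loss (hΦ : IsPhi Φ) (h : PrS θ θ' v w) (hv : v.re = 13 / 40) :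
    (Φ v w).re ≤ (Φ (up θ v) w).re + 5 / 8 * ((up θ v).im - v.im) := by
  have hpi := Real.pi_pos
  have hR : |Real.pi * v.re| < Real.pi / 2 := by
    have := pi_re_lt h.hv.abs
    rwa [pi_mul_re] at this
  obtain ⟨W, hW⟩ : ∃ W, W = uof w := ⟨_, rfl⟩
  have hm : MonotoneOn (fun s : ℝ => (Φ (gd (igd (UU (Real.pi * v.re) s)) / (Real.pi : ℂ))
      (gd W / (Real.pi : ℂ))).re + 5 / 8 / Real.pi * s)
      (Set.Icc (Real.pi * v.im) (Real.pi * bl θ v.re)) := by
    -- data on the segment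
    have hd : ∀ s ∈ Set.Icc (Real.pi * v.im) (Real.pi * bl θ v.re),
        -(5 / 16) ≤ (qq (igd (UU (Real.pi * v.re) s)) W).im ∧
        Reg (igd (UU (Real.pi * v.re) s)) W := by
      intro s hs
      obtain ⟨b, hb⟩ : ∃ b, s = Real.pi * b := ⟨s / Real.pi, by field_simp⟩
      have hb1 : v.im ≤ b := by
        have := hs.1
        rw [hb] at this
        exact le_of_mul_le_mul_left this hpi
      have hb2 : b ≤ bl θ v.re := by
        have := hs.2
        rw [hb] at this
        exact le_of_mul_le_mul_left this hpi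
      have hz : PrS θ θ' ((v.re : ℂ) + (b : ℂ) * I) w :=
        ⟨⟨by rw [line_re]; exact h.hv.re0, by rw [line_re]; exact h.hv.re1,
          by rw [line_im]; exact h.hv.im0.trans hb1, by rw [line_re, line_im]; exact hb2⟩,
          h.hw, h.hs⟩
      have hq := hz.qs
      have hk := hz.im_qq_ge (by rw [line_re]; exact hv)
      rw [uof_line, ← hb, ← hW] at hk
      rw [uof_line, ← hb, ← hW] at hq
      exact ⟨hk, hq.reg⟩
    have hder : ∀ s ∈ Set.Icc (Real.pi * v.im) (Real.pi * bl θ v.re),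
        HasDerivAt (fun s : ℝ => (Φ (gd (igd (UU (Real.pi * v.re) s)) / (Real.pi : ℂ))
          (gd W / (Real.pi : ℂ))).re + 5 / 8 / Real.pi * s)
          (2 / Real.pi * (qq (igd (UU (Real.pi * v.re) s)) W).im +
            5 / 8 / Real.pi) s := by
      intro s hs
      obtain ⟨_, hr⟩ := hd s hs
      have h1 := hΦ.deriv (fun s => igd (UU (Real.pi * v.re) s)) (fun _ => W) _ 0 s hr
        (hasDerivAt_igd_line hR s) (hasDerivAt_const _ _)
      have h2 := hasDerivAt_re h1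
      have h3 : HasDerivAt (fun s : ℝ => 5 / 8 / Real.pi * s) (5 / 8 / Real.pi) s := by
        simpa using (hasDerivAt_id s).const_mul (5 / 8 / Real.pi)
      refine (h2.add h3).congr_deriv ?_
      congr 1
      have hc := cosh_ne hr.left
      have hpi' : (Real.pi : ℂ) ≠ 0 := by exact_mod_cast Real.pi_ne_zero
      have e : (-2 * qq (igd (UU (Real.pi * v.re) s)) W * (I * cosh (igd (UU (Real.pi * v.re) s))) /
          ((Real.pi : ℂ) * cosh (igd (UU (Real.pi * v.re) s))) -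
          2 * qq W (igd (UU (Real.pi * v.re) s)) * 0 / ((Real.pi : ℂ) * cosh W)) =
          ((2 / Real.pi : ℝ) : ℂ) * (-I * qq (igd (UU (Real.pi * v.re) s)) W) := by
        push_cast
        field_simp
        ring
      rw [e, re_ofReal_mul]
      congr 1
      rw [mul_re, neg_re, neg_im, I_re, I_im]
      ring
    apply monotoneOn_of_deriv_nonneg (convex_Icc _ _)
    · intro s hs
      exact (hder s hs).continuousAt.continuousWithinAt
    · intro s hs
      rw [interior_Icc] at hs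
      exact (hder s (Set.Ioo_subset_Icc_self hs)).differentiableAt.differentiableWithinAt
    · intro s hs
      rw [interior_Icc] at hs
      have hs' := Set.Ioo_subset_Icc_self hs
      rw [(hder s hs').deriv]
      have h1 := (hd s hs').1
      have e : 2 / Real.pi * (qq (igd (UU (Real.pi * v.re) s)) W).im + 5 / 8 / Real.pi =
          (2 * (qq (igd (UU (Real.pi * v.re) s)) W).im + 5 / 8) / Real.pi := by ring
      rw [e]
      apply div_nonneg _ hpi.le
      linarith only [h1]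
  have hle : Real.pi * v.im ≤ Real.pi * bl θ v.re := mul_le_mul_of_nonneg_left h.hv.im1 hpi.le
  have k := hm ⟨le_rfl, hle⟩ ⟨hle, le_rfl⟩ hle
  simp only at k
  rw [← uof_line, ← uof_line, re_add_im, hW] at k
  rw [Phi_eq_gd Φ h.hv.abs h.hw.abs, Phi_eq_gd Φ (v := S3.up θ v) (by rw [up_re]; exact h.hv.abs)
    h.hw.abs, up_im]
  have e1 : 5 / 8 / Real.pi * (Real.pi * v.im) = 5 / 8 * v.im := by field_simp
  have e2 : 5 / 8 / Real.pi * (Real.pi * bl θ v.re) = 5 / 8 * bl θ v.re := by field_simp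
  rw [e1, e2] at k
  have e3 : (Φ (gd (uof (S3.up θ v)) / (Real.pi : ℂ)) (gd (uof w) / (Real.pi : ℂ))).re =
      (Φ (gd (uof ((v.re : ℂ) + ((bl θ v.re : ℝ) : ℂ) * I)) / (Real.pi : ℂ))
        (gd (uof w) / (Real.pi : ℂ))).re := rfl
  rw [e3]
  linarith only [k]

theorem PrS.loss' (hΦ : IsPhi Φ) (h : PrS θ θ' v w) (hw : w.re = 13 / 40) :
    (Φ v w).re ≤ (Φ v (up θ' w)).re + 5 / 8 * ((up θ' w).im - w.im) :=
  h.symm.loss hΦ.swap hw

end

end Pool.Agent.MX
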